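import Pool.Agent.Helper10.Sub.Hasse

/-!
# Grid lemma
-/

set_option autoImplicit false
set_option linter.unusedSectionVars false
set_option linter.unusedSimpArgs false

namespace Pool.Agent.Helper41.Sub

open MvPolynomial Pool.Agent.Helper10.Sub

/-- one variable -/
lemma one_var (φ : Polynomial ℚ) (hφ : φ ≠ 0) (d N : ℕ) (hdeg : φ.natDegree ≤ d) :
    ∃ a : ℕ, a ≤ N ∧ ∃ c : ℕ, c ≤ d / (N + 1) ∧ (Polynomial.taylor (a : ℚ) φ).coeff c ≠ 0 := by
  by_contra hcon
  push Not at hcon
  set K := d / (N + 1) + 1 with hK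
  have h1 : ∀ a ∈ Finset.range (N + 1), (Polynomial.X - Polynomial.C (a : ℚ)) ^ K ∣ φ := by
    intro a ha
    rw [Polynomial.X_sub_C_pow_dvd_iff, Polynomial.X_pow_dvd_iff]
    intro c hc
    have := hcon a (by rw [Finset.mem_range] at ha; omega) c (by omega)
    rwa [Polynomial.taylor_apply] at this
  have h2 : ∏ a ∈ Finset.range (N + 1), (Polynomial.X - Polynomial.C (a : ℚ)) ^ K ∣ φ := by
    apply Finset.prod_dvd_of_coprime _ h1
    intro a _ b _ hab
    apply IsCoprime.pow
    apply Polynomial.isCoprime_X_sub_C_of_isUnit_sub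
    rw [isUnit_iff_ne_zero, sub_ne_zero]
    exact_mod_cast hab
  have h3 := Polynomial.natDegree_le_of_dvd h2 hφ
  rw [Polynomial.natDegree_prod_of_monic (Finset.range (N + 1))
    (fun a : ℕ => (Polynomial.X - Polynomial.C (a : ℚ)) ^ K)
    (fun a _ => (Polynomial.monic_X_sub_C (a : ℚ)).pow K)] at h3
  simp only [Polynomial.natDegree_pow, Polynomial.natDegree_X_sub_C, mul_one, Finset.sum_const,
    Finset.card_range, smul_eq_mul] at h3
  have h4 : d < (N + 1) * K := by
    rw [hK]
    exact Nat.lt_mul_div_succ d (Nat.succ_pos N)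
  omega

section slice
variable {J : Type*} [Fintype J] [DecidableEq J]

/-- The polynomial in one variable formed by the coefficients of `Q` whose exponent agrees with
`e` away from `q`. -/
noncomputable def slice (D : ℕ) (q : J) (e : J →₀ ℕ) (Q : MvPolynomial J ℚ) : Polynomial ℚ :=
  ∑ c ∈ Finset.range (D + 1), Polynomial.monomial c (coeff (e.update q c) Q)

lemma slice_sum {α : Type*} (D : ℕ) (q : J) (e : J →₀ ℕ) (s : Finset α)
    (P : α → MvPolynomial J ℚ) : slice D q e (∑ a ∈ s, P a) = ∑ a ∈ s, slice D q e (P a) := by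
  unfold slice
  rw [Finset.sum_comm]
  apply Finset.sum_congr rfl
  intro c _
  rw [coeff_sum, map_sum]

lemma coeff_slice (D : ℕ) (q : J) (e : J →₀ ℕ) (Q : MvPolynomial J ℚ) (c : ℕ) (hc : c ≤ D) :
    (slice D q e Q).coeff c = coeff (e.update q c) Q := by
  unfold slice
  rw [Polynomial.finsetSum_coeff, Finset.sum_eq_single c]
  · rw [Polynomial.coeff_monomial, if_pos rfl]
  · intro b _ hb
    rw [Polynomial.coeff_monomial, if_neg hb]
  · intro h
    exact absurd (Finset.mem_range.mpr (by omega)) h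

lemma natDegree_slice (D : ℕ) (q : J) (e : J →₀ ℕ) (Q : MvPolynomial J ℚ) :
    (slice D q e Q).natDegree ≤ D := by
  unfold slice
  apply Polynomial.natDegree_sum_le_of_forall_le
  intro c hc
  refine (Polynomial.natDegree_monomial_le _).trans ?_
  rw [Finset.mem_range] at hc
  omega

lemma slice_monomial (D : ℕ) (q : J) (e f : J →₀ ℕ) (b : ℚ) (hf : f q ≤ D) :
    slice D q e (monomial f b) =
      if ∀ i, i ≠ q → f i = e i then Polynomial.monomial (f q) b else 0 := by
  unfold slice
  split_ifs with h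
  · rw [Finset.sum_eq_single (f q)]
    · have : f = e.update q (f q) := by
        ext i
        by_cases hi : i = q
        · subst hi; simp
        · rw [Finsupp.coe_update, Function.update_of_ne hi]
          exact h i hi
      rw [coeff_monomial, if_pos this]
    · intro c _ hc
      rw [coeff_monomial, if_neg, map_zero]
      intro h2
      apply hc
      rw [h2]; simp
    · intro h2
      exact absurd (Finset.mem_range.mpr (by omega)) h2
  · apply Finset.sum_eq_zero
    intro c _
    rw [coeff_monomial, if_neg, map_zero]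
    intro h2
    apply h
    intro i hi
    rw [h2, Finsupp.coe_update, Function.update_of_ne hi]

lemma coeff_shift_monomial (q : J) (e f : J →₀ ℕ) (b a : ℚ) (c : ℕ) :
    coeff (e.update q c) (shift (Pi.single q a) (monomial f b)) =
      if ∀ i, i ≠ q → f i = e i then b * ((f q).choose c : ℚ) * a ^ (f q - c) else 0 := by
  rw [coeff_shift, hd_monomial, eval_monomial, Finsupp.prod_fintype _ _ (by simp)]
  have key : ((∏ i, (f i).choose ((e.update q c) i) : ℕ) : ℚ) *
      ∏ i, (Pi.single q a : J → ℚ) i ^ ((f - e.update q c) i) =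
      ∏ i, (((f i).choose ((e.update q c) i) : ℕ) : ℚ) *
        (Pi.single q a : J → ℚ) i ^ ((f - e.update q c) i) := by
    rw [Nat.cast_prod, Finset.prod_mul_distrib]
  rw [mul_assoc, key]
  split_ifs with h
  · rw [Finset.prod_eq_single q]
    · simp
      ring
    · intro i _ hi
      rw [Finsupp.coe_tsub, Pi.sub_apply, Finsupp.coe_update, Function.update_of_ne hi, h i hi,
        Nat.choose_self, Nat.sub_self]
      simp
    · simp
  · push Not at h
    obtain ⟨i, hi, hne⟩ := h
    rw [Finset.prod_eq_zero (Finset.mem_univ i), mul_zero]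
    rw [Finsupp.coe_tsub, Pi.sub_apply, Finsupp.coe_update, Function.update_of_ne hi,
      Pi.single_eq_of_ne hi]
    rcases lt_or_gt_of_ne hne with h1 | h1
    · rw [Nat.choose_eq_zero_of_lt h1]
      simp
    · rw [zero_pow (by omega), mul_zero]

/-- The slices of a translate. -/
lemma coeff_shift_single (D : ℕ) (q : J) (e : J →₀ ℕ) (Q : MvPolynomial J ℚ)
    (hQ : ∀ f ∈ Q.support, f q ≤ D) (a : ℚ) (c : ℕ) :
    coeff (e.update q c) (shift (Pi.single q a) Q) =
      (Polynomial.taylor a (slice D q e Q)).coeff c := by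
  conv_lhs => rw [← support_sum_monomial_coeff Q]
  conv_rhs => rw [← support_sum_monomial_coeff Q]
  rw [map_sum, coeff_sum, slice_sum, map_sum, Polynomial.finsetSum_coeff]
  apply Finset.sum_congr rfl
  intro f hf
  rw [coeff_shift_monomial, slice_monomial D q e f _ (hQ f hf)]
  split_ifs with h
  · rw [Polynomial.taylor_coeff, Polynomial.hasseDeriv_monomial, Polynomial.eval_monomial]
    ring
  · simp

end slice

lemma support_shift {J : Type*} [Fintype J] (g : MvPolynomial J ℚ) (d : J → ℕ)
    (hdeg : ∀ e ∈ g.support, ∀ q, e q ≤ d q) (ξ : J → ℚ) :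
    ∀ f ∈ (shift ξ g).support, ∀ q, f q ≤ d q := by
  intro f hf q
  rw [mem_support_iff, coeff_shift] at hf
  have h1 : hd f g ≠ 0 := by
    intro h
    rw [h, map_zero] at hf
    exact hf rfl
  obtain ⟨m, hm⟩ := MvPolynomial.exists_coeff_ne_zero h1
  have h2 := support_hd f g (mem_support_iff.mpr hm)
  have h3 := hdeg _ h2 q
  rw [Finsupp.add_apply] at h3
  omega

/-- several variables -/
lemma multi {J : Type*} [Fintype J] [DecidableEq J] (g : MvPolynomial J ℚ) (hg : g ≠ 0)
    (d : J → ℕ) (hdeg : ∀ e ∈ g.support, ∀ q, e q ≤ d q) (N : ℕ) (S : Finset J) :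
    ∃ u : J → ℕ, (∀ q, u q ≤ N) ∧ (∀ q, q ∉ S → u q = 0) ∧ ∃ e : J →₀ ℕ,
      (∀ q ∈ S, e q ≤ d q / (N + 1)) ∧ coeff e (shift (fun q => (u q : ℚ)) g) ≠ 0 := by
  induction S using Finset.induction_on with
  | empty =>
    obtain ⟨e, he⟩ := MvPolynomial.exists_coeff_ne_zero hg
    refine ⟨fun _ => 0, fun _ => Nat.zero_le _, fun _ _ => rfl, e, by simp, ?_⟩
    have : (fun _ : J => ((0 : ℕ) : ℚ)) = 0 := by ext; simp
    rw [this, shift_zero]
    exact he
  | insert q S hq ih =>
    obtain ⟨u, hu, hu0, e, he, hne⟩ := ih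
    set Q := shift (fun q => (u q : ℚ)) g with hQ
    have hsup := support_shift g d hdeg (fun q => (u q : ℚ))
    have hs : slice (d q) q e Q ≠ 0 := by
      intro h
      have h1 := coeff_slice (d q) q e Q (e q) (hsup e (mem_support_iff.mpr hne) q)
      rw [h, Polynomial.coeff_zero] at h1
      apply hne
      rw [h1]
      congr 1
      ext i
      by_cases hi : i = q
      · subst hi; simp
      · simp [Function.update_of_ne hi]
    obtain ⟨a, haN, c, hc, hac⟩ := one_var _ hs (d q) N (natDegree_slice _ _ _ _)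
    rw [← coeff_shift_single (d q) q e Q (fun f hf => hsup f hf q), hQ, shift_shift] at hac
    refine ⟨Function.update u q a, ?_, ?_, e.update q c, ?_, ?_⟩
    · intro i
      by_cases hi : i = q
      · subst hi; simpa using haN
      · rw [Function.update_of_ne hi]; exact hu i
    · intro i hi
      rw [Finset.mem_insert, not_or] at hi
      rw [Function.update_of_ne hi.1]
      exact hu0 i hi.2
    · intro i hi
      by_cases hiq : i = q
      · subst hiq; simpa using hc
      · rw [Finsupp.coe_update, Function.update_of_ne hiq]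
        exact he i ((Finset.mem_insert.mp hi).resolve_left hiq)
    · convert hac using 4
      ext i
      by_cases hi : i = q
      · subst hi
        simp [hu0 i hq]
      · simp [Function.update_of_ne hi, Pi.single_eq_of_ne hi]

section main
variable {b n' : ℕ} {ι : Type} [Fintype ι] [DecidableEq ι]

/-- The substitution. -/
noncomputable def psi (y : Fin b → Fin n' → ι → ℚ) :
    MvPolynomial (Fin b × ι) ℚ →ₐ[ℚ] MvPolynomial (Fin b × Fin n') ℚ :=
  aeval (fun p => ∑ j, C (y p.1 j p.2) * X (p.1, j))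

lemma eval_psi (y : Fin b → Fin n' → ι → ℚ) (u : Fin b × Fin n' → ℚ)
    (P : MvPolynomial (Fin b × ι) ℚ) :
    eval u (psi y P) = eval (fun q => ∑ j, u (q.1, j) * y q.1 j q.2) P := by
  induction P using MvPolynomial.induction_on with
  | C a => simp [psi]
  | add p q hp hq => simp only [map_add, hp, hq]
  | mul_X p i hp =>
    rw [map_mul, map_mul, hp, map_mul]
    congr 1
    simp only [psi, aeval_X, map_sum, map_mul, eval_C, eval_X]
    exact Finset.sum_congr rfl fun j _ => mul_comm _ _

lemma shift_psi (y : Fin b → Fin n' → ι → ℚ) (u : Fin b × Fin n' → ℚ)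
    (P : MvPolynomial (Fin b × ι) ℚ) :
    shift u (psi y P) = psi y (shift (fun q => ∑ j, u (q.1, j) * y q.1 j q.2) P) := by
  induction P using MvPolynomial.induction_on with
  | C a => simp [psi, shift_C]
  | add p q hp hq => simp only [map_add, hp, hq]
  | mul_X p i hp =>
    rw [map_mul, map_mul, hp, map_mul, map_mul]
    congr 1
    rw [shift_X]
    simp only [psi, map_add, aeval_X, map_sum, map_mul, shift_C, shift_X, aeval_C]
    simp only [mul_add, Finset.sum_add_distrib]
    congr 1
    simp only [MvPolynomial.algebraMap_eq]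
    exact Finset.sum_congr rfl fun j _ => mul_comm _ _

/-- block degrees -/
lemma psi_monomial (y : Fin b → Fin n' → ι → ℚ) (k : (Fin b × ι) →₀ ℕ) (a : ℚ)
    (κ : (Fin b × Fin n') →₀ ℕ) (h : coeff κ (psi y (monomial k a)) ≠ 0) (l : Fin b) :
    ∑ j, κ (l, j) = ∑ i, k (l, i) := by
  classical
  let w : Fin b × Fin n' → (Fin b → ℕ) := fun q => Pi.single q.1 1
  have h1 : IsWeightedHomogeneous w (psi y (monomial k a))
      (∑ p : Fin b × ι, k p • (Pi.single p.1 1 : Fin b → ℕ)) := by
    have e1 : psi y (monomial k a) =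
        C a * ∏ p : Fin b × ι, (∑ j, C (y p.1 j p.2) * X (p.1, j)) ^ (k p) := by
      rw [monomial_eq, Finsupp.prod_fintype _ _ (by simp), map_mul, map_prod]
      simp [psi]
    rw [e1]
    have h2 := (isWeightedHomogeneous_C w a).mul
      (IsWeightedHomogeneous.prod (R := ℚ) (w := w) Finset.univ
        (fun p : Fin b × ι => (∑ j, C (y p.1 j p.2) * X (p.1, j)) ^ (k p))
        (fun p => k p • (Pi.single p.1 1 : Fin b → ℕ)) (fun p _ => by
          apply IsWeightedHomogeneous.pow
          apply IsWeightedHomogeneous.sum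
          intro j _
          have h3 := (isWeightedHomogeneous_C w (y p.1 j p.2)).mul
            (isWeightedHomogeneous_X ℚ w (p.1, j))
          rw [zero_add] at h3
          exact h3))
    rw [zero_add] at h2
    exact h2
  have h4 := congrFun (h1 h) l
  rw [Finsupp.weight_apply, Finsupp.sum_fintype _ _ (by simp)] at h4
  simp only [Finset.sum_apply, Pi.smul_apply, smul_eq_mul, w] at h4
  rw [Fintype.sum_prod_type, Fintype.sum_prod_type] at h4
  rw [Finset.sum_eq_single l, Finset.sum_eq_single l] at h4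
  · simpa using h4
  · intro m _ hm
    simp [Pi.single_eq_of_ne hm.symm]
  · simp
  · intro m _ hm
    simp [Pi.single_eq_of_ne hm.symm]
  · simp

lemma psi_support (y : Fin b → Fin n' → ι → ℚ) (P : MvPolynomial (Fin b × ι) ℚ)
    (κ : (Fin b × Fin n') →₀ ℕ) (h : coeff κ (psi y P) ≠ 0) :
    ∃ k ∈ P.support, ∀ l, ∑ j, κ (l, j) = ∑ i, k (l, i) := by
  rw [← support_sum_monomial_coeff P, map_sum, coeff_sum] at h
  obtain ⟨k, hk, hne⟩ := Finset.exists_ne_zero_of_sum_ne_zero h
  exact ⟨k, hk, psi_monomial y k _ κ hne⟩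

end main

/-- GRID -/
theorem grid {b n' : ℕ} {ι : Type} [Fintype ι] [DecidableEq ι] (G : MvPolynomial (Fin b × ι) ℚ)
    (r : Fin b → ℕ) (hdeg : ∀ e ∈ G.support, ∀ h, ∑ i, e (h, i) ≤ r h)
    (y : Fin b → Fin n' → ι → ℚ) (z : Fin b → ι → ℚ)
    (hz : ∀ h, z h ∈ Submodule.span ℚ (Set.range (y h)))
    (hne : eval (fun q => z q.1 q.2) G ≠ 0) (N : ℕ) :
    ∃ u : Fin b → Fin n' → ℕ, (∀ h j, u h j ≤ N) ∧ ∃ k : (Fin b × ι) →₀ ℕ,
      (∀ h, ∑ i, k (h, i) ≤ n' * (r h / (N + 1))) ∧
      eval (fun q => ∑ j, (u q.1 j : ℚ) * y q.1 j q.2) (hd k G) ≠ 0 := by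
  have h1 : ∀ h, ∃ c : Fin n' → ℚ, ∑ j, c j • y h j = z h := fun h =>
    (Submodule.mem_span_range_iff_exists_fun ℚ).mp (hz h)
  choose c hc using h1
  have hg : psi y G ≠ 0 := by
    intro h0
    apply hne
    have h2 := eval_psi y (fun q => c q.1 q.2) G
    rw [h0, map_zero] at h2
    rw [h2]
    congr 1
    apply congrArg
    ext q
    rw [← hc q.1]
    simp [Finset.sum_apply]
  have hsup : ∀ e ∈ (psi y G).support, ∀ q : Fin b × Fin n', e q ≤ r q.1 := by
    intro e he q
    obtain ⟨k, hk, hkl⟩ := psi_support y G e (mem_support_iff.mp he)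
    refine le_trans ?_ ((hkl q.1).le.trans (hdeg k hk q.1))
    exact Finset.single_le_sum (f := fun j => e (q.1, j)) (fun _ _ => Nat.zero_le _)
      (Finset.mem_univ q.2)
  obtain ⟨u, hu, -, e, he, hue⟩ := multi (psi y G) hg (fun q => r q.1) hsup N Finset.univ
  rw [shift_psi] at hue
  obtain ⟨k, hk, hkl⟩ := psi_support y _ e hue
  refine ⟨fun h j => u (h, j), fun h j => hu (h, j), k, ?_, ?_⟩
  · intro h
    rw [← hkl h]
    calc ∑ j, e (h, j) ≤ ∑ _j : Fin n', r h / (N + 1) :=
          Finset.sum_le_sum fun j _ => he (h, j) (Finset.mem_univ _)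
      _ = n' * (r h / (N + 1)) := by simp
  · rw [mem_support_iff, coeff_shift] at hk
    exact hk

end Pool.Agent.Helper41.Sub
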