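import Pool.Agent.Helper10.RC.Intr

/-!
# Two absolute values extending the monomial one give a split initial polynomial
-/

set_option autoImplicit false

namespace Pool.Agent.Helper41.RC

open Pool.Agent.Helper10.RC MvPolynomial NumberField

/-- an absolute value bounded on the natural numbers is nonarchimedean -/
theorem nonarch_of_nat {B : Type} [CommRing B] [IsDomain B] (w : AbsoluteValue B ℝ)
    (h : ∀ m : ℕ, w (m : B) ≤ 1) : IsNonarchimedean w := by
  intro x y
  set M : ℝ := max (w x) (w y) with hM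
  have hM0 : 0 ≤ M := le_max_of_le_left (w.nonneg x)
  have key : ∀ m : ℕ, w (x + y) ^ m ≤ (m + 1) * M ^ m := by
    intro m
    rw [← map_pow, add_pow]
    refine (w.sum_le _ _).trans ?_
    have : ∀ k ∈ Finset.range (m + 1), w (x ^ k * y ^ (m - k) * (m.choose k : B)) ≤ M ^ m := by
      intro k hk
      rw [Finset.mem_range] at hk
      rw [map_mul, map_mul, map_pow, map_pow]
      have h1 : w x ^ k ≤ M ^ k := pow_le_pow_left₀ (w.nonneg x) (le_max_left _ _) k
      have h2 : w y ^ (m - k) ≤ M ^ (m - k) := pow_le_pow_left₀ (w.nonneg y) (le_max_right _ _) _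
      calc w x ^ k * w y ^ (m - k) * w (m.choose k : B) ≤ w x ^ k * w y ^ (m - k) * 1 :=
            mul_le_mul_of_nonneg_left (h _) (by positivity)
        _ ≤ M ^ k * M ^ (m - k) := by
            rw [mul_one]
            exact mul_le_mul h1 h2 (by positivity) (by positivity)
        _ = M ^ m := by rw [← pow_add]; congr 1; omega
    refine (Finset.sum_le_sum this).trans ?_
    simp
  rcases hM0.eq_or_lt with h0 | h0
  · have := key 1
    rw [← h0] at this ⊢
    simpa using this
  · by_contra hcon
    rw [not_le] at hcon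
    obtain ⟨m, hm⟩ : ∃ m : ℕ, ((m : ℝ) + 1) < (w (x + y) / M) ^ m :=
      Real.exists_natCast_add_one_lt_pow_of_one_lt ((one_lt_div h0).2 hcon)
    rw [div_pow, lt_div_iff₀ (by positivity)] at hm
    exact absurd (key m) (not_le.2 hm)

/-- the initial coefficient -/
noncomputable def inC {C : Type} [Field C] {n : ℕ} (ν : Fin n → ℝ) (h w : ℝ) (P : Pl C n) (k : ℕ) :
    MvPolynomial (Fin n) C :=
  open Classical in
  ∑ α ∈ (P.coeff k).support.filter (fun α => wt ν h α k = w), monomial α (coeff α (P.coeff k))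

theorem coeff_inC {C : Type} [Field C] {n : ℕ} (ν : Fin n → ℝ) (h w : ℝ) (P : Pl C n) (k : ℕ)
    (β : Fin n →₀ ℕ) : coeff β (inC ν h w P k) =
      open Classical in if wt ν h β k = w then coeff β (P.coeff k) else 0 := by
  classical
  unfold inC
  rw [coeff_sum]
  simp only [coeff_monomial]
  rw [Finset.sum_ite_eq']
  simp only [Finset.mem_filter, mem_support_iff]
  by_cases h1 : wt ν h β k = w <;> by_cases h2 : coeff β (P.coeff k) = 0 <;> simp [h1, h2]

theorem locData_of_abs {C : Type} [Field C] [CharZero C] {n : ℕ} (R : Pl C n) (hR : R.Monic)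
    (hirr : Irreducible R) (ν : Fin n → ℝ) (w₁ w₂ : AbsoluteValue (AdjoinRoot R) ℝ)
    (hne : w₁ ≠ w₂) (h₁ : Extends R ν w₁) (h₂ : Extends R ν w₂) : LocData R ν := by
  classical
  have hprime : Prime R := hirr.prime
  have : IsDomain (AdjoinRoot R) := AdjoinRoot.isDomain_of_prime hprime
  have hw1 : ∀ w : AbsoluteValue (AdjoinRoot R) ℝ, Extends R ν w → ∀ m : ℕ,
      w (m : AdjoinRoot R) ≤ 1 := by
    intro w hw m
    by_cases hm : (m : MvPolynomial (Fin n) C) = 0
    · have : (m : AdjoinRoot R) = 0 := by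
        rw [← map_natCast (AdjoinRoot.of R), hm, map_zero]
      rw [this, map_zero]; exact zero_le_one
    · obtain ⟨α, hα, -, hw'⟩ := hw _ hm
      have hα0 : α = 0 := by
        rw [← map_natCast (MvPolynomial.C (σ := Fin n) (R := C)), mem_support_iff, coeff_C] at hα
        by_contra h0
        rw [if_neg (Ne.symm h0)] at hα
        exact hα rfl
      rw [map_natCast] at hw'
      rw [hw', hα0]
      simp
  have hna1 : IsNonarchimedean w₁ := nonarch_of_nat w₁ (hw1 w₁ h₁)
  have hna2 : IsNonarchimedean w₂ := nonarch_of_nat w₂ (hw1 w₂ h₂)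
  obtain ⟨z, hz⟩ : ∃ z, w₁ z ≠ w₂ z := by
    by_contra hcon
    push Not at hcon
    exact hne (AbsoluteValue.ext hcon)
  have hz0 : z ≠ 0 := by
    rintro rfl
    exact hz (by rw [map_zero, map_zero])
  have : Module.Finite (MvPolynomial (Fin n) C) (AdjoinRoot R) := hR.finite_adjoinRoot
  have hint : IsIntegral (MvPolynomial (Fin n) C) z := IsIntegral.of_finite _ z
  set P := minpoly (MvPolynomial (Fin n) C) z with hP
  have hPm : P.Monic := minpoly.monic hint
  have hPi : Irreducible P := minpoly.irreducible hint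
  have hPz : Polynomial.aeval z P = 0 := minpoly.aeval _ _
  have hd' : 0 < P.natDegree := minpoly.natDegree_pos hint
  set d' := P.natDegree with hd'def
  obtain ⟨R₀, hR₀⟩ := AdjoinRoot.mk_surjective z
  have hdvd : R ∣ P.comp R₀ := by
    rw [← AdjoinRoot.mk_eq_zero, Polynomial.comp, Polynomial.hom_eval₂, hR₀]
    exact hPz
  obtain ⟨M, hM⟩ := hdvd
  -- the constant coefficient
  have hP0 : P.coeff 0 ≠ 0 := by
    intro h0
    obtain ⟨g, hg⟩ := Polynomial.X_dvd_iff.2 h0
    rcases hPi.isUnit_or_isUnit hg with hu | hu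
    · exact Polynomial.not_isUnit_X hu
    · have h2 : Polynomial.aeval z P = z * Polynomial.aeval z g := by
        rw [hg, map_mul, Polynomial.aeval_X]
      rw [hPz] at h2
      have h3 : IsUnit (Polynomial.aeval z g) := hu.map _
      rcases mul_eq_zero.1 h2.symm with h4 | h4
      · exact hz0 h4
      · rw [h4] at h3
        exact not_isUnit_zero h3
  -- the weight of a coefficient
  obtain ⟨d, hd1, hd2, hd3, hd4⟩ : ∃ d : MvPolynomial (Fin n) C → ℝ,
      (∀ f, f ≠ 0 → ∀ β ∈ f.support, ∑ j, ν j * β j ≤ d f) ∧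
      (∀ f, f ≠ 0 → ∃ α ∈ f.support, ∑ j, ν j * α j = d f) ∧
      (∀ f, f ≠ 0 → w₁ (AdjoinRoot.of R f) = Real.exp (d f)) ∧
      (∀ f, f ≠ 0 → w₂ (AdjoinRoot.of R f) = Real.exp (d f)) := by
    have hch : ∀ f : MvPolynomial (Fin n) C, ∃ r : ℝ, f ≠ 0 →
        (∀ β ∈ f.support, ∑ j, ν j * β j ≤ r) ∧ (∃ α ∈ f.support, ∑ j, ν j * α j = r) ∧
        w₁ (AdjoinRoot.of R f) = Real.exp r ∧ w₂ (AdjoinRoot.of R f) = Real.exp r := by
      intro f
      by_cases hf : f = 0
      · exact ⟨0, fun h => absurd hf h⟩
      · obtain ⟨α, hα, hα1, hα2⟩ := h₁ f hf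
        obtain ⟨β, hβ, hβ1, hβ2⟩ := h₂ f hf
        refine ⟨∑ j, ν j * α j, fun _ => ⟨hα1, ⟨α, hα, rfl⟩, hα2, ?_⟩⟩
        rw [hβ2, le_antisymm (hα1 β hβ) (hβ1 α hα)]
    choose d hd using hch
    exact ⟨d, fun f hf => (hd f hf).1, fun f hf => (hd f hf).2.1, fun f hf => (hd f hf).2.2.1,
      fun f hf => (hd f hf).2.2.2⟩
  -- the slope
  obtain ⟨k₀, hk₀, hmax⟩ := Finset.exists_max_image
    ((Finset.range d').filter fun k => P.coeff k ≠ 0)
    (fun k => d (P.coeff k) / ((d' : ℝ) - k)) ⟨0, by simp [hd', hP0]⟩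
  set h := d (P.coeff k₀) / ((d' : ℝ) - k₀) with hh
  rw [Finset.mem_filter, Finset.mem_range] at hk₀
  have hle : ∀ k < d', P.coeff k ≠ 0 → d (P.coeff k) ≤ h * ((d' : ℝ) - k) := by
    intro k hk hk'
    have h1 := hmax k (by simp [hk, hk'])
    have h2 : (0 : ℝ) < (d' : ℝ) - k := by
      have : (k : ℝ) < d' := by exact_mod_cast hk
      linarith
    rwa [div_le_iff₀ h2] at h1
  have heq : d (P.coeff k₀) = h * ((d' : ℝ) - k₀) := by
    have h2 : (0 : ℝ) < (d' : ℝ) - k₀ := by
      have : (k₀ : ℝ) < d' := by exact_mod_cast hk₀.1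
      linarith
    rw [hh, div_mul_cancel₀ _ h2.ne']
  have hlead : P.coeff d' = 1 := hPm.coeff_natDegree
  -- strict inequality for the constant coefficient
  have hlt : d (P.coeff 0) < h * d' := by
    refine lt_of_le_of_ne (by simpa using hle 0 hd' hP0) fun he => ?_
    have claim : ∀ w : AbsoluteValue (AdjoinRoot R) ℝ, IsNonarchimedean w →
        (∀ f, f ≠ 0 → w (AdjoinRoot.of R f) = Real.exp (d f)) → w z = Real.exp h := by
      intro w hna hw
      have hwz : 0 < w z := w.pos hz0
      obtain ⟨s, hs⟩ : ∃ s, w z = Real.exp s := ⟨Real.log (w z), (Real.exp_log hwz).symm⟩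
      have hsum : ∑ k ∈ Finset.range (d' + 1), AdjoinRoot.of R (P.coeff k) * z ^ k = 0 := by
        rw [← hPz, Polynomial.aeval_eq_sum_range]
        refine Finset.sum_congr rfl fun k _ => ?_
        rw [Algebra.smul_def]
        rfl
      have hterm : ∀ k, P.coeff k ≠ 0 →
          w (AdjoinRoot.of R (P.coeff k) * z ^ k) = Real.exp (d (P.coeff k) + s * k) := by
        intro k hk
        rw [map_mul, hw _ hk, map_pow, hs, Real.exp_add, ← Real.exp_nat_mul]
        ring_nf
      have hneg : ∀ a, w a = w (-a) := fun a => (map_neg_eq_map w a).symm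
      have hd1' : d (P.coeff d') = 0 := by
        rw [hlead]
        have h1 := hw 1 one_ne_zero
        rw [map_one, map_one] at h1
        exact (Real.exp_eq_one_iff _).1 h1.symm
      have hp1 : P.coeff d' ≠ 0 := by rw [hlead]; exact one_ne_zero
      rcases lt_trichotomy s h with hlt | hlt | hlt
      · exfalso
        have h1 := IsNonarchimedean.apply_sum_eq_of_lt hna hneg
          (s := Finset.range (d' + 1)) (l := fun k => AdjoinRoot.of R (P.coeff k) * z ^ k) (k := 0)
          (by simp) (by
            intro j hj hj0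
            rw [hterm 0 hP0]
            by_cases hjz : P.coeff j = 0
            · simp only [hjz, map_zero, zero_mul]
              exact Real.exp_pos _
            · rw [hterm j hjz, Real.exp_lt_exp, he]
              have hj' : j ≤ d' := by simpa [Nat.lt_succ_iff] using hj
              have hjpos : (0 : ℝ) < j := by
                have : 0 < j := Nat.pos_of_ne_zero hj0
                exact_mod_cast this
              rcases hj'.eq_or_lt with hjd | hjd
              · rw [hjd, hd1']
                have : (0 : ℝ) < d' := by exact_mod_cast hd'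
                simp only [Nat.cast_zero, mul_zero, add_zero, zero_add]
                nlinarith
              · have := hle j hjd hjz
                simp only [Nat.cast_zero, mul_zero, add_zero]
                nlinarith)
        rw [hsum, map_zero, hterm 0 hP0] at h1
        exact absurd h1.symm (Real.exp_pos _).ne'
      · rw [hs, hlt]
      · exfalso
        have h1 := IsNonarchimedean.apply_sum_eq_of_lt hna hneg
          (s := Finset.range (d' + 1)) (l := fun k => AdjoinRoot.of R (P.coeff k) * z ^ k) (k := d')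
          (by simp) (by
            intro j hj hj0
            rw [hterm d' hp1]
            by_cases hjz : P.coeff j = 0
            · simp only [hjz, map_zero, zero_mul]
              exact Real.exp_pos _
            · rw [hterm j hjz, Real.exp_lt_exp, hd1']
              have hj' : j ≤ d' := by simpa [Nat.lt_succ_iff] using hj
              have hjd : j < d' := lt_of_le_of_ne hj' hj0
              have h3 : (j : ℝ) < d' := by exact_mod_cast hjd
              have := hle j hjd hjz
              nlinarith)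
        rw [hsum, map_zero, hterm d' hp1] at h1
        exact absurd h1.symm (Real.exp_pos _).ne'
    exact hz ((claim w₁ hna1 hd3).trans (claim w₂ hna2 hd4).symm)
  -- the initial polynomial
  have hwt : ∀ k α, coeff α (P.coeff k) ≠ 0 → wt ν h α k ≤ h * d' := by
    intro k α hα
    have hk : P.coeff k ≠ 0 := by
      intro h0
      rw [h0] at hα
      simp at hα
    rcases lt_trichotomy k d' with hlt | rfl | hgt
    · have h1 := hd1 _ hk α (mem_support_iff.2 hα)
      have h2 := hle k hlt hk
      unfold wt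
      linarith
    · rw [hlead] at hα
      have : α = 0 := by
        by_contra h0
        rw [coeff_one, if_neg (Ne.symm h0)] at hα
        exact hα rfl
      rw [this]
      unfold wt
      simp
    · exact absurd (Polynomial.coeff_eq_zero_of_natDegree_lt hgt) hk
  set In : Pl C n := ∑ k ∈ Finset.range (d' + 1),
    Polynomial.C (inC ν h (h * d') P k) * Polynomial.X ^ k with hIn
  have hInc : ∀ k, In.coeff k = inC ν h (h * d') P k := by
    intro k
    rw [hIn, Polynomial.finsetSum_coeff]
    simp only [Polynomial.coeff_C_mul, Polynomial.coeff_X_pow, mul_ite, mul_one, mul_zero]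
    rw [Finset.sum_ite_eq]
    by_cases hk : k ∈ Finset.range (d' + 1)
    · rw [if_pos hk]
    · rw [if_neg hk]
      rw [Finset.mem_range, not_lt] at hk
      ext β
      rw [coeff_inC, Polynomial.coeff_eq_zero_of_natDegree_lt (show P.natDegree < k by omega)]
      simp
  have hIncc : ∀ k α, coeff α (In.coeff k) =
      if wt ν h α k = h * d' then coeff α (P.coeff k) else 0 := by
    intro k α
    rw [hInc, coeff_inC]
  have hInd : In.coeff d' = 1 := by
    ext α
    rw [hIncc, hlead, coeff_one]
    by_cases h0 : 0 = α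
    · rw [if_pos h0, if_pos]
      rw [← h0]; unfold wt; simp
    · rw [if_neg h0, ite_self]
  have hIndeg : In.natDegree ≤ d' := by
    rw [Polynomial.natDegree_le_iff_coeff_eq_zero]
    intro k hk
    ext α
    rw [hIncc, Polynomial.coeff_eq_zero_of_natDegree_lt (show P.natDegree < k from hk)]
    simp
  have hInm : In.Monic := Polynomial.monic_of_natDegree_le_of_coeff_eq_one d' hIndeg hInd
  have hIndeg' : In.natDegree = d' := by
    refine le_antisymm hIndeg (Polynomial.le_natDegree_of_ne_zero ?_)
    rw [hInd]; exact one_ne_zero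
  have hIn0 : In.coeff 0 = 0 := by
    ext α
    rw [hIncc]
    by_cases hα : coeff α (P.coeff 0) = 0
    · rw [hα, ite_self, coeff_zero]
    · rw [if_neg, coeff_zero]
      intro hw'
      have h1 := hd1 _ hP0 α (mem_support_iff.2 hα)
      unfold wt at hw'
      simp only [Nat.cast_zero, mul_zero, add_zero] at hw'
      linarith
  have hInk : In.coeff k₀ ≠ 0 := by
    obtain ⟨α, hα, hα'⟩ := hd2 _ hk₀.2
    intro h0
    have h1 := hIncc k₀ α
    rw [h0, coeff_zero, if_pos] at h1
    · exact (mem_support_iff.1 hα) h1.symm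
    · unfold wt
      rw [hα', heq]
      ring
  have hex : ∃ k, In.coeff k ≠ 0 := ⟨k₀, hInk⟩
  set k₁ := Nat.find hex with hk₁
  have hk₁1 : In.coeff k₁ ≠ 0 := Nat.find_spec hex
  have hk₁2 : ∀ j < k₁, In.coeff j = 0 := fun j hj => by
    have := Nat.find_min hex hj
    rwa [not_not] at this
  have hk₁3 : k₁ ≤ k₀ := Nat.find_min' hex hInk
  have hk₁4 : 1 ≤ k₁ := by
    rw [Nat.one_le_iff_ne_zero]
    intro h0
    rw [h0] at hk₁1
    exact hk₁1 hIn0
  obtain ⟨Q₂, hQ₂⟩ := Polynomial.X_pow_dvd_iff.2 hk₁2
  have hXm : (Polynomial.X ^ k₁ : Pl C n).Monic := Polynomial.monic_X_pow k₁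
  have hQ₂m : Q₂.Monic := by
    refine Polynomial.Monic.of_mul_monic_left hXm ?_
    rw [← hQ₂]; exact hInm
  have hdeg : d' = k₁ + Q₂.natDegree := by
    rw [← hIndeg', hQ₂, hXm.natDegree_mul hQ₂m, Polynomial.natDegree_X_pow]
  have hQ₂0 : Q₂.coeff 0 ≠ 0 := by
    intro h0
    apply hk₁1
    rw [hQ₂, show k₁ = 0 + k₁ by omega, Polynomial.coeff_X_pow_mul']
    simp [h0]
  refine ⟨P, R₀, M, Polynomial.X ^ k₁, Q₂, h, hPm, hPi, hM, hXm, hQ₂m, ?_, ?_, ?_, hwt, ?_⟩
  · rw [Polynomial.natDegree_X_pow]; exact hk₁4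
  · have := hk₀.1; omega
  · rw [Polynomial.map_pow, Polynomial.map_X]
    refine IsCoprime.pow_left ?_
    rw [Irreducible.coprime_iff_not_dvd Polynomial.irreducible_X, Polynomial.X_dvd_iff,
      Polynomial.coeff_map]
    intro h0
    exact hQ₂0 ((injective_iff_map_eq_zero _).1 (IsFractionRing.injective _ _) _ h0)
  · intro k α
    rw [← hQ₂, hIncc]

end Pool.Agent.Helper41.RC
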