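import Pool.Agent.Helper41.FatArith

set_option autoImplicit false

open Polynomial

namespace Pool.Agent.Helper41.Fat

variable {K : Type*} [Field K]

/-- The rows of the triangle after the first move. -/
def strip (L d i : ℕ) : ℕ := ∑ s ∈ Finset.range L, (d + 1 - (i * L + s))

theorem good_start [CharZero K] {r m ρ : ℕ} (L d : ℕ) (hL : 0 < L)
    (hg : Good K r m (strip L d) ρ) : Good K r m (fun b => d + 1 - b) ρ := by
  classical
  refine Good.move L (d + 1) (fun i => ?_) hg
  let S : Finset (Σ _ : ℕ, ℕ) := (Finset.range L).sigma (fun s => Finset.range (d + 1 - (i * L + s)))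
  refine ⟨S.image (fun p => i * L + p.1 + L * p.2), ?_, ?_⟩
  · rw [Finset.card_image_of_injOn]
    · rw [Finset.card_sigma]
      simp only [Finset.card_range, strip, le_refl]
    · rintro ⟨a, b⟩ h1 ⟨a', b'⟩ h2 h3
      simp only [S, Finset.coe_sigma, Set.mem_sigma_iff, Finset.coe_range, Set.mem_Iio] at h1 h2 h3
      have h4 : a + L * b = a' + L * b' := by omega
      have h5 : a = a' := by
        have := congrArg (fun t => t % L) h4
        simpa [Nat.add_mul_mod_self_left, Nat.mod_eq_of_lt h1.1, Nat.mod_eq_of_lt h2.1] using this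
      subst h5
      have h6 : L * b = L * b' := by omega
      rw [Nat.eq_of_mul_eq_mul_left hL h6]
  · intro u hu
    rw [Finset.mem_image] at hu
    obtain ⟨⟨s, b⟩, hp, rfl⟩ := hu
    simp only [S, Finset.mem_sigma, Finset.mem_range] at hp
    obtain ⟨hs, hb⟩ := hp
    simp only
    apply lt_card_act_of_Ico b
    intro c hc1 hc2
    obtain ⟨j, rfl⟩ : ∃ j, c = b + j := ⟨c - b, by omega⟩
    have hj : j ≤ i := by omega
    have hjL : j * L ≤ i * L := Nat.mul_le_mul_right L hj
    have hjj : j ≤ j * L := Nat.le_mul_of_pos_right j hL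
    refine ⟨by omega, ?_, ?_⟩
    · rw [mul_add, mul_comm L j]
      omega
    · rw [mul_add, mul_comm L j]
      obtain ⟨e, rfl⟩ : ∃ e, i = j + e := ⟨i - j, by omega⟩
      have he : (j + e) * L = j * L + e * L := add_mul _ _ _
      omega

theorem sum_strip (L d B : ℕ) :
    ∑ i ∈ Finset.range B, strip L d i = ∑ x ∈ Finset.range (B * L), (d + 1 - x) := by
  induction B with
  | zero => simp
  | succ B ih =>
    rw [Finset.sum_range_succ, ih, Nat.succ_mul, Finset.sum_range_add]
    rfl

theorem sum_strip_total (L d B : ℕ) (h : d + 1 ≤ B * L) :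
    ∑ i ∈ Finset.range B, strip L d i = (d + 2).choose 2 := by
  rw [sum_strip, ← Finset.sum_subset (Finset.range_subset_range.2 h), sum_stair]
  intro x _ hx
  rw [Finset.mem_range] at hx
  omega

theorem strip_le (L d m c : ℕ) (hc : c ≤ m) (h : d < m * L) : strip L d c ≤ L ^ 2 * (m - c) := by
  have h1 : strip L d c ≤ ∑ _s ∈ Finset.range L, (m - c) * L := by
    apply Finset.sum_le_sum
    intro s _
    rw [Nat.sub_mul]
    omega
  rw [Finset.sum_const, Finset.card_range, smul_eq_mul] at h1
  calc strip L d c ≤ L * ((m - c) * L) := h1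
    _ = L ^ 2 * (m - c) := by ring

theorem strip_zero (L d c : ℕ) (h : d + 1 ≤ c * L) : strip L d c = 0 := by
  apply Finset.sum_eq_zero
  intro s _
  omega

theorem strip_val (L m D c : ℕ) (hc : c < m) :
    strip L (m * L + D) c = L ^ 2 * (m - c - 1) + (L * (D + 1) + (L + 1).choose 2) := by
  obtain ⟨e, rfl⟩ : ∃ e, m = c + 1 + e := ⟨m - c - 1, by omega⟩
  have h1 : strip L ((c + 1 + e) * L + D) c
      = ∑ s ∈ Finset.range L, ((e * L + (D + 1)) + (L - s)) := by
    apply Finset.sum_congr rfl
    intro s hs
    rw [Finset.mem_range] at hs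
    have : (c + 1 + e) * L = c * L + L + e * L := by ring
    omega
  rw [h1, Finset.sum_add_distrib, sum_stair, Finset.sum_const, Finset.card_range, smul_eq_mul,
    show c + 1 + e - c - 1 = e by omega]
  ring

theorem strip_top (L m D : ℕ) (hD : L ≤ D) :
    L + (L + 1).choose 2 ≤ strip L (m * L + D) m := by
  have h1 : ∑ s ∈ Finset.range L, (1 + (L - s)) ≤ strip L (m * L + D) m := by
    apply Finset.sum_le_sum
    intro s hs
    rw [Finset.mem_range] at hs
    omega
  rw [Finset.sum_add_distrib, sum_stair, Finset.sum_const, Finset.card_range, smul_eq_mul,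
    mul_one] at h1
  exact h1

theorem two_mul_choose (L : ℕ) : 2 * (L + 1).choose 2 = L * (L + 1) := by
  rw [Nat.choose_two_right, Nat.add_sub_cancel]
  rw [Nat.mul_div_cancel' ]
  · ring
  · rw [mul_comm]
    exact (Nat.even_mul_succ_self L).two_dvd

theorem sum_stair_lin (x y m : ℕ) : ∑ c ∈ Finset.range m, (x * (m - c) + y) =
    x * (m + 1).choose 2 + m * y := by
  rw [Finset.sum_add_distrib, ← Finset.mul_sum, sum_stair, Finset.sum_const, Finset.card_range,
    smul_eq_mul]

/-- **Main theorem on germs.** -/
theorem good_main [CharZero K] (L f m d : ℕ) (hL : 0 < L) (h : 2 * f * m ≤ L * (L + 3)) :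
    Good K (L ^ 2 + 2 * f) m (fun b => d + 1 - b)
      (min ((d + 2).choose 2) ((L ^ 2 + 2 * f) * (m + 1).choose 2)) := by
  by_cases hd : d < m * L
  · -- emptiness below `m L`
    apply Good.le (min_le_left _ _)
    apply good_start L d hL
    have h1 := Good.final (K := K) (L ^ 2 + 2 * f) m (strip L d)
    have h2 : ∑ c ∈ Finset.range m, min (strip L d c) ((L ^ 2 + 2 * f) * (m - c))
        = (d + 2).choose 2 := by
      rw [← sum_strip_total L d m hd]
      refine Finset.sum_congr rfl fun c hc => min_eq_left ?_
      rw [Finset.mem_range] at hc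
      exact (strip_le L d m c hc.le hd).trans (Nat.mul_le_mul_right _ (by omega))
    rwa [h2] at h1
  · obtain ⟨D, rfl⟩ : ∃ D, d = m * L + D := ⟨d - m * L, by omega⟩
    have hfm : f * m ≤ L + (L + 1).choose 2 := by
      have := two_mul_choose L
      nlinarith
    have hA : ∀ c < m, strip L (m * L + D) c
        = L ^ 2 * (m - c - 1) + (L * (D + 1) + (L + 1).choose 2) := fun c hc => strip_val L m D c hc
    have hstep : ∀ c < m, L ^ 2 * (m - c) = L ^ 2 * (m - c - 1) + L ^ 2 := by
      intro c hc
      obtain ⟨e, rfl⟩ : ∃ e, m = c + 1 + e := ⟨m - c - 1, by omega⟩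
      rw [show c + 1 + e - c - 1 = e by omega, show c + 1 + e - c = e + 1 by omega]
      ring
    by_cases hcase : L ^ 2 + f * (m + 1) ≤ L * (D + 1) + (L + 1).choose 2
    · -- regular in one move
      apply Good.le (min_le_right _ _)
      apply good_start L _ hL
      obtain ⟨q, hq⟩ := Nat.exists_eq_add_of_le hcase
      apply good_reg (L ^ 2) f m q
      intro c hc
      rw [hA c hc, hstep c hc]
      omega
    · obtain ⟨p, hp⟩ := Nat.exists_eq_add_of_le (not_le.1 hcase).le
      have hpx : p ≤ L ^ 2 + f := by nlinarith
      have hrow : ∀ c < m, strip L (m * L + D) c + p = L ^ 2 * (m - c) + f * (m + 1) := by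
        intro c hc
        rw [hA c hc, hstep c hc]
        omega
      let u : ℕ → ℕ := fun c => if c < m then strip L (m * L + D) c else if c = m then p * m else 0
      have hu1 : ∀ c < m, u c = strip L (m * L + D) c := fun c hc => if_pos hc
      have hu2 : u m = p * m := by simp [u]
      have hu3 : ∀ c, m + 1 ≤ c → u c = 0 := by
        intro c hc
        simp only [u]
        rw [if_neg (by omega), if_neg (by omega)]
      have hgu : Good K (L ^ 2 + 2 * f) m u ((L ^ 2 + 2 * f) * (m + 1).choose 2) :=
        good_mid (L ^ 2) f p m hpx (fun c hc => by rw [hu1 c hc]; exact hrow c hc) hu2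
      by_cases hq : p * m ≤ strip L (m * L + D) m
      · -- regular
        apply Good.le (min_le_right _ _)
        apply good_start L _ hL
        apply hgu.mono
        intro c
        rcases lt_trichotomy c m with hc | hc | hc
        · rw [hu1 c hc]
        · subst hc; rw [hu2]; exact hq
        · rw [hu3 c hc]; exact Nat.zero_le _
      · -- empty
        push Not at hq
        have hDL : D < L := by
          by_contra hcon
          push Not at hcon
          have h1 := strip_top L m D hcon
          have h3 : p * m ≤ L + (L + 1).choose 2 := by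
            have h4 : p + (L + (L + 1).choose 2) ≤ f * (m + 1) := by nlinarith
            nlinarith
          omega
        apply Good.le (min_le_left _ _)
        apply good_start L _ hL
        have htot : ∑ c ∈ Finset.range (m + 1), u c = (L ^ 2 + 2 * f) * (m + 1).choose 2 := by
          rw [Finset.sum_range_succ, hu2]
          have h1 : ∑ c ∈ Finset.range m, u c + m * p
              = ∑ c ∈ Finset.range m, (L ^ 2 * (m - c) + f * (m + 1)) := by
            rw [← smul_eq_mul m p, ← Finset.card_range m, ← Finset.sum_const,
              Finset.card_range, ← Finset.sum_add_distrib]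
            exact Finset.sum_congr rfl fun c hc => by
              rw [Finset.mem_range] at hc
              rw [hu1 c hc]
              exact hrow c hc
          rw [mul_comm p m, h1, sum_stair_lin]
          have h2 := two_mul_choose m
          nlinarith
        rw [← sum_strip_total L (m * L + D) (m + 1) (by rw [Nat.succ_mul]; omega)]
        rw [← htot] at hgu
        apply hgu.shrink (m + 1) (m + 1) hu3
        intro c
        rcases lt_trichotomy c m with hc | hc | hc
        · rw [hu1 c hc]
        · subst hc; rw [hu2]; exact hq.le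
        · rw [strip_zero L _ c (by
            have : (m + 1) * L ≤ c * L := Nat.mul_le_mul_right L hc
            rw [Nat.succ_mul] at this
            omega)]
          exact Nat.zero_le _

end Pool.Agent.Helper41.Fat
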