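import Pool.Agent.Helper41.FatPour

set_option autoImplicit false

open Polynomial

namespace Pool.Agent.Helper41.Fat

variable {K : Type*} [Field K]

/-- Transfer of the expected rank from degree `d + 1` to degree `d` below the critical degree. -/
theorem good_down {r m d : ℕ} (h : (d + 3).choose 2 ≤ r * (m + 1).choose 2)
    (hg : Good K r m (fun b => d + 1 + 1 - b)
      (min ((d + 1 + 2).choose 2) (r * (m + 1).choose 2))) :
    Good K r m (fun b => d + 1 - b) (min ((d + 2).choose 2) (r * (m + 1).choose 2)) := by
  rw [show d + 1 + 2 = d + 3 by rfl, min_eq_left h] at hg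
  have h1 : ∑ b ∈ Finset.range (d + 2), (d + 1 + 1 - b) = (d + 3).choose 2 := sum_stair (d + 2)
  have h2 : ∑ b ∈ Finset.range (d + 1), (d + 1 - b) = (d + 2).choose 2 := sum_stair (d + 1)
  apply Good.le (min_le_left _ _)
  rw [← h1] at hg
  rw [← h2]
  exact hg.shrink (d + 2) (d + 1) (fun c hc => by omega) (fun c => by omega)

/-- The case where the corner above the rows `c < m` consists of one row. -/
theorem good_corner_one [CharZero K] (L f m D : ℕ) (hL : 0 < L) (hDL : D < L)
    (hA : f * m ≤ L * (D + 1) + (L + 1).choose 2) :
    Good K (L ^ 2 + 2 * f) m (fun b => m * L + D + 1 - b)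
      (min ((m * L + D + 2).choose 2) ((L ^ 2 + 2 * f) * (m + 1).choose 2)) := by
  have hA' : ∀ c < m, strip L (m * L + D) c
      = L ^ 2 * (m - c - 1) + (L * (D + 1) + (L + 1).choose 2) := fun c hc => strip_val L m D c hc
  have hstep : ∀ c < m, L ^ 2 * (m - c) = L ^ 2 * (m - c - 1) + L ^ 2 := by
    intro c hc
    obtain ⟨e, rfl⟩ : ∃ e, m = c + 1 + e := ⟨m - c - 1, by omega⟩
    rw [show c + 1 + e - c - 1 = e by omega, show c + 1 + e - c = e + 1 by omega]
    ring
  by_cases hcase : L ^ 2 + f * (m + 1) ≤ L * (D + 1) + (L + 1).choose 2
  · -- regular in one move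
    apply Good.le (min_le_right _ _)
    apply good_start L _ hL
    obtain ⟨q, hq⟩ := Nat.exists_eq_add_of_le hcase
    apply good_reg (L ^ 2) f m q
    intro c hc
    rw [hA' c hc, hstep c hc]
    omega
  · obtain ⟨p, hp⟩ := Nat.exists_eq_add_of_le (not_le.1 hcase).le
    have hpx : p ≤ L ^ 2 + f := by nlinarith
    have hrow : ∀ c < m, strip L (m * L + D) c + p = L ^ 2 * (m - c) + f * (m + 1) := by
      intro c hc
      rw [hA' c hc, hstep c hc]
      omega
    let u : ℕ → ℕ := fun c => if c < m then strip L (m * L + D) c else if c = m then p * m else 0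
    have hu1 : ∀ c < m, u c = strip L (m * L + D) c := fun c hc => if_pos hc
    have hu2 : u m = p * m := by simp [u]
    have hu3 : ∀ c, m + 1 ≤ c → u c = 0 := by
      intro c hc
      simp only [u]
      rw [if_neg (by omega), if_neg (by omega)]
    have hgu : Good K (L ^ 2 + 2 * f) m u ((L ^ 2 + 2 * f) * (m + 1).choose 2) :=
      good_mid (L ^ 2) f p m hpx (fun c hc => by rw [hu1 c hc]; exact hrow c hc) hu2
    by_cases hq : p * m ≤ strip L (m * L + D) m
    · -- regular
      apply Good.le (min_le_right _ _)
      apply good_start L _ hL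
      apply hgu.mono
      intro c
      rcases lt_trichotomy c m with hc | hc | hc
      · rw [hu1 c hc]
      · subst hc; rw [hu2]; exact hq
      · rw [hu3 c hc]; exact Nat.zero_le _
    · -- empty
      push Not at hq
      apply Good.le (min_le_left _ _)
      apply good_start L _ hL
      have htot : ∑ c ∈ Finset.range (m + 1), u c = (L ^ 2 + 2 * f) * (m + 1).choose 2 := by
        rw [Finset.sum_range_succ, hu2]
        have h1 : ∑ c ∈ Finset.range m, u c + m * p
            = ∑ c ∈ Finset.range m, (L ^ 2 * (m - c) + f * (m + 1)) := by
          rw [← smul_eq_mul m p, ← Finset.card_range m, ← Finset.sum_const,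
            Finset.card_range, ← Finset.sum_add_distrib]
          exact Finset.sum_congr rfl fun c hc => by
            rw [Finset.mem_range] at hc
            rw [hu1 c hc]
            exact hrow c hc
        rw [mul_comm p m, h1, sum_stair_lin]
        have h2 := two_mul_choose m
        nlinarith
      rw [← sum_strip_total L (m * L + D) (m + 1) (by rw [Nat.succ_mul]; omega)]
      rw [← htot] at hgu
      apply hgu.shrink (m + 1) (m + 1) hu3
      intro c
      rcases lt_trichotomy c m with hc | hc | hc
      · rw [hu1 c hc]
      · subst hc; rw [hu2]; exact hq.le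
      · rw [strip_zero L _ c (by
          have : (m + 1) * L ≤ c * L := Nat.mul_le_mul_right L hc
          rw [Nat.succ_mul] at this
          omega)]
        exact Nat.zero_le _

/-- Rows after the first pour of a corner of two rows with `q` cells in the second one;
here `a = f m - g` and `w = x - f m`. -/
def pourRows (x a w q m c : ℕ) : ℕ :=
  if c < m then x * (m - c) + a else if c = m then a + min q w else if c = m + 1 then q - min q w
  else 0

theorem good_pourRows [CharZero K] (x f g a w m : ℕ) (ha : a + g = f * m) (hw : w + f * m = x) :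
    Good K (x + 2 * f) m (pourRows x a w (g * (m + 1)) m)
      ((x + 2 * f) * (m + 1).choose 2) := by
  have h1 : ∀ c < m, pourRows x a w (g * (m + 1)) m c = x * (m - c) + a := by
    intro c hc
    simp only [pourRows]
    rw [if_pos hc]
  have h2 : pourRows x a w (g * (m + 1)) m m = a + min (g * (m + 1)) w := by
    simp [pourRows]
  have h3 : pourRows x a w (g * (m + 1)) m (m + 1) = g * (m + 1) - min (g * (m + 1)) w := by
    simp [pourRows]
  by_cases hgw : g * (m + 1) ≤ w
  · rw [min_eq_left hgw] at h2 h3
    apply good_mid x f (f + g) m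
    · nlinarith
    · intro c hc
      rw [h1 c hc]
      nlinarith
    · rw [h2]
      nlinarith
  · push Not at hgw
    rw [min_eq_right hgw.le] at h2 h3
    apply good_pour x f g m
    · omega
    · omega
    · intro c hc
      rw [h1 c hc]
      omega
    · rw [h2]
      omega
    · rw [h3]
      omega

theorem pourRows_mono (x a w m : ℕ) {q q' : ℕ} (h : q ≤ q') (c : ℕ) :
    pourRows x a w q m c ≤ pourRows x a w q' m c := by
  simp only [pourRows]
  split_ifs <;> omega

theorem sum_pourRows (x a w q m : ℕ) :
    ∑ c ∈ Finset.range (m + 2), pourRows x a w q m c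
      = x * (m + 1).choose 2 + m * a + (a + q) := by
  rw [Finset.sum_range_succ, Finset.sum_range_succ]
  have h1 : ∑ c ∈ Finset.range m, pourRows x a w q m c
      = ∑ c ∈ Finset.range m, (x * (m - c) + a) := by
    refine Finset.sum_congr rfl fun c hc => ?_
    rw [Finset.mem_range] at hc
    simp only [pourRows]
    rw [if_pos hc]
  have h2 : pourRows x a w q m m = a + min q w := by simp [pourRows]
  have h3 : pourRows x a w q m (m + 1) = q - min q w := by simp [pourRows]
  rw [h1, h2, h3, sum_stair_lin]
  omega

/-- The first pour. -/
theorem good_first_pour [CharZero K] {r ρ : ℕ} (x a w q m : ℕ) {n : ℕ → ℕ}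
    (haw : a + w ≤ x) (hqa : q ≤ a + w)
    (h : ∀ c ≤ m, n c = x * (m - c) + a) (h1 : n (m + 1) = q)
    (hg : Good K r m (pourRows x a w q m) ρ) : Good K r m n ρ := by
  have h3 : ∀ c < m, pourRows x a w q m c = x * (m - c) + a := by
    intro c hc
    simp only [pourRows]
    rw [if_pos hc]
  have h4 : pourRows x a w q m m = a + min q w := by
    simp [pourRows]
  have h5 : pourRows x a w q m (m + 1) = q - min q w := by
    simp [pourRows]
  have h6 : ∀ c, m + 1 < c → pourRows x a w q m c = 0 := by
    intro c hc
    simp only [pourRows]
    rw [if_neg (by omega), if_neg (by omega), if_neg (by omega)]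
  by_cases hqw : q ≤ w
  · rw [min_eq_left hqw] at h4 h5
    apply good_merge x a q m (by omega) h h1 h3 h4 _ hg
    intro c hc
    by_cases hc1 : c = m + 1
    · subst hc1; rw [h5]; omega
    · exact h6 c (by omega)
  · push Not at hqw
    rw [min_eq_right hqw.le] at h4 h5
    apply good_merge_part x (a + w - q) w q m hqw.le (by omega) _ h1 _ _ _ h6 hg
    · intro c hc
      rw [h c hc]
      omega
    · intro c hc
      rw [h3 c hc]
      omega
    · rw [h4]
      omega
    · rw [h5]
      omega

/-- The case where the corner above the rows `c < m` has at least one full row. -/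
theorem good_corner_two [CharZero K] (L f m D : ℕ) (hL : 0 < L) (hfm : f * m ≤ L ^ 2) :
    Good K (L ^ 2 + 2 * f) m (fun b => m * L + (L + D) + 1 - b)
      (min ((m * L + (L + D) + 2).choose 2) ((L ^ 2 + 2 * f) * (m + 1).choose 2)) := by
  have hd : m * L + (L + D) = (m + 1) * L + D := by ring
  rw [hd]
  obtain ⟨a, ha⟩ : ∃ a, L * (D + 1) + (L + 1).choose 2 = a := ⟨_, rfl⟩
  have hrow : ∀ c ≤ m, strip L ((m + 1) * L + D) c = L ^ 2 * (m - c) + a := by
    intro c hc
    rw [strip_val L (m + 1) D c (by omega), ha, show m + 1 - c - 1 = m - c by omega]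
  by_cases hreg : f * m ≤ a
  · -- regular
    apply Good.le (min_le_right _ _)
    apply good_start L _ hL
    by_cases hbig : f * (m + 1) ≤ a
    · obtain ⟨q, rfl⟩ := Nat.exists_eq_add_of_le hbig
      apply good_reg (L ^ 2) f m q
      intro c hc
      rw [hrow c hc.le]
      omega
    · obtain ⟨p, hp⟩ := Nat.exists_eq_add_of_le (not_le.1 hbig).le
      have hpf : p ≤ f := by nlinarith
      let u : ℕ → ℕ := fun c => if c < m then L ^ 2 * (m - c) + a else if c = m then p * m else 0
      have hu1 : ∀ c < m, u c = L ^ 2 * (m - c) + a := fun c hc => if_pos hc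
      have hu2 : u m = p * m := by simp [u]
      have hgu : Good K (L ^ 2 + 2 * f) m u ((L ^ 2 + 2 * f) * (m + 1).choose 2) := by
        apply good_mid (L ^ 2) f p m (by omega) _ hu2
        intro c hc
        rw [hu1 c hc]
        omega
      apply hgu.mono
      intro c
      rcases lt_trichotomy c m with hc | hc | hc
      · rw [hu1 c hc, hrow c hc.le]
      · subst hc
        rw [hu2, hrow c le_rfl]
        nlinarith
      · simp only [u]
        rw [if_neg (by omega), if_neg (by omega)]
        exact Nat.zero_le _
  · push Not at hreg
    obtain ⟨g, hg⟩ := Nat.exists_eq_add_of_le hreg.le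
    obtain ⟨w, hw⟩ := Nat.exists_eq_add_of_le hfm
    have h2L := two_mul_choose L
    have hDL : D + 1 < L := by
      by_contra hcon
      push Not at hcon
      nlinarith
    -- the last row
    obtain ⟨q₀, hq₀⟩ : ∃ q₀, strip L ((m + 1) * L + D) (m + 1) = q₀ := ⟨_, rfl⟩
    have hq₀a : q₀ ≤ a := by
      rw [← hq₀, ← ha]
      have h1 : strip L ((m + 1) * L + D) (m + 1) ≤ ∑ _s ∈ Finset.range L, (D + 1) := by
        apply Finset.sum_le_sum
        intro s _
        omega
      rw [Finset.sum_const, Finset.card_range, smul_eq_mul] at h1
      omega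
    have hlast : ∀ c, m + 1 < c → strip L ((m + 1) * L + D) c = 0 := by
      intro c hc
      apply strip_zero
      have : (m + 2) * L ≤ c * L := Nat.mul_le_mul_right L hc
      have h3 : (m + 2) * L = (m + 1) * L + L := by ring
      omega
    have hP : Good K (L ^ 2 + 2 * f) m (pourRows (L ^ 2) a w (g * (m + 1)) m)
        ((L ^ 2 + 2 * f) * (m + 1).choose 2) :=
      good_pourRows (L ^ 2) f g a w m (by omega) (by omega)
    by_cases hq : g * (m + 1) ≤ q₀
    · -- regular
      apply Good.le (min_le_right _ _)
      apply good_start L _ hL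
      let u : ℕ → ℕ := fun c => if c ≤ m then L ^ 2 * (m - c) + a
        else if c = m + 1 then g * (m + 1) else 0
      have hu1 : ∀ c ≤ m, u c = L ^ 2 * (m - c) + a := fun c hc => if_pos hc
      have hu2 : u (m + 1) = g * (m + 1) := by simp [u]
      have hgu : Good K (L ^ 2 + 2 * f) m u ((L ^ 2 + 2 * f) * (m + 1).choose 2) :=
        good_first_pour (L ^ 2) a w (g * (m + 1)) m (by omega) (by omega) hu1 hu2 hP
      apply hgu.mono
      intro c
      rcases lt_trichotomy c (m + 1) with hc | hc | hc
      · rw [hu1 c (by omega), hrow c (by omega)]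
      · subst hc
        rw [hu2, hq₀]
        exact hq
      · simp only [u]
        rw [if_neg (by omega), if_neg (by omega)]
        exact Nat.zero_le _
    · -- empty
      push Not at hq
      apply Good.le (min_le_left _ _)
      apply good_start L _ hL
      have htot : ∑ c ∈ Finset.range (m + 2), pourRows (L ^ 2) a w (g * (m + 1)) m c
          = (L ^ 2 + 2 * f) * (m + 1).choose 2 := by
        rw [sum_pourRows]
        have h2 := two_mul_choose m
        nlinarith
      have htot' : ∑ c ∈ Finset.range (m + 2), pourRows (L ^ 2) a w q₀ m c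
          = ((m + 1) * L + D + 2).choose 2 := by
        rw [sum_pourRows, ← sum_strip_total L ((m + 1) * L + D) (m + 2) (by
          have h3 : (m + 2) * L = (m + 1) * L + L := by ring
          omega), Finset.sum_range_succ, Finset.sum_range_succ, hq₀, hrow m le_rfl]
        have h1 : ∑ c ∈ Finset.range m, strip L ((m + 1) * L + D) c
            = ∑ c ∈ Finset.range m, (L ^ 2 * (m - c) + a) := by
          refine Finset.sum_congr rfl fun c hc => ?_
          rw [Finset.mem_range] at hc
          exact hrow c hc.le
        rw [h1, sum_stair_lin]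
        simp only [Nat.sub_self, mul_zero, zero_add]
        omega
      apply good_first_pour (L ^ 2) a w q₀ m (by omega) (by omega) hrow hq₀
      rw [← htot']
      rw [← htot] at hP
      apply hP.shrink (m + 2) (m + 2)
      · intro c hc
        simp only [pourRows]
        rw [if_neg (by omega), if_neg (by omega), if_neg (by omega)]
      · intro c
        exact pourRows_mono _ _ _ _ hq.le c

/-- **Main theorem on germs**, full region. -/
theorem good_main_two [CharZero K] (L f m d : ℕ) (hL : 0 < L) (hfm : f * m ≤ L ^ 2) :
    Good K (L ^ 2 + 2 * f) m (fun b => d + 1 - b)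
      (min ((d + 2).choose 2) ((L ^ 2 + 2 * f) * (m + 1).choose 2)) := by
  by_cases hd : d < m * L
  · -- emptiness below `m L`
    apply Good.le (min_le_left _ _)
    apply good_start L d hL
    have h1 := Good.final (K := K) (L ^ 2 + 2 * f) m (strip L d)
    have h2 : ∑ c ∈ Finset.range m, min (strip L d c) ((L ^ 2 + 2 * f) * (m - c))
        = (d + 2).choose 2 := by
      rw [← sum_strip_total L d m hd]
      refine Finset.sum_congr rfl fun c hc => min_eq_left ?_
      rw [Finset.mem_range] at hc
      exact (strip_le L d m c hc.le hd).trans (Nat.mul_le_mul_right _ (by omega))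
    rwa [h2] at h1
  · obtain ⟨D, rfl⟩ : ∃ D, d = m * L + D := ⟨d - m * L, by omega⟩
    clear hd
    by_cases hDL : D < L
    · -- descending induction
      have h2L := two_mul_choose L
      have key : ∀ k D : ℕ, D < L → L ≤ D + 1 + k →
          Good K (L ^ 2 + 2 * f) m (fun b => m * L + D + 1 - b)
            (min ((m * L + D + 2).choose 2) ((L ^ 2 + 2 * f) * (m + 1).choose 2)) := by
        intro k
        induction k with
        | zero =>
          intro D hD hk
          apply good_corner_one L f m D hL hD
          obtain rfl : L = D + 1 := by omega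
          nlinarith
        | succ k ih =>
          intro D hD hk
          by_cases hA : f * m ≤ L * (D + 1) + (L + 1).choose 2
          · exact good_corner_one L f m D hL hD hA
          · push Not at hA
            have hD1 : D + 1 < L := by
              by_contra hcon
              push Not at hcon
              nlinarith
            have hm : 1 ≤ m := by
              rcases Nat.eq_zero_or_pos m with h0 | h0
              · subst h0
                simp at hA
              · exact h0
            apply good_down _ (ih (D + 1) hD1 (by omega))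
            -- the degree `d + 1` is still at most critical
            have e1 := two_mul_choose (m * L + D + 2)
            have e2 := two_mul_choose m
            obtain ⟨M, hM⟩ : ∃ M, (m * L + D + 2 + 1).choose 2 = M := ⟨_, rfl⟩
            obtain ⟨M', hM'⟩ : ∃ M', (m + 1).choose 2 = M' := ⟨_, rfl⟩
            rw [hM] at e1
            show (m * L + D + 2 + 1).choose 2 ≤ (L ^ 2 + 2 * f) * (m + 1).choose 2
            rw [hM]
            rw [hM'] at e2 ⊢
            -- `2 L (D+1) + L (L+1) < 2 f m ≤ 2 L^2`
            have hA2 : 2 * (L * (D + 1)) + L * (L + 1) < 2 * (f * m) := by omega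
            have hDs : 2 * (D + 1) + (L + 1) < 2 * L := by
              by_contra hcon
              push Not at hcon
              nlinarith
            have hmM : m * (2 * (L * (D + 1)) + L * (L + 1) + 1) ≤ m * (2 * (f * m)) :=
              Nat.mul_le_mul_left m hA2
            have h5 : (D + 2) * (D + 3) ≤ 2 * (f * m) := by nlinarith
            have h6 : m * L ≤ m * L ^ 2 := Nat.mul_le_mul_left m (by nlinarith)
            nlinarith
      exact key L D hDL (by omega)
    · obtain ⟨D', rfl⟩ : ∃ D', D = L + D' := ⟨D - L, by omega⟩
      exact good_corner_two L f m D' hL hfm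

end Pool.Agent.Helper41.Fat
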