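import Pool.Agent.Helper41.FatFinal

set_option autoImplicit false

open Polynomial

namespace Pool.Agent.Helper41.Fat

variable {K : Type*} [Field K]

/-! ### Convenient forms of the move lemma -/

theorem lt_card_act_of_range {lam B : ℕ} {n : ℕ → ℕ} {u i : ℕ}
    (h : ∀ c ≤ i, c < B ∧ lam * c ≤ u ∧ u < lam * c + n c) : i < (act lam B n u).card := by
  have hsub : Finset.range (i + 1) ⊆ act lam B n u := by
    intro c hc
    rw [Finset.mem_range] at hc
    exact mem_act.2 (h c (by omega))
  have := Finset.card_le_card hsub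
  rw [Finset.card_range] at this
  omega

theorem lt_card_act_of_Ico {lam B : ℕ} {n : ℕ → ℕ} {u i : ℕ} (j : ℕ)
    (h : ∀ c, j ≤ c → c < j + i + 1 → c < B ∧ lam * c ≤ u ∧ u < lam * c + n c) :
    i < (act lam B n u).card := by
  have hsub : Finset.Ico j (j + i + 1) ⊆ act lam B n u := by
    intro c hc
    rw [Finset.mem_Ico] at hc
    exact mem_act.2 (h c hc.1 hc.2)
  have := Finset.card_le_card hsub
  rw [Nat.card_Ico] at this
  omega

theorem lt_card_act_of_insert {lam B : ℕ} {n : ℕ → ℕ} {u i : ℕ} (j : ℕ) (hij : i ≤ j)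
    (h : ∀ c < i, c < B ∧ lam * c ≤ u ∧ u < lam * c + n c)
    (hj : j < B ∧ lam * j ≤ u ∧ u < lam * j + n j) :
    i < (act lam B n u).card := by
  classical
  have hsub : insert j (Finset.range i) ⊆ act lam B n u := by
    intro c hc
    rw [Finset.mem_insert, Finset.mem_range] at hc
    rcases hc with rfl | hc
    · exact mem_act.2 hj
    · exact mem_act.2 (h c hc)
  have := Finset.card_le_card hsub
  rw [Finset.card_insert_of_notMem (by rw [Finset.mem_range]; omega), Finset.card_range] at this
  omega

theorem Good.moveIco [CharZero K] {r m : ℕ} {n n' : ℕ → ℕ} {ρ : ℕ} (lam B : ℕ) (lo : ℕ → ℕ)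
    (h : ∀ i u, lo i ≤ u → u < lo i + n' i → i < (act lam B n u).card)
    (hg : Good K r m n' ρ) : Good K r m n ρ := by
  apply Good.move lam B (fun i => ⟨Finset.Ico (lo i) (lo i + n' i), ?_, ?_⟩) hg
  · rw [Nat.card_Ico]; omega
  · intro u hu
    rw [Finset.mem_Ico] at hu
    exact h i u hu.1 hu.2

theorem Good.le {r m : ℕ} {n : ℕ → ℕ} {ρ ρ' : ℕ} (h : ρ' ≤ ρ) (hg : Good K r m n ρ) :
    Good K r m n ρ' := by
  obtain ⟨η, w, hw, hl⟩ := hg
  exact ⟨η, fun i => w (Fin.castLE h i), fun i => hw _, hl.comp _ (Fin.castLE_injective h)⟩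

/-! ### Sums -/

theorem sum_stair (m : ℕ) : ∑ c ∈ Finset.range m, (m - c) = (m + 1).choose 2 := by
  induction m with
  | zero => simp
  | succ m ih =>
    rw [Finset.sum_range_succ']
    simp only [Nat.sub_zero, Nat.add_sub_add_right]
    rw [ih, Nat.choose_succ_succ' (m + 1) 1]
    simp
    omega

/-- Exact final position. -/
theorem good_exact (r m : ℕ) {n : ℕ → ℕ} (h : ∀ c < m, r * (m - c) ≤ n c) :
    Good K r m n (r * (m + 1).choose 2) := by
  have h1 := Good.final (K := K) r m n
  have h2 : ∑ c ∈ Finset.range m, min (n c) (r * (m - c)) = r * (m + 1).choose 2 := by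
    rw [← sum_stair, Finset.mul_sum]
    exact Finset.sum_congr rfl fun c hc => min_eq_right (h c (Finset.mem_range.1 hc))
  rwa [h2] at h1

/-! ### The last moves -/

/-- The last move: slope `r - 2g`, last row `g m`. Here `s = r - 2 g`. -/
theorem good_last [CharZero K] (s g m : ℕ) {n : ℕ → ℕ}
    (h : ∀ c ≤ m, n c = s * (m - c) + g * m) :
    Good K (s + 2 * g) m n ((s + 2 * g) * (m + 1).choose 2) := by
  apply Good.moveIco (n' := fun i => (s + 2 * g) * (m - i)) (s + g) (m + 1)
    (fun i => (s + g) * i)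
  · intro i u h1 h2
    by_cases hi : i < m
    swap
    · rw [Nat.sub_eq_zero_of_le (by omega)] at h2
      omega
    obtain ⟨e, rfl⟩ : ∃ e, m = i + e := ⟨m - i, by omega⟩
    rw [Nat.add_sub_cancel_left] at h2
    by_cases hu : u < s * (i + e) + g * (i + e)
    · apply lt_card_act_of_range
      intro c hc
      have h3 := h c (by omega)
      obtain ⟨a, rfl⟩ : ∃ a, i = c + a := ⟨i - c, by omega⟩
      rw [show c + a + e - c = a + e by omega] at h3
      refine ⟨by omega, by nlinarith, ?_⟩
      rw [h3]
      nlinarith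
    · push Not at hu
      apply lt_card_act_of_Ico e
      intro c hc1 hc2
      have h3 := h c (by omega)
      obtain ⟨a, rfl⟩ : ∃ a, c = e + a := ⟨c - e, by omega⟩
      obtain ⟨b, rfl⟩ : ∃ b, i = a + b := ⟨i - a, by omega⟩
      rw [show a + b + e - (e + a) = b by omega] at h3
      refine ⟨by omega, by nlinarith, ?_⟩
      rw [h3]
      nlinarith
  · apply good_exact
    intro c _
    exact le_rfl

/-- The regular one-step case. -/
theorem good_reg [CharZero K] (x f m q : ℕ) {n : ℕ → ℕ}
    (h : ∀ c < m, n c = x * (m - c) + f * (m + 1) + q) :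
    Good K (x + 2 * f) m n ((x + 2 * f) * (m + 1).choose 2) := by
  apply Good.moveIco (n' := fun i => (x + 2 * f) * (m - i) + if i < m then q else 0) (x + f) m
    (fun i => (x + f) * i)
  · intro i u h1 h2
    by_cases hi : i < m
    swap
    · rw [Nat.sub_eq_zero_of_le (by omega), if_neg hi] at h2
      omega
    rw [if_pos hi] at h2
    obtain ⟨e, rfl⟩ : ∃ e, m = i + 1 + e := ⟨m - i - 1, by omega⟩
    rw [show i + 1 + e - i = 1 + e by omega] at h2
    by_cases hu : u < x * (i + 1 + e) + f * (i + 1 + e + 1) + q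
    · apply lt_card_act_of_range
      intro c hc
      have h3 := h c (by omega)
      obtain ⟨a, rfl⟩ : ∃ a, i = c + a := ⟨i - c, by omega⟩
      rw [show c + a + 1 + e - c = a + 1 + e by omega] at h3
      refine ⟨by omega, by nlinarith, ?_⟩
      rw [h3]
      nlinarith
    · push Not at hu
      apply lt_card_act_of_Ico e
      intro c hc1 hc2
      have h3 := h c (by omega)
      obtain ⟨a, rfl⟩ : ∃ a, c = e + a := ⟨c - e, by omega⟩
      obtain ⟨b, rfl⟩ : ∃ b, i = a + b := ⟨i - a, by omega⟩
      rw [show a + b + 1 + e - (e + a) = b + 1 by omega] at h3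
      refine ⟨by omega, by nlinarith, ?_⟩
      rw [h3]
      nlinarith
  · apply good_exact
    intro c _
    exact Nat.le_add_right _ _

/-- The middle move, first case. -/
theorem good_mid_one [CharZero K] (x e p m : ℕ) {n : ℕ → ℕ}
    (h : ∀ c < m, n c = x * (m - c) + p * m + e * (m + 1)) (hm : n m = p * m) :
    Good K ((x + 2 * e) + 2 * p) m n (((x + 2 * e) + 2 * p) * (m + 1).choose 2) := by
  apply Good.moveIco (n' := fun i => if i ≤ m then (x + 2 * e) * (m - i) + p * m else 0) (x + e)
    (m + 1) (fun i => (x + e) * i)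
  · intro i u h1 h2
    by_cases hi : i ≤ m
    swap
    · rw [if_neg hi] at h2
      omega
    rw [if_pos hi] at h2
    obtain ⟨b, rfl⟩ : ∃ b, m = i + b := ⟨m - i, by omega⟩
    rw [Nat.add_sub_cancel_left] at h2
    by_cases hu : u < (x + e) * (i + b) + p * (i + b)
    · apply lt_card_act_of_range
      intro c hc
      by_cases hcm : c = i + b
      · subst hcm
        have hb : b = 0 := by omega
        subst hb
        refine ⟨by omega, by simpa using h1, ?_⟩
        rw [hm]
        nlinarith
      · have h3 := h c (by omega)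
        obtain ⟨a, rfl⟩ : ∃ a, i = c + a := ⟨i - c, by omega⟩
        rw [show c + a + b - c = a + b by omega] at h3
        refine ⟨by omega, by nlinarith, ?_⟩
        rw [h3]
        nlinarith
    · push Not at hu
      have hb : b ≠ 0 := by
        rintro rfl
        simp only [mul_zero, zero_add, add_zero] at h2 hu
        omega
      obtain ⟨b', rfl⟩ : ∃ b', b = b' + 1 := ⟨b - 1, by omega⟩
      apply lt_card_act_of_Ico b'
      intro c hc1 hc2
      have h3 := h c (by omega)
      obtain ⟨a, rfl⟩ : ∃ a, c = b' + a := ⟨c - b', by omega⟩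
      obtain ⟨k, rfl⟩ : ∃ k, i = a + k := ⟨i - a, by omega⟩
      rw [show a + k + (b' + 1) - (b' + a) = k + 1 by omega] at h3
      refine ⟨by omega, by nlinarith, ?_⟩
      rw [h3]
      nlinarith
  · apply good_last (x + 2 * e) p m
    intro c hc
    rw [if_pos hc]

/-- The middle move, second case. -/
theorem good_mid_two [CharZero K] (lam e f m : ℕ) {n : ℕ → ℕ}
    (h : ∀ c < m, n c = lam * (m - c) + e * (m - c - 1) + f * m) (hm : n m = (f + e) * m) :
    Good K ((lam + e) + 2 * f) m n (((lam + e) + 2 * f) * (m + 1).choose 2) := by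
  apply Good.moveIco (n' := fun i => if i ≤ m then (lam + e) * (m - i) + f * m else 0) lam
    (m + 1) (fun i => lam * i)
  · intro i u h1 h2
    by_cases hi : i ≤ m
    swap
    · rw [if_neg hi] at h2
      omega
    rw [if_pos hi] at h2
    obtain ⟨b, rfl⟩ : ∃ b, m = i + b := ⟨m - i, by omega⟩
    rw [Nat.add_sub_cancel_left] at h2
    by_cases hu : b ≠ 0 ∧ u + e < (lam + e) * b + lam * i + f * (i + b)
    · apply lt_card_act_of_range
      intro c hc
      have h3 := h c (by omega)
      obtain ⟨a, rfl⟩ : ∃ a, i = c + a := ⟨i - c, by omega⟩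
      obtain ⟨b', rfl⟩ : ∃ b', b = b' + 1 := ⟨b - 1, by omega⟩
      rw [show c + a + (b' + 1) - c - 1 = a + b' by omega,
        show c + a + (b' + 1) - c = a + b' + 1 by omega] at h3
      refine ⟨by omega, by nlinarith, ?_⟩
      rw [h3]
      nlinarith
    · apply lt_card_act_of_insert (i + b) (by omega)
      · intro c hc
        have h3 := h c (by omega)
        obtain ⟨a, rfl⟩ : ∃ a, i = c + 1 + a := ⟨i - (c + 1), by omega⟩
        rw [show c + 1 + a + b - c - 1 = a + b by omega,
          show c + 1 + a + b - c = a + b + 1 by omega] at h3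
        refine ⟨by omega, by nlinarith, ?_⟩
        rw [h3]
        nlinarith
      · refine ⟨by omega, ?_, ?_⟩
        · by_cases hb : b = 0
          · subst hb; simpa using h1
          · have hu' : (lam + e) * b + lam * i + f * (i + b) ≤ u + e := by
              by_contra hcon
              exact hu ⟨hb, by omega⟩
            obtain ⟨b', rfl⟩ : ∃ b', b = b' + 1 := ⟨b - 1, by omega⟩
            nlinarith [Nat.zero_le (e * b'), Nat.zero_le (f * (i + (b' + 1)))]
        · rw [hm]
          nlinarith [Nat.zero_le (e * i)]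
  · apply good_last (lam + e) f m
    intro c hc
    rw [if_pos hc]

/-- The middle move. -/
theorem good_mid [CharZero K] (x f p m : ℕ) {n : ℕ → ℕ} (hp : p ≤ x + f)
    (h : ∀ c < m, n c + p = x * (m - c) + f * (m + 1)) (hm : n m = p * m) :
    Good K (x + 2 * f) m n ((x + 2 * f) * (m + 1).choose 2) := by
  by_cases hpf : p ≤ f
  · obtain ⟨e, rfl⟩ : ∃ e, f = p + e := ⟨f - p, by omega⟩
    have h1 := good_mid_one (K := K) x e p m (n := n) (fun c hc => by
      have := h c hc
      nlinarith) hm
    have h2 : x + 2 * e + 2 * p = x + 2 * (p + e) := by ring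
    rwa [h2] at h1
  · push Not at hpf
    obtain ⟨e, rfl⟩ : ∃ e, p = f + e := ⟨p - f, by omega⟩
    obtain ⟨lam, rfl⟩ : ∃ lam, x = lam + e := ⟨x - e, by omega⟩
    apply good_mid_two lam e f m _ hm
    intro c hc
    have := h c hc
    obtain ⟨a, ha⟩ : ∃ a, m - c = a + 1 := ⟨m - c - 1, by omega⟩
    rw [ha] at this ⊢
    rw [Nat.add_sub_cancel]
    nlinarith

end Pool.Agent.Helper41.Fat
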