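import Mathlib

set_option autoImplicit false

open Polynomial

namespace Pool.Agent.Helper41.Fat

variable {K : Type*} [Field K]

/-! ### A semicontinuity lemma -/

/-- A linearly independent family has a left inverse on coordinates. -/
theorem exists_coord {Q : Type*} [AddCommGroup Q] [Module K Q] {ρ : ℕ} {v : Fin ρ → Q}
    (hv : LinearIndependent K v) :
    ∃ φ : Q →ₗ[K] (Fin ρ → K), ∀ i, φ (v i) = Pi.single i 1 := by
  have hinj : LinearMap.ker (Fintype.linearCombination K v) = ⊥ := by
    rw [LinearMap.ker_eq_bot]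
    exact hv.fintypeLinearCombination_injective
  obtain ⟨g, hg⟩ := LinearMap.exists_leftInverse_of_injective _ hinj
  refine ⟨g, fun i => ?_⟩
  have h1 : Fintype.linearCombination K v (Pi.single i 1) = v i := by
    rw [Fintype.linearCombination_apply_single]; simp
  have h2 := congrArg (fun f => f (Pi.single i 1)) hg
  simpa [h1] using h2

/-- If a square matrix of functionals evaluated on a family is invertible then the family is
linearly independent. -/
theorem linearIndependent_of_det {Q : Type*} [AddCommGroup Q] [Module K Q] {ρ : ℕ}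
    (v : Fin ρ → Q) (φ : Q →ₗ[K] (Fin ρ → K))
    (h : (Matrix.of fun i j => φ (v j) i).det ≠ 0) : LinearIndependent K v := by
  rw [Fintype.linearIndependent_iff]
  intro g hg i
  have h1 : (Matrix.of fun i j => φ (v j) i).mulVec g = 0 := by
    funext a
    have h2 := congrArg (fun q => φ q a) hg
    simp only [map_sum, map_smul, map_zero, Finset.sum_apply, Pi.smul_apply, smul_eq_mul,
      Pi.zero_apply] at h2
    simp only [Matrix.mulVec, dotProduct, Matrix.of_apply, Pi.zero_apply]
    rw [← h2]
    exact Finset.sum_congr rfl fun j _ => mul_comm _ _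
  have h3 := Matrix.eq_zero_of_mulVec_eq_zero h h1
  exact congrFun h3 i

theorem exists_specialization [Infinite K] {R : Type*} [CommRing R] [Algebra K R]
    {Q : Type*} [AddCommGroup Q] [Module K Q] (Φ : R →ₗ[K] Q) {ρ : ℕ} (w : Fin ρ → R[X])
    (hw : LinearIndependent K (fun i => Φ ((w i).coeff 0))) :
    ∃ t : K, t ≠ 0 ∧ LinearIndependent K (fun i => Φ ((w i).eval (algebraMap K R t))) := by
  classical
  obtain ⟨φ, hφ⟩ := exists_coord hw
  let A : Matrix (Fin ρ) (Fin ρ) K[X] := Matrix.of fun i j =>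
    ∑ k ∈ (w j).support, monomial k (φ (Φ ((w j).coeff k)) i)
  have hev : ∀ t : K, ∀ i j, (A i j).eval t = φ (Φ ((w j).eval (algebraMap K R t))) i := by
    intro t i j
    have h1 : (w j).eval (algebraMap K R t)
        = ∑ k ∈ (w j).support, (t ^ k) • ((w j).coeff k) := by
      rw [Polynomial.eval_eq_sum, Polynomial.sum_def]
      refine Finset.sum_congr rfl fun k _ => ?_
      rw [← map_pow, mul_comm, Algebra.smul_def]
    rw [h1]
    simp only [A, Matrix.of_apply, eval_finsetSum, eval_monomial, map_sum, map_smul,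
      Finset.sum_apply, Pi.smul_apply, smul_eq_mul]
    exact Finset.sum_congr rfl fun k _ => mul_comm _ _
  have hdet : ∀ t : K, A.det.eval t
      = (Matrix.of fun i j => φ (Φ ((w j).eval (algebraMap K R t))) i).det := by
    intro t
    have := (Polynomial.evalRingHom t).map_det A
    rw [coe_evalRingHom] at this
    rw [this]
    congr 1
    ext i j
    simp [hev]
  have h0 : A.det.eval 0 = 1 := by
    rw [hdet]
    have : (Matrix.of fun i j => φ (Φ ((w j).eval (algebraMap K R 0))) i)
        = (1 : Matrix (Fin ρ) (Fin ρ) K) := by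
      ext i j
      rw [Matrix.of_apply, map_zero, ← Polynomial.coeff_zero_eq_eval_zero, hφ, Matrix.one_apply,
        Pi.single_apply]
    rw [this, Matrix.det_one]
  have hne : (X * A.det : K[X]) ≠ 0 := by
    apply mul_ne_zero X_ne_zero
    intro h
    rw [h] at h0
    simp at h0
  obtain ⟨t, ht⟩ : ∃ t : K, (X * A.det : K[X]).eval t ≠ 0 := by
    by_contra hcon
    push Not at hcon
    exact hne (Polynomial.funext (by simpa using hcon))
  rw [eval_mul, eval_X] at ht
  refine ⟨t, left_ne_zero_of_mul ht, ?_⟩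
  apply linearIndependent_of_det _ φ
  rw [← hdet]
  exact right_ne_zero_of_mul ht

/-! ### Dual Vandermonde coefficients -/

theorem exists_vandermonde_dual [CharZero K] (S : Finset ℕ) (k : ℕ) (hk : k < S.card) :
    ∃ α : ℕ → K, ∀ j < S.card,
      ∑ e ∈ S, α e * (e.choose j : K) = if j = k then 1 else 0 := by
  classical
  let E : Fin S.card ≃ S := (S.orderIsoOfFin rfl).toEquiv
  let v : Fin S.card → K := fun i => ((E i : ℕ) : K)
  have hv : Function.Injective v := by
    intro i j hij
    have h1 : ((E i : ℕ)) = (E j : ℕ) := Nat.cast_injective hij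
    exact E.injective (Subtype.ext h1)
  let M : Matrix (Fin S.card) (Fin S.card) K :=
    Matrix.of fun i j => eval (v i) (descPochhammer K (j : ℕ))
  have hM : M.det ≠ 0 := by
    have h1 := Matrix.det_eval_matrixOfPolynomials_eq_det_vandermonde v
      (fun j : Fin S.card => descPochhammer K (j : ℕ))
      (fun j => descPochhammer_natDegree K j) (fun j => monic_descPochhammer K j)
    have h2 : M.det = (Matrix.vandermonde v).det := h1.symm
    rw [h2]
    exact Matrix.det_vandermonde_ne_zero_iff.2 hv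
  have hunit : IsUnit M.det := isUnit_iff_ne_zero.2 hM
  let a : Fin S.card → K := Matrix.vecMul (Pi.single ⟨k, hk⟩ ((k.factorial : K))) M⁻¹
  have ha : Matrix.vecMul a M = Pi.single ⟨k, hk⟩ ((k.factorial : K)) := by
    simp only [a, Matrix.vecMul_vecMul, Matrix.nonsing_inv_mul M hunit, Matrix.vecMul_one]
  refine ⟨fun e => if h : e ∈ S then a (E.symm ⟨e, h⟩) else 0, fun j hj => ?_⟩
  have hsum : ∑ e ∈ S, (if h : e ∈ S then a (E.symm ⟨e, h⟩) else 0) * (e.choose j : K)
      = ∑ i, a i * (((E i : ℕ)).choose j : K) := by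
    rw [← Finset.sum_coe_sort, ← Equiv.sum_comp E]
    refine Finset.sum_congr rfl fun i _ => ?_
    rw [dif_pos (E i).2]
    simp
  rw [hsum]
  have hj2 := congrFun ha ⟨j, hj⟩
  simp only [Matrix.vecMul, dotProduct, M, Matrix.of_apply, v,
    descPochhammer_eval_eq_descFactorial, Nat.descFactorial_eq_factorial_mul_choose,
    Nat.cast_mul, Pi.single_apply, Fin.mk.injEq] at hj2
  have hfac : (j.factorial : K) ≠ 0 := Nat.cast_ne_zero.2 (Nat.factorial_ne_zero j)
  have h3 : (j.factorial : K) * ∑ i, a i * (((E i : ℕ)).choose j : K)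
      = if j = k then (k.factorial : K) else 0 := by
    rw [← hj2, Finset.mul_sum]
    exact Finset.sum_congr rfl fun i _ => by ring
  by_cases hjk : j = k
  · subst hjk
    rw [if_pos rfl] at h3 ⊢
    exact mul_left_cancel₀ hfac (by rw [h3, mul_one])
  · rw [if_neg hjk] at h3 ⊢
    exact (mul_eq_zero.1 h3).resolve_left hfac

/-! ### The condition module, the row spaces and the vector predicate -/

variable (K) in
/-- Bivariate polynomials `P = ∑ c_j(x) ζ^j` with `x^(r(m-j)) ∣ c_j` for all `j < m`; this is the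
underlying space of the ideal `(ζ, x^r)^m`. -/
def cond (r m : ℕ) : Submodule K K[X][X] where
  carrier := {P | ∀ j < m, (X : K[X]) ^ (r * (m - j)) ∣ P.coeff j}
  zero_mem' := by intro j _; simp
  add_mem' := by
    intro P Q hP hQ j hj
    rw [coeff_add]
    exact dvd_add (hP j hj) (hQ j hj)
  smul_mem' := by
    intro a P hP j hj
    rw [coeff_smul]
    exact dvd_smul_of_dvd a (hP j hj)

variable (K) in
/-- `P = ∑ c_j(x) ζ^j` with `deg c_j < n j` for all `j`. -/
def rows (n : ℕ → ℕ) : Submodule K K[X][X] where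
  carrier := {P | ∀ j, P.coeff j ∈ degreeLT K (n j)}
  zero_mem' := by intro j; simp
  add_mem' := by
    intro P Q hP hQ j
    rw [coeff_add]
    exact Submodule.add_mem _ (hP j) (hQ j)
  smul_mem' := by
    intro a P hP j
    rw [coeff_smul]
    exact Submodule.smul_mem _ a (hP j)

variable (K) in
/-- The class of `P(x, ζ + η(x))` modulo `(ζ, x^r)^m`. -/
noncomputable def Phi (r m : ℕ) (η : K[X]) : K[X][X] →ₗ[K] (K[X][X] ⧸ cond K r m) :=
  (cond K r m).mkQ ∘ₗ (taylor η).restrictScalars K

theorem Phi_eq_zero_iff {r m : ℕ} {η : K[X]} {P : K[X][X]} :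
    Phi K r m η P = 0 ↔ taylor η P ∈ cond K r m := by
  simp [Phi]

variable (K) in
/-- `Good r m n ρ`: for some germ `η`, at least `ρ` independent conditions are imposed on the
row space `rows n`. -/
def Good (r m : ℕ) (n : ℕ → ℕ) (ρ : ℕ) : Prop :=
  ∃ (η : K[X]) (w : Fin ρ → K[X][X]), (∀ i, w i ∈ rows K n) ∧
    LinearIndependent K (fun i => Phi K r m η (w i))

theorem rows_mono {n n' : ℕ → ℕ} (h : ∀ i, n i ≤ n' i) : rows K n ≤ rows K n' :=
  fun _ hP j => degreeLT_mono (h j) (hP j)

theorem Good.mono {r m : ℕ} {n n' : ℕ → ℕ} {ρ : ℕ} (h : ∀ i, n i ≤ n' i)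
    (hg : Good K r m n ρ) : Good K r m n' ρ := by
  obtain ⟨η, w, hw, hl⟩ := hg
  exact ⟨η, w, fun i => rows_mono h (hw i), hl⟩

/-! ### The degenerating substitution -/

/-- `P(x, ζ) ↦ P(t x, g(x) + s ζ)`. -/
noncomputable def Gt (t s : K) (g : K[X]) : K[X][X] →+* K[X][X] :=
  eval₂RingHom ((C : K[X] →+* K[X][X]).comp (compRingHom (C t * X))) (C g + C (C s) * X)

theorem Gt_C (t s : K) (g a : K[X]) : Gt t s g (C a) = C (a.comp (C t * X)) := by
  simp [Gt]

theorem Gt_X (t s : K) (g : K[X]) : Gt t s g X = C g + C (C s) * X := by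
  simp [Gt]

theorem Gt_smul (t s : K) (g : K[X]) (a : K) (P : K[X][X]) :
    Gt t s g (a • P) = a • Gt t s g P := by
  have h1 : ∀ Q : K[X][X], a • Q = C (C a) * Q := by
    intro Q
    rw [← Polynomial.smul_eq_C_mul]
    ext : 2
    simp
  rw [h1, h1, map_mul, Gt_C]
  simp

theorem coeff_Gt_zero (t s : K) (Q : K[X][X]) (j : ℕ) :
    (Gt t s 0 Q).coeff j = C (s ^ j) * (Q.coeff j).comp (C t * X) := by
  induction Q using Polynomial.induction_on' with
  | add p q hp hq => simp only [map_add, coeff_add, hp, hq, add_comp, mul_add]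
  | monomial n a =>
    rw [← C_mul_X_pow_eq_monomial, map_mul, map_pow, Gt_C, Gt_X]
    simp only [map_zero, zero_add, mul_pow, ← C_pow]
    rw [coeff_C_mul, coeff_C_mul, coeff_X_pow, coeff_C_mul_X_pow]
    by_cases h : j = n
    · subst h; rw [if_pos rfl, if_pos rfl, mul_one, mul_comm]
    · rw [if_neg h, if_neg h, mul_zero, mul_zero, zero_comp, mul_zero]

theorem Gt_zero_mem_cond {r m : ℕ} (t s : K) {Q : K[X][X]} (hQ : Q ∈ cond K r m) :
    Gt t s 0 Q ∈ cond K r m := by
  intro j hj
  rw [coeff_Gt_zero]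
  obtain ⟨a, ha⟩ := hQ j hj
  rw [ha, mul_comp, pow_comp, X_comp, mul_pow]
  exact ⟨C (s ^ j) * (C t ^ (r * (m - j)) * (a.comp (C t * X))), by ring⟩

theorem taylor_Gt {t s : K} {g η η' : K[X]} (h : η.comp (C t * X) = g + C s * η')
    (P : K[X][X]) : taylor η' (Gt t s g P) = Gt t s 0 (taylor η P) := by
  have key : ((taylorAlgHom η' : K[X][X] →ₐ[K[X]] K[X][X]) : K[X][X] →+* K[X][X]).comp
      (Gt t s g) = (Gt t s 0).comp
        ((taylorAlgHom η : K[X][X] →ₐ[K[X]] K[X][X]) : K[X][X] →+* K[X][X]) := by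
    apply Polynomial.ringHom_ext
    · intro a
      simp [Gt_C]
    · simp only [RingHom.coe_comp, RingHom.coe_coe, Function.comp_apply, Gt_X,
        taylorAlgHom_apply, taylor_X, map_add, Gt_C, taylor_C, taylor_mul, map_zero, zero_add, h]
      rw [C_mul]
      ring
  have := congrArg (fun f => f P) key
  simpa using this

/-- Independence is transported back along the substitution. -/
theorem transport {r m : ℕ} {t s : K} {g η η' : K[X]} (h : η.comp (C t * X) = g + C s * η')
    {ρ : ℕ} {z : Fin ρ → K[X][X]}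
    (hz : LinearIndependent K (fun i => Phi K r m η' (Gt t s g (z i)))) :
    LinearIndependent K (fun i => Phi K r m η (z i)) := by
  rw [Fintype.linearIndependent_iff] at hz ⊢
  intro c hc
  apply hz c
  have h1 : ∀ η₀ : K[X], ∀ y : Fin ρ → K[X][X],
      ∑ i, c i • Phi K r m η₀ (y i) = Phi K r m η₀ (∑ i, c i • y i) := by
    intro η₀ y
    simp only [map_sum, map_smul]
  have h2 : ∑ i, c i • Gt t s g (z i) = Gt t s g (∑ i, c i • z i) := by
    rw [map_sum]
    exact Finset.sum_congr rfl fun i _ => (Gt_smul t s g (c i) (z i)).symm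
  rw [h1] at hc ⊢
  rw [h2, Phi_eq_zero_iff, taylor_Gt h]
  exact Gt_zero_mem_cond t s (Phi_eq_zero_iff.1 hc)

/-! ### The move lemma -/

/-- The rows active at `u`. -/
def act (lam B : ℕ) (n : ℕ → ℕ) (u : ℕ) : Finset ℕ :=
  (Finset.range B).filter (fun c => lam * c ≤ u ∧ u < lam * c + n c)

theorem mem_act {lam B : ℕ} {n : ℕ → ℕ} {u c : ℕ} :
    c ∈ act lam B n u ↔ c < B ∧ lam * c ≤ u ∧ u < lam * c + n c := by
  simp [act]

theorem le_of_lt_card_act {lam B : ℕ} {n : ℕ → ℕ} {u i : ℕ} (h : i < (act lam B n u).card) :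
    lam * i ≤ u := by
  by_contra hcon
  push Not at hcon
  have hsub : act lam B n u ⊆ Finset.range i := by
    intro c hc
    rw [mem_act] at hc
    rw [Finset.mem_range]
    by_contra hci
    push Not at hci
    have := Nat.mul_le_mul_left lam hci
    omega
  have := Finset.card_le_card hsub
  rw [Finset.card_range] at this
  omega

/-- Expansion of one substituted basis vector. -/
theorem expand_one {S : Type*} [CommRing S] (lam M B u c : ℕ) (hc : c < B) (hu : lam * c ≤ u)
    (A z : S[X]) :
    A ^ (u - lam * c) * (A ^ lam + X ^ M * z) ^ c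
      = ∑ l ∈ Finset.range B,
          ((c.choose l : ℕ) : S[X]) * (X ^ (M * l) * z ^ l * A ^ (u - lam * l)) := by
  rw [add_comm (A ^ lam), (Commute.all _ _).add_pow, Finset.mul_sum]
  have hsub : Finset.range (c + 1) ⊆ Finset.range B := Finset.range_subset_range.2 hc
  rw [← Finset.sum_subset hsub]
  · refine Finset.sum_congr rfl fun l hl => ?_
    rw [Finset.mem_range] at hl
    have h1 : u - lam * l = (u - lam * c) + lam * (c - l) := by
      have : lam * c = lam * l + lam * (c - l) := by
        rw [← mul_add]; congr 1; omega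
      omega
    rw [h1, pow_add, mul_pow, ← pow_mul, ← pow_mul]
    ring
  · intro l _ hl
    rw [Finset.mem_range] at hl
    rw [Nat.choose_eq_zero_of_lt (by omega)]
    simp

theorem generator_alg [CharZero K] {S : Type*} [CommRing S] [Algebra K S] (x z : S)
    {n : ℕ → ℕ} (lam B M : ℕ) (i k : ℕ) (U : Finset ℕ)
    (hk : k < U.card) (hM : k < M) (hF : ∀ u ∈ U, i < (act lam B n u).card) :
    ∃ (γ : ℕ → ℕ → K) (V : S[X]), ∑ u ∈ U, ∑ c ∈ act lam B n u,
      C (algebraMap K S (γ u c)) * ((1 + X * C x) ^ (u - lam * c) *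
        ((1 + X * C x) ^ lam + X ^ M * C z) ^ c)
      = X ^ (M * i + k) * (C (x ^ k * z ^ i) + X * V) := by
  classical
  have hle : ∀ u ∈ U, lam * i ≤ u := fun u hu => le_of_lt_card_act (hF u hu)
  choose! β hβ using fun u (hu : u ∈ U) =>
    exists_vandermonde_dual (K := K) (act lam B n u) i (hF u hu)
  have hinj : Set.InjOn (fun u => u - lam * i) (U : Set ℕ) := by
    intro a ha b hb hab
    have h1 := hle a ha
    have h2 := hle b hb
    simp only at hab
    omega
  have hcard : (U.image (fun u => u - lam * i)).card = U.card := Finset.card_image_of_injOn hinj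
  obtain ⟨α, hα⟩ := exists_vandermonde_dual (K := K) (U.image (fun u => u - lam * i)) k
    (by rw [hcard]; exact hk)
  rw [hcard] at hα
  simp only [Finset.sum_image hinj] at hα
  -- the auxiliary elements
  generalize hA : (1 + X * C x : S[X]) = A
  generalize hzz : (C z : S[X]) = zz
  let cst : K → S[X] := fun a => C (algebraMap K S a)
  have hcst_mul : ∀ a b, cst (a * b) = cst a * cst b := by intro a b; simp [cst]
  have hcst_nat : ∀ a : ℕ, cst (a : K) = (a : S[X]) := by intro a; simp [cst]
  have hcst_sum : ∀ (s : Finset ℕ) (f : ℕ → K), cst (∑ x ∈ s, f x) = ∑ x ∈ s, cst (f x) := by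
    intro s f; simp [cst]
  have hiB : ∀ u ∈ U, i < B := by
    intro u hu
    have h1 := hF u hu
    have h2 : (act lam B n u).card ≤ B := by
      have := Finset.card_filter_le (Finset.range B) (fun c => lam * c ≤ u ∧ u < lam * c + n c)
      rw [Finset.card_range] at this
      exact this
    omega
  -- inner sum
  have hinner : ∀ u ∈ U, ∃ W : S[X], ∑ c ∈ act lam B n u,
      cst (α (u - lam * i) * β u c) * (A ^ (u - lam * c) * (A ^ lam + X ^ M * zz) ^ c)
      = cst (α (u - lam * i)) * (X ^ (M * i) * zz ^ i * A ^ (u - lam * i))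
        + X ^ (M * (i + 1)) * W := by
    intro u hu
    have h1 : ∑ c ∈ act lam B n u,
      cst (α (u - lam * i) * β u c) * (A ^ (u - lam * c) * (A ^ lam + X ^ M * zz) ^ c)
      = cst (α (u - lam * i)) * ∑ l ∈ Finset.range B,
          cst (∑ c ∈ act lam B n u, β u c * (c.choose l : K)) *
            (X ^ (M * l) * zz ^ l * A ^ (u - lam * l)) := by
      rw [Finset.mul_sum]
      simp only [hcst_sum, Finset.sum_mul, Finset.mul_sum]
      rw [Finset.sum_comm]
      refine Finset.sum_congr rfl fun c hc => ?_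
      rw [mem_act] at hc
      rw [expand_one lam M B u c hc.1 hc.2.1, Finset.mul_sum]
      refine Finset.sum_congr rfl fun l _ => ?_
      rw [hcst_mul, hcst_mul, hcst_nat]
      ring
    rw [h1]
    have h2 : ∀ l ∈ Finset.range B, l ≠ i → ∃ W : S[X],
        cst (∑ c ∈ act lam B n u, β u c * (c.choose l : K)) *
            (X ^ (M * l) * zz ^ l * A ^ (u - lam * l)) = X ^ (M * (i + 1)) * W := by
      intro l _ hli
      rcases lt_or_gt_of_ne hli with h | h
      · refine ⟨0, ?_⟩
        rw [hβ u hu l (lt_trans h (hF u hu)), if_neg hli]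
        simp [cst]
      · obtain ⟨b, rfl⟩ : ∃ b, l = i + 1 + b := ⟨l - (i + 1), by omega⟩
        exact ⟨cst (∑ c ∈ act lam B n u, β u c * (c.choose (i + 1 + b) : K)) *
          (X ^ (M * b) * zz ^ (i + 1 + b) * A ^ (u - lam * (i + 1 + b))), by
            rw [mul_add M, pow_add]; ring⟩
    choose! W hW using h2
    refine ⟨cst (α (u - lam * i)) * ∑ l ∈ (Finset.range B).erase i, W l, ?_⟩
    have hi := Finset.mem_range.2 (hiB u hu)
    rw [← Finset.add_sum_erase _ _ hi, hβ u hu i (hF u hu), if_pos rfl, mul_add, Finset.mul_sum,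
      Finset.mul_sum, Finset.mul_sum]
    congr 1
    · simp [cst]
    · refine Finset.sum_congr rfl fun l hl => ?_
      rw [hW l (Finset.mem_of_mem_erase hl) (Finset.ne_of_mem_erase hl)]
      ring
  choose! W hW using hinner
  -- outer sum
  have houter : ∃ W' : S[X], ∑ u ∈ U, cst (α (u - lam * i)) * A ^ (u - lam * i)
      = X ^ k * C (x ^ k) + X ^ (k + 1) * W' := by
    have hdvd : X ^ (k + 1) ∣ (∑ u ∈ U, cst (α (u - lam * i)) * A ^ (u - lam * i)
        - X ^ k * C (x ^ k)) := by
      rw [X_pow_dvd_iff]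
      intro j hj
      have hcoef : ∀ e : ℕ, (A ^ e).coeff j = x ^ j * ((e.choose j : ℕ) : S) := by
        intro e
        have h1 : A = C x * X + C 1 := by rw [← hA, C_1]; ring
        rw [h1, (Commute.all _ _).add_pow, finsetSum_coeff]
        have h2 : ∀ b ∈ Finset.range (e + 1),
            ((C x * X) ^ b * C 1 ^ (e - b) * ((e.choose b : ℕ) : S[X])).coeff j
            = if b = j then x ^ j * ((e.choose j : ℕ) : S) else 0 := by
          intro b _
          have h3 : ((C x * X) ^ b * C 1 ^ (e - b) * ((e.choose b : ℕ) : S[X]))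
              = C (x ^ b * ((e.choose b : ℕ) : S)) * X ^ b := by
            simp only [mul_pow, C_1, one_pow, mul_one, C_mul, C_pow, map_natCast]
            ring
          rw [h3, coeff_C_mul_X_pow]
          by_cases hbj : b = j
          · subst hbj; simp
          · rw [if_neg hbj, if_neg (Ne.symm hbj)]
        rw [Finset.sum_congr rfl h2, Finset.sum_ite_eq']
        by_cases hje : j ∈ Finset.range (e + 1)
        · rw [if_pos hje]
        · rw [if_neg hje, Nat.choose_eq_zero_of_lt (by rw [Finset.mem_range] at hje; omega)]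
          simp
      rw [coeff_sub, finsetSum_coeff]
      have h4 : ∀ u ∈ U, (cst (α (u - lam * i)) * A ^ (u - lam * i)).coeff j
          = algebraMap K S (α (u - lam * i) * ((u - lam * i).choose j : K)) * x ^ j := by
        intro u _
        simp only [cst]
        rw [coeff_C_mul, hcoef]
        simp only [map_mul, map_natCast]
        ring
      rw [Finset.sum_congr rfl h4, ← Finset.sum_mul, ← map_sum, hα j (by omega), X_pow_mul,
        coeff_C_mul_X_pow]
      by_cases hjk : j = k
      · subst hjk; simp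
      · simp [hjk]
    obtain ⟨W', hW'⟩ := hdvd
    exact ⟨W', by rw [← hW']; ring⟩
  obtain ⟨W', hW'⟩ := houter
  obtain ⟨b, hb⟩ : ∃ b, M = k + 1 + b := ⟨M - (k + 1), by omega⟩
  refine ⟨fun u c => α (u - lam * i) * β u c, zz ^ i * W' + X ^ b * ∑ u ∈ U, W u, ?_⟩
  have h6 : ∑ u ∈ U, ∑ c ∈ act lam B n u,
      C (algebraMap K S (α (u - lam * i) * β u c)) *
        (A ^ (u - lam * c) * (A ^ lam + X ^ M * zz) ^ c)
      = X ^ (M * i) * zz ^ i * (∑ u ∈ U, cst (α (u - lam * i)) * A ^ (u - lam * i))
      + X ^ (M * (i + 1)) * ∑ u ∈ U, W u := by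
    have h7 : ∑ u ∈ U, ∑ c ∈ act lam B n u,
        C (algebraMap K S (α (u - lam * i) * β u c)) *
        (A ^ (u - lam * c) * (A ^ lam + X ^ M * zz) ^ c)
        = ∑ u ∈ U, (cst (α (u - lam * i)) *
        (X ^ (M * i) * zz ^ i * A ^ (u - lam * i)) + X ^ (M * (i + 1)) * W u) :=
      Finset.sum_congr rfl fun u hu => hW u hu
    rw [h7, Finset.sum_add_distrib, Finset.mul_sum, Finset.mul_sum]
    congr 1
    exact Finset.sum_congr rfl fun u _ => by ring
  have h8 : (X : S[X]) ^ (M * (i + 1)) = X ^ (M * i + k) * (X * X ^ b) := by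
    rw [← pow_succ', ← pow_add]; congr 1; rw [hb]; ring
  rw [h6, hW', h8, C_mul, C_pow, C_pow, hzz, pow_add]
  ring

end Pool.Agent.Helper41.Fat
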