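import Pool.Agent.Helper41.FatMove

set_option autoImplicit false

open Polynomial

namespace Pool.Agent.Helper41.Fat

variable {K : Type*} [Field K]

/-! ### Monomial families -/

/-- The monomials `x^k ζ^c` with `c < B`, `k < n c`. -/
noncomputable def monoFam (K : Type*) [Field K] (B : ℕ) (n : ℕ → ℕ)
    (p : Σ c : Fin B, Fin (n c)) : K[X][X] := C (X ^ (p.2 : ℕ)) * X ^ (p.1 : ℕ)

theorem card_idx (B : ℕ) (n : ℕ → ℕ) :
    Fintype.card (Σ c : Fin B, Fin (n c)) = ∑ c ∈ Finset.range B, n c := by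
  rw [Fintype.card_sigma]
  simp only [Fintype.card_fin]
  exact Fin.sum_univ_eq_sum_range (fun c => n c) B

theorem mono_mem (B : ℕ) (n : ℕ → ℕ) (p : Σ c : Fin B, Fin (n c)) :
    monoFam K B n p ∈ rows K n := by
  apply mono_mem_rows
  rw [mem_degreeLT, degree_X_pow]
  exact_mod_cast p.2.2

theorem coeff_sum_mono (B : ℕ) (n : ℕ → ℕ) (a : (Σ c : Fin B, Fin (n c)) → K) (c : Fin B) :
    (∑ p, a p • monoFam K B n p).coeff (c : ℕ) = ∑ k : Fin (n c), C (a ⟨c, k⟩) * X ^ (k : ℕ) := by
  rw [finsetSum_coeff, Fintype.sum_sigma]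
  rw [Finset.sum_eq_single c]
  · refine Finset.sum_congr rfl fun k _ => ?_
    rw [coeff_smul, monoFam, coeff_C_mul_X_pow, if_pos rfl, smul_eq_C_mul]
  · intro c' _ hc'
    apply Finset.sum_eq_zero
    intro k _
    rw [coeff_smul, monoFam, coeff_C_mul_X_pow, if_neg, smul_zero]
    intro h
    exact hc' (Fin.ext h.symm)
  · intro h; exact absurd (Finset.mem_univ _) h

theorem coeff_coeff_sum_mono (B : ℕ) (n : ℕ → ℕ) (a : (Σ c : Fin B, Fin (n c)) → K)
    (c : Fin B) (k : Fin (n c)) :
    ((∑ p, a p • monoFam K B n p).coeff (c : ℕ)).coeff (k : ℕ) = a ⟨c, k⟩ := by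
  rw [coeff_sum_mono, finsetSum_coeff, Finset.sum_eq_single k]
  · rw [coeff_C_mul_X_pow, if_pos rfl]
  · intro k' _ hk'
    rw [coeff_C_mul_X_pow, if_neg]
    intro h
    exact hk' (Fin.ext h.symm)
  · intro h; exact absurd (Finset.mem_univ _) h

theorem mono_linearIndependent (B : ℕ) (n : ℕ → ℕ) : LinearIndependent K (monoFam K B n) := by
  rw [Fintype.linearIndependent_iff]
  rintro a ha ⟨c, k⟩
  rw [← coeff_coeff_sum_mono B n a c k, ha]
  simp

theorem rows_le_span (B : ℕ) (n : ℕ → ℕ) (hn : ∀ c, B ≤ c → n c = 0) :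
    rows K n ≤ Submodule.span K (Set.range (monoFam K B n)) := by
  intro P hP
  have hP' : P = ∑ p : (Σ c : Fin B, Fin (n c)),
      ((P.coeff (p.1 : ℕ)).coeff (p.2 : ℕ)) • monoFam K B n p := by
    ext j k
    by_cases hj : j < B
    · by_cases hk : k < n j
      · exact (coeff_coeff_sum_mono B n (fun p => (P.coeff (p.1 : ℕ)).coeff (p.2 : ℕ))
          ⟨j, hj⟩ ⟨k, hk⟩).symm
      · have h1 := hP j
        rw [mem_degreeLT] at h1
        rw [coeff_eq_zero_of_degree_lt (lt_of_lt_of_le h1 (by exact_mod_cast (by omega : n j ≤ k)))]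
        have h2 : (∑ p : (Σ c : Fin B, Fin (n c)),
            ((P.coeff (p.1 : ℕ)).coeff (p.2 : ℕ)) • monoFam K B n p) ∈ rows K n :=
          Submodule.sum_mem _ fun p _ => Submodule.smul_mem _ _ (mono_mem B n p)
        have h3 := h2 j
        rw [mem_degreeLT] at h3
        rw [coeff_eq_zero_of_degree_lt (lt_of_lt_of_le h3 (by exact_mod_cast (by omega : n j ≤ k)))]
    · have h2 : (∑ p : (Σ c : Fin B, Fin (n c)),
            ((P.coeff (p.1 : ℕ)).coeff (p.2 : ℕ)) • monoFam K B n p) ∈ rows K n :=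
          Submodule.sum_mem _ fun p _ => Submodule.smul_mem _ _ (mono_mem B n p)
      have hz : ∀ Q ∈ rows K n, Q.coeff j = 0 := by
        intro Q hQ
        have h1 := hQ j
        rw [hn j (by omega), mem_degreeLT] at h1
        simpa using h1
      rw [hz P hP, hz _ h2]
  rw [hP']
  exact Submodule.sum_mem _ fun p _ => Submodule.smul_mem _ _ (Submodule.subset_span ⟨p, rfl⟩)

theorem finrank_rows_le (B : ℕ) (n : ℕ → ℕ) (hn : ∀ c, B ≤ c → n c = 0) :
    Module.Finite K (rows K n) ∧
      Module.finrank K (rows K n) ≤ ∑ c ∈ Finset.range B, n c := by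
  classical
  have hfin : Module.Finite K (Submodule.span K (Set.range (monoFam K B n))) :=
    Module.Finite.span_of_finite K (Set.finite_range _)
  constructor
  · exact Submodule.finiteDimensional_of_le (rows_le_span B n hn)
  · refine (Submodule.finrank_mono (rows_le_span B n hn)).trans ?_
    refine (finrank_range_le_card (monoFam K B n)).trans ?_
    rw [card_idx]

/-! ### The final position -/

theorem good_of_family {r m : ℕ} {n : ℕ → ℕ} {ι : Type*} [Fintype ι] (η : K[X]) (v : ι → K[X][X])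
    (hv : ∀ i, v i ∈ rows K n) (hl : LinearIndependent K (fun i => Phi K r m η (v i))) :
    Good K r m n (Fintype.card ι) := by
  let e := (Fintype.equivFin ι).symm
  exact ⟨η, fun i => v (e i), fun i => hv _, hl.comp e e.injective⟩

theorem Good.final (r m : ℕ) (n : ℕ → ℕ) :
    Good K r m n (∑ c ∈ Finset.range m, min (n c) (r * (m - c))) := by
  let n₁ : ℕ → ℕ := fun c => min (n c) (r * (m - c))
  have h1 : ∀ p : (Σ c : Fin m, Fin (n₁ c)), monoFam K m n₁ p ∈ rows K n := fun p =>
    rows_mono (fun i => min_le_left _ _) (mono_mem m n₁ p)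
  have h2 : LinearIndependent K (fun p => Phi K r m 0 (monoFam K m n₁ p)) := by
    rw [Fintype.linearIndependent_iff]
    rintro a ha
    have h3 : ∑ p, a p • Phi K r m 0 (monoFam K m n₁ p)
        = Phi K r m 0 (∑ p, a p • monoFam K m n₁ p) := by
      simp only [map_sum, map_smul]
    rw [h3, Phi_eq_zero_iff, taylor_zero] at ha
    rintro ⟨c, k⟩
    have h4 := ha c c.2
    rw [X_pow_dvd_iff] at h4
    have h5 := h4 k (lt_of_lt_of_le k.2 (min_le_right _ _))
    rwa [coeff_coeff_sum_mono] at h5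
  have := good_of_family 0 _ h1 h2
  rwa [card_idx] at this

/-! ### Injectivity -/

theorem Good.inj {r m : ℕ} (B : ℕ) {n : ℕ → ℕ} (hn : ∀ c, B ≤ c → n c = 0)
    (hg : Good K r m n (∑ c ∈ Finset.range B, n c)) :
    ∃ η : K[X], ∀ P ∈ rows K n, Phi K r m η P = 0 → P = 0 := by
  obtain ⟨η, w, hw, hl⟩ := hg
  obtain ⟨hfin, hrank⟩ := finrank_rows_le (K := K) B n hn
  have hlw : LinearIndependent K w := LinearIndependent.of_comp (Phi K r m η) hl
  let w' : Fin (∑ c ∈ Finset.range B, n c) → rows K n := fun i => ⟨w i, hw i⟩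
  have hlw' : LinearIndependent K w' :=
    LinearIndependent.of_comp (rows K n).subtype hlw
  have hcard : Fintype.card (Fin (∑ c ∈ Finset.range B, n c)) = Module.finrank K (rows K n) := by
    apply le_antisymm
    · exact hlw'.fintype_card_le_finrank
    · rw [Fintype.card_fin]; exact hrank
  have hspan : Submodule.span K (Set.range w') = ⊤ :=
    LinearIndependent.span_eq_top_of_card_eq_finrank' (K := K) (V := rows K n) hlw' hcard
  refine ⟨η, fun P hP hP0 => ?_⟩
  have h1 : (⟨P, hP⟩ : rows K n) ∈ Submodule.span K (Set.range w') := by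
    rw [hspan]; exact Submodule.mem_top
  obtain ⟨a, ha⟩ := (Submodule.mem_span_range_iff_exists_fun K).1 h1
  have h2 : ∑ i, a i • w i = P := by
    have := congrArg (fun q : rows K n => (q : K[X][X])) ha
    simpa [w'] using this
  have h3 : ∑ i, a i • Phi K r m η (w i) = 0 := by
    rw [← hP0, ← h2, map_sum]
    exact Finset.sum_congr rfl fun i _ => (map_smul _ _ _).symm
  have h4 := Fintype.linearIndependent_iff.1 hl a h3
  rw [← h2]
  exact Finset.sum_eq_zero fun i _ => by rw [h4 i, zero_smul]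

theorem good_of_inj {r m : ℕ} (B : ℕ) {n : ℕ → ℕ} (η : K[X])
    (h : ∀ P ∈ rows K n, Phi K r m η P = 0 → P = 0) :
    Good K r m n (∑ c ∈ Finset.range B, n c) := by
  rw [← card_idx]
  apply good_of_family η (monoFam K B n) (mono_mem B n)
  apply (mono_linearIndependent B n).map
  rw [Submodule.disjoint_def]
  intro P hP hP0
  have hP' : P ∈ rows K n := by
    have : Submodule.span K (Set.range (monoFam K B n)) ≤ rows K n := by
      rw [Submodule.span_le]
      rintro _ ⟨p, rfl⟩
      exact mono_mem B n p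
    exact this hP
  exact h P hP' hP0

theorem Good.shrink {r m : ℕ} (B B' : ℕ) {n n' : ℕ → ℕ} (hn : ∀ c, B ≤ c → n c = 0)
    (hle : ∀ c, n' c ≤ n c) (hg : Good K r m n (∑ c ∈ Finset.range B, n c)) :
    Good K r m n' (∑ c ∈ Finset.range B', n' c) := by
  obtain ⟨η, hη⟩ := hg.inj B hn
  exact good_of_inj B' η fun P hP hP0 => hη P (rows_mono hle hP) hP0

end Pool.Agent.Helper41.Fat
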