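import Pool.Agent.Helper67.BS.Chain

/-!
# The chain of the levels for covers by arbitrary simplices
-/

set_option autoImplicit false

namespace Helper41.AC

open Helper67.Cube Helper67.BS MeasureTheory Set

variable {m N : ℕ}

/-- the family induced on a facet of the cube, arbitrary simplices -/
theorem exists_facetA {W : Fin N → Fin (m+2) → Fin (m+1) → ℝ} (hW : IsCover W)
    (j : Fin (m+1)) {a : ℝ} (ha : a = 0 ∨ a = 1) (Φ : (Fin (m+1) → Fin m → ℝ) → ℝ) :
    ∃ (N' : ℕ) (W' : Fin N' → Fin (m+1) → Fin m → ℝ), IsCover W' ∧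
      ∑ s, Φ (W' s) = ∑ s, fphi Φ (W s) j a := by
  classical
  set e := Fintype.equivFin {s : Fin N // ExtAt (W s) j a} with he
  have hcov : IsCover (fun k => rem (W (e.symm k)) (e.symm k).2.choose j) := by
    refine ⟨fun k => aff_rem (hW.1 _) (e.symm k).2.choose_spec, Subset.antisymm ?_ ?_⟩
    · exact iUnion_subset fun k => body_subset_cube (inUnit_rem (hW.inUnit _) _ _)
    · intro y hy
      obtain ⟨s, h, hs⟩ := facet_cover hW j ha hy
      refine mem_iUnion.2 ⟨e ⟨s, h⟩, ?_⟩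
      have h1 : e.symm (e ⟨s, h⟩) = ⟨s, h⟩ := e.symm_apply_apply _
      have h2 : ∀ t : {s : Fin N // ExtAt (W s) j a}, t = ⟨s, h⟩ →
          y ∈ body (rem (W t) t.2.choose j) := by
        rintro t rfl; exact hs
      exact h2 _ h1
  refine ⟨_, fun k => rem (W (e.symm k)) (e.symm k).2.choose j, hcov, ?_⟩
  rw [Equiv.sum_comp e.symm (fun t : {s : Fin N // ExtAt (W s) j a} =>
    Φ (rem (W t) t.2.choose j))]
  have h1 : ∀ t : {s : Fin N // ExtAt (W s) j a}, Φ (rem (W t) t.2.choose j) =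
      fphi Φ (W t) j a := by
    intro t
    unfold fphi
    rw [dif_pos t.2]
  rw [Finset.sum_congr rfl fun t _ => h1 t]
  rw [← Finset.sum_subtype (Finset.univ.filter fun s => ExtAt (W s) j a) (fun s => by simp)
    (fun s => fphi Φ (W s) j a)]
  refine Finset.sum_subset (Finset.subset_univ _) fun s _ hs => ?_
  unfold fphi
  rw [dif_neg]
  simpa using hs

lemma vol_le {d : ℕ} {W : Fin N → Fin (d+1) → Fin d → ℝ} (hW : IsCover W) :
    (d.factorial : ℝ) ≤ ∑ s, vdet (W s) := by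
  have h1 : (1 : ENNReal) ≤ ∑ s, ENNReal.ofReal (vdet (W s) / d.factorial) := by
    rw [← volume_cube d, ← hW.2]
    refine (measure_iUnion_le _).trans ?_
    rw [tsum_fintype]
    exact Finset.sum_le_sum fun s _ => (volume_body _).le
  rw [← ENNReal.ofReal_sum_of_nonneg (fun s _ => div_nonneg (vdet_nonneg _) (by positivity)),
    ENNReal.one_le_ofReal, ← Finset.sum_div, le_div_iff₀ (by positivity), one_mul] at h1
  exact h1

/-- **General lift** for arbitrary simplices. -/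
theorem lift_genA {W : Fin N → Fin (m+2) → Fin (m+1) → ℝ} (hW : IsCover W)
    {Φ : (Fin (m+1) → Fin m → ℝ) → ℝ}
    {Ψ : (Fin (m+2) → Fin (m+1) → ℝ) → ℝ} {c Om : ℝ} (hc : 0 ≤ c)
    (hP : ∀ w : Fin (m+2) → Fin (m+1) → ℝ, AffineIndependent ℝ w → InUnit w →
      c * vdet w + ∑ j, (fphi Φ w j 0 + fphi Φ w j 1) ≤ Ψ w)
    (hT : ∀ (N' : ℕ) (W' : Fin N' → Fin (m+1) → Fin m → ℝ), IsCover W' →
      Om ≤ ∑ s, Φ (W' s)) :
    c * (m+1).factorial + 2 * (m+1) * Om ≤ ∑ s, Ψ (W s) := by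
  have hvol := vol_le hW
  have hfac : ∀ j a, (a = 0 ∨ a = 1) → Om ≤ ∑ s, fphi Φ (W s) j a := by
    intro j a ha
    obtain ⟨N', W', h1, h4⟩ := exists_facetA hW j ha Φ
    rw [← h4]
    exact hT N' W' h1
  have hsum : c * ∑ s, vdet (W s) + ∑ s, ∑ j, (fphi Φ (W s) j 0 + fphi Φ (W s) j 1) ≤
      ∑ s, Ψ (W s) := by
    rw [Finset.mul_sum, ← Finset.sum_add_distrib]
    exact Finset.sum_le_sum fun s _ => hP (W s) (hW.1 s) (hW.inUnit s)
  have hswap : ∑ s, ∑ j, (fphi Φ (W s) j 0 + fphi Φ (W s) j 1)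
      = ∑ j, (∑ s, fphi Φ (W s) j 0 + ∑ s, fphi Φ (W s) j 1) := by
    rw [Finset.sum_comm]
    exact Finset.sum_congr rfl fun j _ => Finset.sum_add_distrib
  have h2 : 2 * ((m : ℝ) + 1) * Om ≤ ∑ s, ∑ j, (fphi Φ (W s) j 0 + fphi Φ (W s) j 1) := by
    rw [hswap]
    have h3 : ∑ _j : Fin (m+1), (Om + Om) ≤
        ∑ j, (∑ s, fphi Φ (W s) j 0 + ∑ s, fphi Φ (W s) j 1) :=
      Finset.sum_le_sum fun j _ => add_le_add (hfac j 0 (Or.inl rfl)) (hfac j 1 (Or.inr rfl))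
    refine le_trans (le_of_eq ?_) h3
    rw [Finset.sum_const, Finset.card_univ, Fintype.card_fin, nsmul_eq_mul]
    push_cast
    ring
  have h3 := mul_le_mul_of_nonneg_left hvol hc
  linarith

/-- **Lift for functions of the volume and of the number of exterior facets**, arbitrary
simplices. -/
theorem liftA (hm : 1 ≤ m) {W : Fin N → Fin (m+2) → Fin (m+1) → ℝ} (hW : IsCover W)
    {V : ℕ → ℕ} (hV : ∀ i, maxDet i ≤ V i) (hVm : Monotone V)
    {psi phi : ℝ → ℕ → ℝ} {c Om : ℝ} (hc : 0 ≤ c)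
    (hmono : ∀ δ δ' n, δ ≤ δ' → psi δ' n ≤ psi δ n)
    (hB : ∀ (δ : ℝ) (k n : ℕ), 0 ≤ δ → δ ≤ V (m - n) → 1 ≤ k → k ≤ n + 1 → n ≤ m →
      c * δ + k * psi δ n ≤ phi δ k)
    (hB0 : ∀ δ : ℝ, 0 ≤ δ → δ ≤ V (m+1) → c * δ ≤ phi δ 0)
    (hA : ∀ (N' : ℕ) (W' : Fin N' → Fin (m+1) → Fin m → ℝ), IsCover W' →
      Om ≤ ∑ s, psi (vdet (W' s)) (kk (W' s))) :
    c * (m+1).factorial + 2 * (m+1) * Om ≤ ∑ s, phi (vdet (W s)) (kk (W s)) := by
  classical
  refine lift_genA (Φ := fun T => psi (vdet T) (kk T)) (Ψ := fun S => phi (vdet S) (kk S)) hW hc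
    (fun w hw hu => ?_) hA
  have hle : ∀ (d : ℕ) (v : Fin (d+1) → Fin d → ℝ), InUnit v → vdet v ≤ V (d - kk v) := by
    intro d v hv
    obtain ⟨k, h1, h2, h3⟩ := vdet_le_kk d v hv
    refine h3.trans ?_
    have h4 : maxDet (d - k) ≤ V (d - kk v) := (hV _).trans (hVm (by omega))
    exact_mod_cast h4
  have h3 : ∑ j, (fphi (fun T => psi (vdet T) (kk T)) w j 0 +
      fphi (fun T => psi (vdet T) (kk T)) w j 1) ≤ phi (vdet w) (kk w) - c * vdet w := by
    refine sum_fphi_le' hm (fun j a ha hE => ?_) (fun h0 => ?_)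
    · unfold fphi
      rw [dif_pos hE]
      have h4 := vdet_le_rem w hu hE.choose j a ha hE.choose_spec
      have h5 := hle m (rem w hE.choose j) (inUnit_rem hu _ _)
      have h6 : 1 ≤ kk w := by
        unfold kk
        refine Finset.card_pos.2 ⟨j, Finset.mem_filter.2 ⟨Finset.mem_univ _, a, ha, hE⟩⟩
      have h7 := hB (vdet w) (kk w) (kk (rem w hE.choose j)) (vdet_nonneg _) (h4.trans h5) h6
        (kk_rem _ _ _) (kk_le _)
      have h8 := hmono (vdet w) (vdet (rem w hE.choose j)) (kk (rem w hE.choose j)) h4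
      have h9 := mul_le_mul_of_nonneg_left h8 (Nat.cast_nonneg (α := ℝ) (kk w))
      beta_reduce
      linarith
    · have h4 := hle (m+1) w hu
      rw [h0, Nat.sub_zero] at h4
      have h5 := hB0 (vdet w) (vdet_nonneg _) h4
      rw [h0]
      linarith
  linarith

lemma aQ_nonneg : ∀ i n, (0:ℚ) ≤ aQ i n := by
  intro i
  induction i with
  | zero => intro n; simp [aQ]
  | succ i ih => intro n; rw [aQ]; exact div_nonneg (ih _) (by positivity)

lemma bQ_nonneg {c : ℕ → ℚ} : ∀ i, (∀ j < i, 0 ≤ c j) → ∀ n, (0:ℚ) ≤ bQ c i n := by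
  intro i
  induction i with
  | zero => intro _ n; simp [bQ]
  | succ i ih =>
    intro h n
    rw [bQ]
    exact div_nonneg (add_nonneg (ih (fun j hj => h j (by omega)) _) (h i (by omega)))
      (by positivity)

/-- the weight with real volume -/
noncomputable def psiR (c : ℕ → ℚ) (i : ℕ) (δ : ℝ) (n : ℕ) : ℝ := (aQ i n : ℝ) - δ * (bQ c i n : ℝ)

/-- the inequality at one level, arbitrary simplices -/
def LevA (c : ℕ → ℚ) (m i : ℕ) (Om : ℚ) : Prop :=
  ∀ (N : ℕ) (W : Fin N → Fin (m+1) → Fin m → ℝ), IsCover W →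
    (Om : ℝ) ≤ ∑ s, psiR c i (vdet (W s)) (kk (W s))

lemma lin_leR {A B δ v : ℝ} (h0 : 0 ≤ A) (hv : 0 ≤ A - v * B) (hδ : 0 ≤ δ) (h : δ ≤ v) :
    0 ≤ A - δ * B := by
  rcases le_or_gt B 0 with hB | hB
  · nlinarith
  · have : δ * B ≤ v * B := mul_le_mul_of_nonneg_right h hB.le
    linarith

/-- **one step of the chain**, arbitrary simplices -/
theorem LevA.step {V : ℕ → ℕ} {c : ℕ → ℚ} {m i : ℕ} {Om : ℚ} (hm : 1 ≤ m)
    (hV : ∀ i ≤ m + 1, maxDet i ≤ V i) (hVm : ∀ i < m + 1, V i ≤ V (i+1))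
    (hc : ∀ j < i, 0 ≤ c j) (h : LevA c m (i+1) Om) (hs : stepQ V c i m) :
    LevA c (m+1) i (c i * (m+1).factorial + 2 * (m+1) * Om) := by
  obtain ⟨V', hV', hVm', hVe⟩ := exists_V hV hVm
  obtain ⟨hci, hs0, hs1⟩ := hs
  intro N W hW
  have hb : ∀ n, (0:ℚ) ≤ bQ c (i+1) n :=
    bQ_nonneg (i+1) (fun j hj => by
      rcases Nat.lt_succ_iff_lt_or_eq.mp hj with h1 | h1
      · exact hc j h1
      · rw [h1]; exact hci)
  have h1 := liftA (m := m) hm hW hV' hVm' (psi := psiR c (i+1)) (phi := psiR c i)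
    (c := ((c i : ℚ) : ℝ)) (Om := (Om : ℝ)) (by exact_mod_cast hci) ?_ ?_ ?_ ?_
  · refine le_trans (le_of_eq ?_) h1
    push_cast
    ring
  · intro δ δ' n hδ
    have h2 : (0:ℝ) ≤ (bQ c (i+1) n : ℝ) := by exact_mod_cast hb n
    have := mul_le_mul_of_nonneg_right hδ h2
    unfold psiR
    linarith
  · intro δ k n hδ1 hδ2 hk1 hk2 hn
    rw [hVe _ (by omega)] at hδ2
    have h2 := (hs1 n (by omega) k (by omega)).resolve_left (by omega)
    have h3 : (0:ℝ) ≤ ((aQ i k : ℝ) - k * aQ (i+1) n) -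
        δ * (c i + bQ c i k - k * bQ c (i+1) n) := by
      refine lin_leR (v := (V (m-n) : ℝ)) ?_ ?_ hδ1 hδ2
      · have h4 : (0:ℚ) ≤ aQ i k - k * aQ (i+1) n := by linarith [h2.1]
        exact_mod_cast h4
      · have h4 : (0:ℚ) ≤ (aQ i k - k * aQ (i+1) n) -
            (V (m-n) : ℚ) * (c i + bQ c i k - k * bQ c (i+1) n) := by
          have := h2.2
          linarith
        exact_mod_cast h4
    unfold psiR
    linarith
  · intro δ hδ1 hδ2
    rw [hVe _ le_rfl] at hδ2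
    have h3 : (0:ℝ) ≤ (aQ i 0 : ℝ) - δ * (c i + bQ c i 0) := by
      refine lin_leR (v := (V (m+1) : ℝ)) (by exact_mod_cast aQ_nonneg i 0) ?_ hδ1 hδ2
      have h4 : (0:ℚ) ≤ aQ i 0 - (V (m+1) : ℚ) * (c i + bQ c i 0) := by linarith
      exact_mod_cast h4
    unfold psiR
    linarith
  · intro N' W' h2
    exact h N' W' h2

/-- the target -/
theorem LevA.target {c : ℕ → ℚ} {m : ℕ} {Om : ℚ} (h : LevA c m 0 Om) {N : ℕ}
    {W : Fin N → Fin (m+1) → Fin m → ℝ} (hW : IsCover W) : (Om : ℝ) ≤ N := by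
  have h1 := h N W hW
  simpa [psiR, aQ, bQ] using h1

/-- check of the base -/
def baseA (V : ℕ → ℕ) (c : ℕ → ℚ) (m i : ℕ) : Prop :=
  ∀ n < m + 1, 0 ≤ aQ i n - V (m - n) * bQ c i n

instance (V : ℕ → ℕ) (c : ℕ → ℚ) (m i : ℕ) : Decidable (baseA V c m i) := by
  unfold baseA; infer_instance

/-- **base of the chain**: the weight is nonnegative -/
theorem LevA.base {V : ℕ → ℕ} {c : ℕ → ℚ} {m i : ℕ}
    (hV : ∀ i ≤ m, maxDet i ≤ V i) (hVm : ∀ i < m, V i ≤ V (i+1)) (hb : baseA V c m i) :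
    LevA c m i 0 := by
  obtain ⟨V', hV', hVm', hVe⟩ := exists_V hV hVm
  intro N W hW
  rw [Rat.cast_zero]
  refine Finset.sum_nonneg fun s _ => ?_
  obtain ⟨k, h1, h2, h3⟩ := vdet_le_kk m (W s) (hW.inUnit s)
  have h4 : vdet (W s) ≤ V (m - kk (W s)) := by
    refine h3.trans ?_
    have h5 : maxDet (m - k) ≤ V' (m - kk (W s)) := (hV' _).trans (hVm' (by omega))
    rw [hVe _ (by omega)] at h5
    exact_mod_cast h5
  have h5 := hb (kk (W s)) (by have := kk_le (W s); omega)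
  unfold psiR
  refine lin_leR (v := (V (m - kk (W s)) : ℝ)) (by exact_mod_cast aQ_nonneg _ _) ?_
    (vdet_nonneg _) h4
  exact_mod_cast h5

/-- the value at index `0` of a chain with value `Om` at index `j` (level `2 + t - j`) -/
def omB (c : ℕ → ℚ) (t : ℕ) : ℕ → ℚ → ℚ
  | 0, Om => Om
  | j+1, Om => omB c t j (c j * ((2 + t - j).factorial : ℚ) + 2 * ((2 + t - j : ℕ) : ℚ) * Om)

theorem chainA {V : ℕ → ℕ} {c : ℕ → ℚ} {t : ℕ} (hV : ∀ i ≤ 2 + t, maxDet i ≤ V i)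
    (hVm : ∀ i < 2 + t, V i ≤ V (i+1)) (hs : ∀ i < t, stepQ V c i (1+t-i)) (j : ℕ) (hj : j ≤ t) :
    ∀ (Om : ℚ) (m : ℕ), m = 2 + t - j → LevA c m j Om → LevA c (2+t) 0 (omB c t j Om) := by
  induction j with
  | zero =>
    intro Om m hm h
    obtain rfl : m = 2 + t := hm
    exact h
  | succ j ih =>
    intro Om m hm h
    have h1 := hs j (by omega)
    obtain rfl : m = 1 + t - j := by omega
    have h2 := h.step (V := V) (by omega) (fun i hi => hV i (by omega))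
      (fun i hi => hVm i (by omega)) (fun i hi => (hs i (by omega)).1) h1
    have h3 := ih (by omega) _ (1 + t - j + 1) (by omega) h2
    have e : 2 + t - j = 1 + t - j + 1 := by omega
    rw [omB, e]
    push_cast at h3 ⊢
    exact h3

/-- **lower bound for covers by arbitrary simplices** -/
theorem boundA {V : ℕ → ℕ} {c : ℕ → ℚ} {t : ℕ} (hV : ∀ i ≤ 2 + t, maxDet i ≤ V i)
    (hVm : ∀ i < 2 + t, V i ≤ V (i+1)) (hb : baseA V c 2 t) (hs : ∀ i < t, stepQ V c i (1+t-i))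
    {B : ℕ} (hB : (B : ℚ) - 1 < omB c t t 0) {N : ℕ}
    {W : Fin N → Fin (2+t+1) → Fin (2+t) → ℝ} (hW : IsCover W) : B ≤ N := by
  have h1 : LevA c 2 t 0 := LevA.base (fun i hi => hV i (by omega)) (fun i hi => hVm i (by omega)) hb
  have h2 := chainA hV hVm hs t le_rfl _ 2 (by omega) h1
  have h3 := h2.target hW
  have h4 : omB c t t 0 ≤ (N : ℚ) := by
    exact_mod_cast h3
  have h5 : (B : ℚ) < (N : ℚ) + 1 := by linarith
  have h6 : B < N + 1 := by exact_mod_cast h5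
  omega

end Helper41.AC
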