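import Pool.Agent.Helper41.Order9

/-!
# The largest determinant of a 0/1 matrix of order 6 is at most 9
-/

namespace Helper41.Barba.O7

open Matrix
open scoped MatrixOrder ComplexOrder

/-- an integer Gram matrix of order 7 with off-diagonal entries `3` modulo 4 -/
structure G7 (g : Fin 7 → Fin 7 → ℤ) : Prop where
  diag : ∀ i, g i i = 7
  symm : ∀ i j, g i j = g j i
  mod4 : ∀ i j, i ≠ j → g i j % 4 = 3
  pos : (Matrix.of fun i j => (g i j : ℝ)).PosDef

/-- the real matrix -/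
def rm (g : Fin 7 → Fin 7 → ℤ) : Matrix (Fin 7) (Fin 7) ℝ := Matrix.of fun i j => (g i j : ℝ)

lemma G7.one_le {g : Fin 7 → Fin 7 → ℤ} (h : G7 g) {i j : Fin 7} (hij : i ≠ j) :
    1 ≤ |rm g i j| := by
  have h1 := h.mod4 i j hij
  have h2 : g i j ≠ 0 := by intro h3; rw [h3] at h1; norm_num at h1
  have h3 := Int.one_le_abs h2
  simp only [rm, of_apply]
  exact_mod_cast h3

lemma G7.ap {g : Fin 7 → Fin 7 → ℤ} (h : G7 g) {r m : ℕ} {β : ℝ} (f : Fin r → Fin 7)
    (hf : Function.Injective f) (hm : r + m = 7) (hβ : 0 ≤ β)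
    (hγ : ∀ j, (∀ a, j ≠ f a) → ((rm g).submatrix f f - vecMulVec (fun a => rm g j (f a))
      (fun a => rm g j (f a))).det ≤ β) :
    6 * (rm g).det ≤ 6 ^ m * (6 * ((rm g).submatrix f f).det + m * β) := by
  have h1 := Barba.ap (n := 7) (by norm_num) f hf hm (G := rm g) h.pos
    (fun i => by simp [rm, h.diag]) (fun i j hij => h.one_le hij) hβ hγ
  norm_num at h1
  exact h1

/-- an entry of absolute value at least 5 -/
lemma case5 {g : Fin 7 → Fin 7 → ℤ} (h : G7 g) {i j : Fin 7} (hij : i ≠ j) (h5 : 5 ≤ |g i j|) :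
    (rm g).det ≤ 407808 := by
  have hf : Function.Injective ![i, j] := by
    intro a b hab
    fin_cases a <;> fin_cases b <;> simp_all [hij.symm]
  set a : ℝ := rm g i j with ha
  have haj : rm g j i = a := by simp [rm, ha, h.symm j i]
  have h5' : 5 ≤ |a| := by simp only [ha, rm, of_apply]; exact_mod_cast h5
  have hii : ∀ i, rm g i i = 7 := fun i => by simp [rm, h.diag]
  have hsub : ((rm g).submatrix ![i, j] ![i, j]).det = 49 - a ^ 2 := by
    rw [det_fin_two]
    simp [hii, haj, ← ha]; ring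
  have hpos : 0 < 49 - a ^ 2 := by
    rw [← hsub]
    exact (PosDef.submatrix h.pos hf).det_pos
  have ha9 : |a| ≤ 7 := by
    have h1 : |a| ^ 2 ≤ 7 ^ 2 := by rw [sq_abs]; linarith
    exact le_of_sq_le_sq h1 (by norm_num)
  have h1 := h.ap (β := max 0 (35 - a ^ 2 + 2 * |a|)) (m := 5) ![i, j] hf (by norm_num)
    (le_max_left _ _) (fun k hk => by
      refine le_trans ?_ (le_max_right _ _)
      have h0 := h.one_le (hk 0)
      have h1 := h.one_le (hk 1)
      rw [det_fin_two]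
      simp only [Matrix.sub_apply, submatrix_apply, cons_val_zero, cons_val_one,
        vecMulVec_apply, hii, haj, ← ha] at h0 h1 ⊢
      set u := rm g k i
      set v := rm g k j
      have h2 : a * (u * v) ≤ |a| * (|u| * |v|) := by
        rw [← abs_mul, ← abs_mul]; exact le_abs_self _
      have h3 : 1 ≤ |u| * |v| := by nlinarith
      have h4 : (7 - |a|) * 1 ≤ (7 - |a|) * (|u| * |v|) :=
        mul_le_mul_of_nonneg_left h3 (by linarith)
      have h6 := sq_abs u
      have h7 := sq_abs v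
      nlinarith [sq_nonneg (|u| - |v|)])
  rw [hsub] at h1
  have h2 : 6 * (49 - a ^ 2) + (5 : ℕ) * max 0 (35 - a ^ 2 + 2 * |a|) ≤ 244 := by
    have h6 := sq_abs a
    rcases max_cases 0 (35 - a ^ 2 + 2 * |a|) with h3 | h3 <;> rw [h3.1] <;> push_cast <;>
      nlinarith
  have h3 : 6 * (rm g).det ≤ 6 ^ 5 * 244 := h1.trans (mul_le_mul_of_nonneg_left h2 (by norm_num))
  linarith

/-- two entries `3` in one row -/
lemma case3 {g : Fin 7 → Fin 7 → ℤ} (h : G7 g) (ha : ∀ i j, i ≠ j → g i j = -1 ∨ g i j = 3)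
    {a b c : Fin 7} (hab : a ≠ b) (hac : a ≠ c) (hbc : b ≠ c) (h1 : g a b = 3)
    (h2 : g a c = 3) : (rm g).det ≤ 407808 := by
  have hf : Function.Injective ![a, b, c] := by
    intro x y hxy
    fin_cases x <;> fin_cases y <;> simp_all
  have hii : ∀ i, rm g i i = 7 := fun i => by simp [rm, h.diag]
  have hab' : rm g a b = 3 := by simp [rm, h1]
  have hac' : rm g a c = 3 := by simp [rm, h2]
  have hba' : rm g b a = 3 := by simp [rm, h.symm b a, h1]
  have hca' : rm g c a = 3 := by simp [rm, h.symm c a, h2]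
  have hcb' : rm g c b = rm g b c := by simp [rm, h.symm c b]
  have hx : ∀ i j, i ≠ j → rm g i j = -1 ∨ rm g i j = 3 := by
    intro i j hij
    rcases ha i j hij with h | h <;> simp [rm, h]
  have hsub : ((rm g).submatrix ![a, b, c] ![a, b, c]).det ≤ 208 := by
    rw [det_fin_three]
    simp only [submatrix_apply, cons_val_zero, cons_val_one, cons_val, hii, hab', hac', hba',
      hca', hcb']
    rcases hx b c hbc with h | h <;> rw [h] <;> norm_num
  have h3 := h.ap (β := 160) (m := 4) ![a, b, c] hf (by norm_num) (by norm_num)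
    (fun k hk => by
      have h0 := hx k a (hk 0)
      have h1 := hx k b (hk 1)
      have h2 := hx k c (hk 2)
      rw [det_fin_three]
      simp only [Matrix.sub_apply, submatrix_apply, cons_val_zero, cons_val_one, cons_val,
        vecMulVec_apply, hii, hab', hac', hba', hca', hcb']
      rcases hx b c hbc with h | h <;> rcases h0 with h0 | h0 <;> rcases h1 with h1 | h1 <;>
        rcases h2 with h2 | h2 <;> rw [h, h0, h1, h2] <;> norm_num)
  generalize ((rm g).submatrix ![a, b, c] ![a, b, c]).det = x at *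
  push_cast at h3
  linarith

lemma det_J' (m : ℕ) (hm : 1 ≤ m) :
    ((8 : ℝ) • (1 : Matrix (Fin m) (Fin m) ℝ) + (Matrix.of fun _ _ => (-1 : ℝ))).det
      = (8 : ℝ) ^ (m - 1) * (8 - (m : ℝ)) := by
  have e : (8 : ℝ) • (1 : Matrix (Fin m) (Fin m) ℝ) + (Matrix.of fun _ _ => (-1 : ℝ))
      = (8 : ℝ) • (1 + replicateCol Unit (fun _ : Fin m => (-1 / 8 : ℝ))
        * replicateRow Unit (fun _ : Fin m => (1 : ℝ))) := by
    ext i j
    simp [mul_apply, mul_add]
    norm_num
  rw [e, det_smul, det_one_add_replicateCol_mul_replicateRow, Fintype.card_fin]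
  obtain ⟨k, rfl⟩ : ∃ k, m = k + 1 := ⟨m - 1, by omega⟩
  simp [dotProduct, pow_succ]
  ring

/-- all entries `-1` -/
lemma case0 {g : Fin 7 → Fin 7 → ℤ} (h : G7 g) (ha : ∀ i j, i ≠ j → g i j = -1) :
    (rm g).det ≤ 407808 := by
  have e : rm g = (8 : ℝ) • (1 : Matrix (Fin 7) (Fin 7) ℝ) + (Matrix.of fun _ _ => (-1 : ℝ)) := by
    ext i j
    by_cases hij : i = j
    · subst hij; simp [rm, h.diag]; norm_num
    · simp [rm, ha i j hij, Matrix.one_apply_ne hij]
  rw [e, det_J' 7 (by norm_num)]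
  norm_num

/-- exactly one pair of entries `3` -/
lemma case1 {g : Fin 7 → Fin 7 → ℤ} (h : G7 g) {a b : Fin 7} (hab : a ≠ b) (h1 : g a b = 3)
    (ha : ∀ i j, i ≠ j → ¬ (i = a ∧ j = b) → ¬ (i = b ∧ j = a) → g i j = -1) :
    (rm g).det ≤ 407808 := by
  have hf : Function.Injective ![a, b] := by
    intro x y hxy
    fin_cases x <;> fin_cases y <;> simp_all [hab.symm]
  obtain ⟨e, he⟩ := exists_equiv (r := 2) (m := 5) (N := 7) ![a, b] hf (by norm_num)
  have hna : ∀ j, e (Sum.inr j) ≠ a := fun j hj => by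
    have h2 : e (Sum.inl 0) = a := he 0
    rw [← h2] at hj
    have := e.injective hj
    simp at this
  have hnb : ∀ j, e (Sum.inr j) ≠ b := fun j hj => by
    have h2 : e (Sum.inl 1) = b := he 1
    rw [← h2] at hj
    have := e.injective hj
    simp at this
  set H := (rm g).submatrix e e with hH
  have hp : H.PosDef := PosDef.submatrix h.pos e.injective
  have hb := blk hp.isHermitian
  have hdet : H.det = (rm g).det := det_submatrix_equiv_self e (rm g)
  have hD : H.toBlocks₂₂ = (8 : ℝ) • (1 : Matrix (Fin 5) (Fin 5) ℝ) +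
      (Matrix.of fun _ _ => (-1 : ℝ)) := by
    ext i j
    by_cases hij : i = j
    · subst hij; simp [toBlocks₂₂, hH, rm, h.diag]; norm_num
    · have h2 : e (Sum.inr i) ≠ e (Sum.inr j) := fun h3 => hij (Sum.inr_injective (e.injective h3))
      have h3 := ha _ _ h2 (fun h4 => hna i h4.1) (fun h4 => hnb i h4.1)
      simp [toBlocks₂₂, hH, rm, h3, Matrix.one_apply_ne hij]
  have hB : H.toBlocks₁₂ = Matrix.of fun _ _ => (-1 : ℝ) := by
    ext i j
    have h2 : e (Sum.inl i) ≠ e (Sum.inr j) := fun h3 => by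
      have := e.injective h3
      simp at this
    have h3 := ha _ _ h2 (fun h4 => hnb j h4.2) (fun h4 => hna j h4.2)
    simp [toBlocks₁₂, hH, rm, h3]
  have hA : H.toBlocks₁₁ = !![7, 3; 3, 7] := by
    ext i j
    fin_cases i <;> fin_cases j <;>
      simp [toBlocks₁₁, hH, he, rm, h.diag, h1, h.symm b a]
  have hpD : H.toBlocks₂₂.PosDef := hp.submatrix Sum.inr_injective
  let _ : Invertible H.toBlocks₂₂ := hpD.isUnit.invertible
  have h2 := det_fromBlocks₂₂ H.toBlocks₁₁ H.toBlocks₁₂ H.toBlocks₁₂ᴴ H.toBlocks₂₂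
  rw [← hb, hdet] at h2
  have h3 : ⅟(H.toBlocks₂₂) * H.toBlocks₁₂ᴴ = (1 / 3 : ℝ) • H.toBlocks₁₂ᴴ := by
    have h4 : H.toBlocks₂₂ * H.toBlocks₁₂ᴴ = (3 : ℝ) • H.toBlocks₁₂ᴴ := by
      rw [hD, hB]
      ext i j
      simp [mul_apply, Matrix.one_apply, Finset.sum_add_distrib]
      norm_num
    have h5 : ⅟(H.toBlocks₂₂) * (H.toBlocks₂₂ * H.toBlocks₁₂ᴴ) = H.toBlocks₁₂ᴴ := by
      rw [← Matrix.mul_assoc, invOf_mul_self, Matrix.one_mul]
    rw [h4, Matrix.mul_smul] at h5
    rw [← h5, smul_smul]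
    conv_lhs => rw [h5]
    norm_num
  rw [Matrix.mul_assoc, h3, hA, hD, det_J' 5 (by norm_num), hB, det_fin_two] at h2
  rw [h2]
  simp [mul_apply]
  norm_num

/-- two disjoint pairs with entries `3`, a fifth vertex -/
def M5 : Matrix (Fin 5) (Fin 5) ℤ :=
  !![7, 3, -1, -1, -1; 3, 7, -1, -1, -1; -1, -1, 7, 3, -1; -1, -1, 3, 7, -1; -1, -1, -1, -1, 7]

def N5 : Matrix (Fin 5) (Fin 5) ℤ :=
  !![6, 2, -2, -2, -2; 2, 6, -2, -2, -2; -2, -2, 6, 2, -2; -2, -2, 2, 6, -2; -2, -2, -2, -2, 6]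

def P5 : Matrix (Fin 5) (Fin 5) ℤ :=
  !![6, 2, -2, -2, 2; 2, 6, -2, -2, 2; -2, -2, 6, 2, 2; -2, -2, 2, 6, 2; 2, 2, 2, 2, -2]

theorem M5_det : M5.det = 9984 := by decide +kernel
theorem N5_det : N5.det ≤ 1536 := by decide +kernel
theorem P5_det : P5.det ≤ 1536 := by decide +kernel

lemma exists_fifth : ∀ a b c d : Fin 7, ∃ e, e ≠ a ∧ e ≠ b ∧ e ≠ c ∧ e ≠ d := by decide +kernel

lemma case4 {g : Fin 7 → Fin 7 → ℤ} (h : G7 g) (ha : ∀ i j, i ≠ j → g i j = -1 ∨ g i j = 3)
    {a b c d : Fin 7} (hab : a ≠ b) (hac : a ≠ c) (had : a ≠ d) (hbc : b ≠ c) (hbd : b ≠ d)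
    (hcd : c ≠ d) (h1 : g a b = 3) (h2 : g c d = 3) : (rm g).det ≤ 407808 := by
  by_cases hP : ∃ i j k, i ≠ j ∧ i ≠ k ∧ j ≠ k ∧ g i j = 3 ∧ g i k = 3
  · obtain ⟨i, j, k, n1, n2, n3, e1, e2⟩ := hP
    exact case3 h ha n1 n2 n3 e1 e2
  push Not at hP
  obtain ⟨e, hea, heb, hec, hed⟩ := exists_fifth a b c d
  have h1' : g b a = 3 := by rw [h.symm]; exact h1
  have h2' : g d c = 3 := by rw [h.symm]; exact h2
  have hi : ∀ x y z, x ≠ y → x ≠ z → y ≠ z → g x y = 3 → g x z = -1 := by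
    intro x y z n1 n2 n3 h3
    exact (ha x z n2).resolve_right (hP x y z n1 n2 n3 h3)
  have ka : ∀ k, k ≠ a → k ≠ b → g k a = -1 ∧ g k b = -1 := by
    intro k n1 n2
    refine ⟨?_, ?_⟩
    · rw [h.symm]; exact hi a b k hab n1.symm n2.symm h1
    · rw [h.symm]; exact hi b a k hab.symm n2.symm n1.symm h1'
  have kc : ∀ k, k ≠ c → k ≠ d → g k c = -1 ∧ g k d = -1 := by
    intro k n1 n2
    refine ⟨?_, ?_⟩
    · rw [h.symm]; exact hi c d k hcd n1.symm n2.symm h2
    · rw [h.symm]; exact hi d c k hcd.symm n2.symm n1.symm h2'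
  have hf : Function.Injective ![a, b, c, d, e] := by
    intro x y hxy
    fin_cases x <;> fin_cases y <;> simp_all [Ne.symm]
  have hii : ∀ i, g i i = 7 := h.diag
  obtain ⟨x1, x2⟩ := ka c hac.symm hbc.symm
  obtain ⟨x3, x4⟩ := ka d had.symm hbd.symm
  obtain ⟨x5, x6⟩ := ka e hea heb
  obtain ⟨x7, x8⟩ := kc e hec hed
  have y1 : g a c = -1 := by rw [h.symm]; exact x1
  have y2 : g b c = -1 := by rw [h.symm]; exact x2
  have y3 : g a d = -1 := by rw [h.symm]; exact x3
  have y4 : g b d = -1 := by rw [h.symm]; exact x4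
  have y5 : g a e = -1 := by rw [h.symm]; exact x5
  have y6 : g b e = -1 := by rw [h.symm]; exact x6
  have y7 : g c e = -1 := by rw [h.symm]; exact x7
  have y8 : g d e = -1 := by rw [h.symm]; exact x8
  have hsub : (rm g).submatrix ![a, b, c, d, e] ![a, b, c, d, e] = M5.map (Int.cast : ℤ → ℝ) := by
    ext i j
    fin_cases i <;> fin_cases j <;>
      simp [rm, M5, hii, h1, h1', h2, h2', x1, x2, x3, x4, x5, x6, x7, x8, y1, y2, y3, y4, y5, y6,
        y7, y8]
  have h3 := h.ap (β := 1536) (m := 2) ![a, b, c, d, e] hf (by norm_num) (by norm_num)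
    (fun k hk => by
      obtain ⟨z1, z2⟩ := ka k (hk 0) (hk 1)
      obtain ⟨z3, z4⟩ := kc k (hk 2) (hk 3)
      rw [hsub]
      rcases ha k e (hk 4) with z5 | z5
      · have e1 : M5.map (Int.cast : ℤ → ℝ) - vecMulVec (fun x => rm g k (![a, b, c, d, e] x))
            (fun x => rm g k (![a, b, c, d, e] x)) = N5.map (Int.cast : ℤ → ℝ) := by
          ext i j
          fin_cases i <;> fin_cases j <;>
            simp [rm, M5, N5, vecMulVec_apply, z1, z2, z3, z4, z5] <;> norm_num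
        rw [e1]
        have e2 : (N5.map (Int.cast : ℤ → ℝ)).det = ((N5.det : ℤ) : ℝ) := by
          rw [Int.cast_det]
        rw [e2]
        exact_mod_cast N5_det
      · have e1 : M5.map (Int.cast : ℤ → ℝ) - vecMulVec (fun x => rm g k (![a, b, c, d, e] x))
            (fun x => rm g k (![a, b, c, d, e] x)) = P5.map (Int.cast : ℤ → ℝ) := by
          ext i j
          fin_cases i <;> fin_cases j <;>
            simp [rm, M5, P5, vecMulVec_apply, z1, z2, z3, z4, z5] <;> norm_num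
        rw [e1]
        have e2 : (P5.map (Int.cast : ℤ → ℝ)).det = ((P5.det : ℤ) : ℝ) := by
          rw [Int.cast_det]
        rw [e2]
        exact_mod_cast P5_det)
  have e3 : (M5.map (Int.cast : ℤ → ℝ)).det = 9984 := by
    have e2 : (M5.map (Int.cast : ℤ → ℝ)).det = ((M5.det : ℤ) : ℝ) := by
      rw [Int.cast_det]
    rw [e2, M5_det]; norm_num
  rw [hsub, e3] at h3
  push_cast at h3
  linarith

theorem G7.main {g : Fin 7 → Fin 7 → ℤ} (h : G7 g) : (rm g).det ≤ 407808 := by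
  by_cases h5 : ∃ i j, i ≠ j ∧ 5 ≤ |g i j|
  · obtain ⟨i, j, hij, h5⟩ := h5
    exact case5 h hij h5
  push Not at h5
  have ha : ∀ i j, i ≠ j → g i j = -1 ∨ g i j = 3 := by
    intro i j hij
    have h1 := h5 i j hij
    have h2 := h.mod4 i j hij
    rw [abs_lt] at h1
    omega
  by_cases h3 : ∀ i j, i ≠ j → g i j = -1
  · exact case0 h h3
  push Not at h3
  obtain ⟨a, b, hab, h3⟩ := h3
  have h1 : g a b = 3 := (ha a b hab).resolve_left h3
  by_cases h4 : ∀ i j, i ≠ j → ¬ (i = a ∧ j = b) → ¬ (i = b ∧ j = a) → g i j = -1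
  · exact case1 h hab h1 h4
  push Not at h4
  obtain ⟨c, d, hcd, n1, n2, h4⟩ := h4
  have h2 : g c d = 3 := (ha c d hcd).resolve_left h4
  have h1' : g b a = 3 := by rw [h.symm]; exact h1
  have h2' : g d c = 3 := by rw [h.symm]; exact h2
  by_cases hac : a = c
  · subst hac
    exact case3 h ha hab hcd (fun h' => n1 rfl h'.symm) h1 h2
  by_cases had : a = d
  · subst had
    exact case3 h ha hab hcd.symm (fun h' => n2 h'.symm rfl) h1 h2'
  by_cases hbc : b = c
  · subst hbc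
    exact case3 h ha hab.symm hcd had h1' h2
  by_cases hbd : b = d
  · subst hbd
    exact case3 h ha hab.symm hcd.symm hac h1' h2'
  exact case4 h ha hab hac had hbc hbd hcd h1 h2

lemma exists_G7 (h0 : Helper67.Cube.maxDet 6 ≠ 0) : ∃ g : Fin 7 → Fin 7 → ℤ, G7 g ∧
    (rm g).det = 4096 * (Helper67.Cube.maxDet 6 : ℝ) ^ 2 := by
  obtain ⟨K, hK, hdet⟩ := exists_pm 6
  let ε : Fin 7 → ℤ := fun i => if (∑ k, K i k) % 4 = 3 then 1 else -1
  have hε : ∀ i, ε i = 1 ∨ ε i = -1 := by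
    intro i; simp only [ε]; split_ifs <;> simp
  let K' : Matrix (Fin 7) (Fin 7) ℤ := Matrix.of fun i k => ε i * K i k
  have hK' : ∀ i j, K' i j = 1 ∨ K' i j = -1 := by
    intro i j
    simp only [K', of_apply]
    rcases hε i with h | h <;> rcases hK i j with h' | h' <;> rw [h, h'] <;> norm_num
  have hs : ∀ i, (∑ k, K' i k) % 4 = 3 := by
    intro i
    have h1 := row_mod hK i
    have e : ∑ k, K' i k = ε i * ∑ k, K i k := by
      rw [Finset.mul_sum]; rfl
    rw [e]
    simp only [ε]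
    push_cast at h1
    generalize ∑ k, K i k = y at *
    split_ifs with h
    · rw [one_mul]; exact h
    · omega
  have hdet' : ((K'.map (Int.cast : ℤ → ℝ)).det) ^ 2 = 4 ^ 6 * (Helper67.Cube.maxDet 6 : ℝ) ^ 2 := by
    have e : K'.map (Int.cast : ℤ → ℝ)
        = Matrix.of fun i j => (ε i : ℝ) * (K.map (Int.cast : ℤ → ℝ)) i j := by
      ext i j; simp [K']
    rw [e, det_mul_column, mul_pow, hdet, ← Finset.prod_pow]
    have : ∀ i, ((ε i : ℝ)) ^ 2 = 1 := by
      intro i; rcases hε i with h | h <;> rw [h] <;> norm_num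
    rw [Finset.prod_congr rfl (fun i _ => this i), Finset.prod_const_one, one_mul]
  have hne : (K'.map (Int.cast : ℤ → ℝ)).det ≠ 0 := by
    intro h
    rw [h] at hdet'
    have h1 : (0:ℝ) < (Helper67.Cube.maxDet 6 : ℝ) ^ 2 := by
      have : (0:ℝ) < Helper67.Cube.maxDet 6 := by exact_mod_cast Nat.pos_of_ne_zero h0
      positivity
    have h2 : (0:ℝ) < 4 ^ 6 * (Helper67.Cube.maxDet 6 : ℝ) ^ 2 := by positivity
    rw [← hdet'] at h2
    norm_num at h2
  have hrm : (K'.map (Int.cast : ℤ → ℝ)) * (K'.map (Int.cast : ℤ → ℝ))ᴴ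
      = rm (fun i j => ∑ k, K' i k * K' j k) := by
    ext i j
    rw [gram_entry]; rfl
  refine ⟨fun i j => ∑ k, K' i k * K' j k, ⟨?_, ?_, ?_, ?_⟩, ?_⟩
  · intro i
    have := gram_diag hK' i
    push_cast at this
    exact this
  · intro i j
    exact Finset.sum_congr rfl fun k _ => mul_comm _ _
  · intro i j _
    have h1 := gram_mod hK' i j
    have h2 := hs i
    have h3 := hs j
    push_cast at h1
    generalize ∑ k, K' i k * K' j k = x at *
    generalize ∑ k, K' i k = y at *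
    generalize ∑ k, K' j k = z at *
    omega
  · have h1 := gram_posDef K' hne
    rw [hrm] at h1
    exact h1
  · rw [← hrm, gram_det, hdet']
    generalize (Helper67.Cube.maxDet 6 : ℝ) = x
    norm_num

lemma aux10 {x : ℝ} (h1 : ((10 : ℕ) : ℝ) ≤ x) (h2 : 4096 * x ^ 2 ≤ 407808) : False := by
  push_cast at h1
  nlinarith

/-- a 0/1 matrix of order 6 has determinant at most 9 -/
theorem maxDet_6_le' : Helper67.Cube.maxDet 6 ≤ 9 := by
  by_cases h0 : Helper67.Cube.maxDet 6 = 0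
  · omega
  obtain ⟨g, hg, hdet⟩ := exists_G7 h0
  have h := hg.main
  rw [hdet] at h
  by_contra hc
  push Not at hc
  have h1 : ((10 : ℕ) : ℝ) ≤ (Helper67.Cube.maxDet 6 : ℝ) := Nat.cast_le.mpr hc
  exact aux10 h1 h

end Helper41.Barba.O7
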