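import Pool.Agent.Helper41.AC
import Pool.Agent.Helper41.Order7

/-!
# Covers of the cubes of dimension 6, ..., 12 by arbitrary simplices
-/

set_option autoImplicit false

namespace Helper41.AC

open Helper67.Cube Helper67.BS

/-- upper bounds for the largest determinants of 0/1 matrices -/
def VA : ℕ → ℕ
  | 0 => 1
  | 1 => 1
  | 2 => 1
  | 3 => 2
  | 4 => 3
  | 5 => 5
  | 6 => 9
  | 7 => 32
  | 8 => 56
  | 9 => 144
  | 10 => 447
  | 11 => 1458
  | _ => 3645

theorem VA_le : ∀ i ≤ 12, maxDet i ≤ VA i := by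
  intro i hi
  interval_cases i
  · exact maxDet_zero
  · exact maxDet_one
  · exact maxDet_two
  · exact maxDet_three
  · exact maxDet_four
  · exact Helper41.Barba.maxDet_5_le
  · exact Helper41.Barba.O7.maxDet_6_le'
  · exact Helper41.Barba.maxDet_7_le
  · exact Helper41.Barba.maxDet_8_le'
  · exact Helper41.Barba.maxDet_9_le
  · exact Helper41.Barba.maxDet_10_le
  · exact Helper41.Barba.maxDet_11_le
  · exact Helper41.Barba.maxDet_12_le

theorem VA_mono : ∀ i < 12, VA i ≤ VA (i+1) := by decide

/-- a coefficient list as a function -/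
def cf (l : List ℚ) (i : ℕ) : ℚ := l.getD i 0

def c6 : ℕ → ℚ := cf [2/25, 3/25, 1/150]

theorem six {N : ℕ} {W : Fin N → Fin 7 → Fin 6 → ℝ} (hW : IsCover W) : 250 ≤ N :=
  boundA (t := 4) (V := VA) (c := c6) (fun i hi => VA_le i (by omega))
    (fun i hi => VA_mono i (by omega)) (by decide +kernel) (by decide +kernel)
    (B := 250) (by decide +kernel) hW

def c7 : ℕ → ℚ := cf [1/32, 103/1400, 121/11200]

theorem seven {N : ℕ} {W : Fin N → Fin 8 → Fin 7 → ℝ} (hW : IsCover W) : 1117 ≤ N :=
  boundA (t := 5) (V := VA) (c := c7) (fun i hi => VA_le i (by omega))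
    (fun i hi => VA_mono i (by omega)) (by decide +kernel) (by decide +kernel)
    (B := 1117) (by decide +kernel) hW

def c8 : ℕ → ℚ := cf [0, 1/32, 3/224]

theorem eight {N : ℕ} {W : Fin N → Fin 9 → Fin 8 → ℝ} (hW : IsCover W) : 4680 ≤ N :=
  boundA (t := 6) (V := VA) (c := c8) (fun i hi => VA_le i (by omega))
    (fun i hi => VA_mono i (by omega)) (by decide +kernel) (by decide +kernel)
    (B := 4680) (by decide +kernel) hW

def c9 : ℕ → ℚ := cf [1/280, 0, 31/2240]

theorem nine {N : ℕ} {W : Fin N → Fin 10 → Fin 9 → ℝ} (hW : IsCover W) : 21384 ≤ N :=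
  boundA (t := 7) (V := VA) (c := c9) (fun i hi => VA_le i (by omega))
    (fun i hi => VA_mono i (by omega)) (by decide +kernel) (by decide +kernel)
    (B := 21384) (by decide +kernel) hW

def c10 : ℕ → ℚ := cf [1/447, 101/21456, 8971/6758640, 31211/27034560]

theorem ten {N : ℕ} {W : Fin N → Fin 11 → Fin 10 → ℝ} (hW : IsCover W) : 95064 ≤ N :=
  boundA (t := 8) (V := VA) (c := c10) (fun i hi => VA_le i (by omega))
    (fun i hi => VA_mono i (by omega)) (by decide +kernel) (by decide +kernel)
    (B := 95064) (by decide +kernel) hW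

def c11 : ℕ → ℚ := cf [1/1458, 337/217242, 5485/3475872, 1973/13939695, 903691/10705685760]

theorem eleven {N : ℕ} {W : Fin N → Fin 12 → Fin 11 → ℝ} (hW : IsCover W) : 502289 ≤ N :=
  boundA (t := 9) (V := VA) (c := c11) (fun i hi => VA_le i (by omega))
    (fun i hi => VA_mono i (by omega)) (by decide +kernel) (by decide +kernel)
    (B := 502289) (by decide +kernel) hW

def c12 : ℕ → ℚ := cf
  [1/3645, 759593/4105873800, 3269887/4105873800,
   3658981/16423495200, 0, 827119/131387961600]

theorem twelve {N : ℕ} {W : Fin N → Fin 13 → Fin 12 → ℝ} (hW : IsCover W) : 2784765 ≤ N :=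
  boundA (t := 10) (V := VA) (c := c12) (fun i hi => VA_le i (by omega))
    (fun i hi => VA_mono i (by omega)) (by decide +kernel) (by decide +kernel)
    (B := 2784765) (by decide +kernel) hW

end Helper41.AC
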