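import Pool.Agent.Helper67.CubeHad

/-!
# Determinant bounds of Barba and Ehlich-Wojtas for 0/1 matrices
-/

namespace Helper41.Barba

open Matrix
open scoped MatrixOrder ComplexOrder

lemma det_one_add {ι : Type} [Fintype ι] [DecidableEq ι] {C : Matrix ι ι ℝ}
    (hC : C.PosSemidef) : 1 ≤ (1 + C).det := by
  have hH : (1 + C).IsHermitian := Matrix.isHermitian_one.add hC.1
  rw [hH.det_eq_prod_eigenvalues]
  have h1 : ∀ i, 1 ≤ hH.eigenvalues i := by
    intro i
    rw [hH.eigenvalues_eq]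
    have h2 := hC.dotProduct_mulVec_nonneg (⇑(hH.eigenvectorBasis i))
    have h3 : (star ⇑(hH.eigenvectorBasis i)) ⬝ᵥ (⇑(hH.eigenvectorBasis i)) = (1 : ℝ) := by
      have := hH.eigenvectorBasis.orthonormal.1 i
      rw [dotProduct_comm, ← EuclideanSpace.inner_eq_star_dotProduct]
      rw [real_inner_self_eq_norm_sq, this]; norm_num
    rw [add_mulVec, one_mulVec, dotProduct_add, h3]
    simpa using h2
  have := Finset.prod_le_prod (s := Finset.univ) (f := fun _ => (1:ℝ))
    (g := fun i => hH.eigenvalues i) (fun _ _ => zero_le_one) (fun i _ => h1 i)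
  simpa using this

lemma det_mono {ι : Type} [Fintype ι] [DecidableEq ι] {S T : Matrix ι ι ℝ}
    (hS : S.PosSemidef) (hT : T.PosSemidef) : S.det ≤ (S + T).det := by
  obtain ⟨R, hR⟩ := CStarAlgebra.nonneg_iff_eq_star_mul_self.mp hS.nonneg
  rw [star_eq_conjTranspose] at hR
  have e1 : S.det = R.det ^ 2 := by
    rw [hR, det_mul, det_conjTranspose]; simp [sq]
  by_cases h0 : R.det = 0
  · rw [e1, h0]; simpa using (hS.add hT).det_nonneg
  · have hu : IsUnit R.det := isUnit_iff_ne_zero.mpr h0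
    have e2 : S + T = Rᴴ * (1 + (R⁻¹)ᴴ * T * R⁻¹) * R := by
      rw [hR, mul_add, add_mul, mul_one]
      congr 1
      rw [show Rᴴ * ((R⁻¹)ᴴ * T * R⁻¹) * R = (Rᴴ * (R⁻¹)ᴴ) * T * (R⁻¹ * R) by
        simp only [Matrix.mul_assoc]]
      rw [← conjTranspose_mul, nonsing_inv_mul _ hu, conjTranspose_one, one_mul, mul_one]
    rw [e2, det_mul, det_mul, det_conjTranspose, e1]
    have h := det_one_add (hT.conjTranspose_mul_mul_same (R⁻¹))
    simp only [star_trivial]
    nlinarith [sq_nonneg R.det]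

/-- Hadamard's inequality for positive semidefinite matrices -/
lemma had_psd {n : ℕ} {H : Matrix (Fin n) (Fin n) ℝ} (hH : H.PosSemidef) :
    H.det ≤ ∏ i, H i i := by
  obtain ⟨B, hB⟩ := CStarAlgebra.nonneg_iff_eq_star_mul_self.mp hH.nonneg
  have h := Helper67.Cube.abs_det_le_prod Bᵀ
  rw [det_transpose] at h
  have h2 : |B.det| ^ 2 ≤ (∏ i, Real.sqrt (∑ j, Bᵀ i j ^ 2)) ^ 2 :=
    pow_le_pow_left₀ (abs_nonneg _) h 2
  rw [sq_abs, ← Finset.prod_pow] at h2
  have e1 : H.det = B.det ^ 2 := by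
    rw [hB, star_eq_conjTranspose, det_mul, det_conjTranspose]; simp [sq]
  rw [e1]
  refine h2.trans (le_of_eq (Finset.prod_congr rfl fun i _ => ?_))
  rw [Real.sq_sqrt (by positivity), hB, star_eq_conjTranspose, mul_apply]
  refine Finset.sum_congr rfl fun j _ => ?_
  simp [sq]

lemma had_psd' {ι : Type} [Fintype ι] [DecidableEq ι] {H : Matrix ι ι ℝ} (hH : H.PosSemidef) :
    H.det ≤ ∏ i, H i i := by
  have e := Fintype.equivFin ι
  have h := had_psd (hH.submatrix e.symm)
  rw [det_submatrix_equiv_self] at h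
  refine h.trans (le_of_eq ?_)
  exact Equiv.prod_comp e.symm (fun i => H i i)

lemma fischer {m k : Type} [Fintype m] [Fintype k] [DecidableEq m] [DecidableEq k]
    {A : Matrix m m ℝ} {B : Matrix m k ℝ} {D : Matrix k k ℝ}
    (h : (fromBlocks A B Bᴴ D).PosDef) : (fromBlocks A B Bᴴ D).det ≤ A.det * D.det := by
  have hA : A.PosDef := h.submatrix Sum.inl_injective
  let _ : Invertible A := hA.isUnit.invertible
  have hS := (PosDef.fromBlocks₁₁ B D hA).mp h.posSemidef
  have hT : (Bᴴ * A⁻¹ * B).PosSemidef := hA.inv.posSemidef.conjTranspose_mul_mul_same B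
  have h1 := det_mono hS hT
  rw [sub_add_cancel] at h1
  rw [det_fromBlocks₁₁, invOf_eq_nonsing_inv]
  exact mul_le_mul_of_nonneg_left h1 hA.det_pos.le

lemma peel {n t : ℝ} (ht : 0 < t) (htn : t ≤ n) {α κ : Type} [Unique α] [Fintype α]
    [DecidableEq α] [Fintype κ] [DecidableEq κ]
    {A : Matrix α α ℝ} {B : Matrix α κ ℝ} {D : Matrix κ κ ℝ}
    (hD : D.PosDef) (hA : A default default = n) (hDd : ∀ j, D j j = n)
    (hB : ∀ j, t ≤ |B default j|) :
    (fromBlocks A B Bᴴ D).det ≤ (n - t) * D.det + t * (n - t) ^ Fintype.card κ := by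
  let _ : Invertible D := hD.isUnit.invertible
  have hdet := hD.det_pos
  have hnt : 0 ≤ n - t := by linarith
  rw [det_fromBlocks₂₂, det_unique (A - _), invOf_eq_nonsing_inv, Matrix.sub_apply, hA]
  set q := (B * D⁻¹ * Bᴴ) default default with hq
  by_cases hqt : t - q ≤ 0
  · have h1 : 0 ≤ t * (n - t) ^ Fintype.card κ := by positivity
    nlinarith
  · push Not at hqt
    have hA0 : (t • (1 : Matrix α α ℝ)).PosDef := PosDef.one.smul ht
    let _ : Invertible (t • (1 : Matrix α α ℝ)) := hA0.isUnit.invertible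
    have hinv : (t • (1 : Matrix α α ℝ))⁻¹ = t⁻¹ • (1 : Matrix α α ℝ) := by
      refine inv_eq_right_inv ?_
      rw [smul_mul_smul_comm, mul_one, mul_inv_cancel₀ ht.ne', one_smul]
    have h0 : ((t • (1 : Matrix α α ℝ)) - B * D⁻¹ * Bᴴ).PosSemidef := by
      have : (t • (1 : Matrix α α ℝ)) - B * D⁻¹ * Bᴴ = diagonal fun _ => t - q := by
        ext i j
        obtain rfl := Subsingleton.elim i default
        obtain rfl := Subsingleton.elim j default
        simp [hq]
      rw [this]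
      exact PosSemidef.diagonal (fun _ => hqt.le)
    have h1 := (PosDef.fromBlocks₂₂ (t • (1 : Matrix α α ℝ)) B hD).mpr h0
    have h2 := (PosDef.fromBlocks₁₁ B D hA0).mp h1
    have h3 : D.det * (t - q) = t * (D - Bᴴ * (t • (1 : Matrix α α ℝ))⁻¹ * B).det := by
      have e1 := det_fromBlocks₂₂ (t • (1 : Matrix α α ℝ)) B Bᴴ D
      have e2 := det_fromBlocks₁₁ (t • (1 : Matrix α α ℝ)) B Bᴴ D
      rw [e1, det_unique (t • (1 : Matrix α α ℝ) - _), det_unique (t • (1 : Matrix α α ℝ)),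
        invOf_eq_nonsing_inv, invOf_eq_nonsing_inv] at e2
      simpa [hq] using e2
    have h4 := had_psd' h2
    have h5 : ∏ j, (D - Bᴴ * (t • (1 : Matrix α α ℝ))⁻¹ * B) j j ≤ (n - t) ^ Fintype.card κ := by
      rw [Fintype.card, ← Finset.prod_const]
      refine Finset.prod_le_prod (fun j _ => h2.diag_nonneg) fun j _ => ?_
      rw [Matrix.sub_apply, hDd, hinv]
      have : (Bᴴ * t⁻¹ • (1 : Matrix α α ℝ) * B) j j = t⁻¹ * (B default j) ^ 2 := by
        simp [mul_apply, sq]
        ring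
      rw [this]
      have h6 : t ^ 2 ≤ (B default j) ^ 2 := by
        rw [← sq_abs (B default j)]
        exact pow_le_pow_left₀ ht.le (hB j) 2
      have h7 : t ≤ t⁻¹ * (B default j) ^ 2 := by
        rw [inv_mul_eq_div, le_div_iff₀ ht]; nlinarith
      linarith
    have h6 : D.det * (t - q) ≤ t * (n - t) ^ Fintype.card κ := by
      rw [h3]; exact mul_le_mul_of_nonneg_left (h4.trans h5) ht.le
    nlinarith

/-- Barba's lemma -/
theorem lemB {n t : ℝ} (ht : 0 < t) (htn : t ≤ n) (m : ℕ) :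
    ∀ {ι : Type} [Fintype ι] [DecidableEq ι] (G : Matrix ι ι ℝ), Fintype.card ι = m + 1 →
      G.PosDef → (∀ i, G i i = n) → (∀ i j, i ≠ j → t ≤ |G i j|) →
      G.det ≤ (n - t) ^ m * (n + t * m) := by
  induction m with
  | zero =>
    intro ι _ _ G hc hG hd ho
    obtain ⟨u⟩ := Fintype.card_eq_one_iff_nonempty_unique.mp hc
    rw [det_unique, hd]; simp
  | succ m ih =>
    intro ι _ _ G hc hG hd ho
    have hne : Nonempty ι := Fintype.card_pos_iff.mp (by omega)
    obtain ⟨i0⟩ := hne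
    set e := Equiv.sumCompl (fun j => j = i0) with he
    set H := G.submatrix e e with hH
    have hHp : H.PosDef := hG.submatrix e.injective
    have hdet : H.det = G.det := det_submatrix_equiv_self e G
    have hblk : H = fromBlocks H.toBlocks₁₁ H.toBlocks₁₂ H.toBlocks₁₂ᴴ H.toBlocks₂₂ := by
      conv_lhs => rw [← fromBlocks_toBlocks H]
      congr 1
      ext i j
      have := hHp.isHermitian.apply (Sum.inr i) (Sum.inl j)
      simpa [toBlocks₂₁, toBlocks₁₂] using this.symm
    have hD : H.toBlocks₂₂.PosDef := hHp.submatrix Sum.inr_injective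
    have hcard : Fintype.card {j // ¬ j = i0} = m + 1 := by
      rw [Fintype.card_subtype_compl, hc]; simp
    have h1 := ih H.toBlocks₂₂ hcard hD (fun i => by simp [toBlocks₂₂, hH, hd])
      (fun i j hij => by
        simp only [toBlocks₂₂, hH, submatrix_apply, of_apply]
        exact ho _ _ (fun h => hij (Subtype.ext (by simpa [he] using h))))
    have h2 := peel (n := n) ht htn (A := H.toBlocks₁₁) (B := H.toBlocks₁₂) hD
      (by simp [toBlocks₁₁, hH, hd]) (fun i => by simp [toBlocks₂₂, hH, hd])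
      (fun j => by
        simp only [toBlocks₁₂, hH, submatrix_apply, of_apply]
        exact ho _ _ (fun h => by
          have := e.injective h
          simp at this))
    rw [← hblk, hdet, hcard] at h2
    have hnt : 0 ≤ n - t := by linarith
    have h3 := mul_le_mul_of_nonneg_left h1 hnt
    push_cast
    calc G.det ≤ _ := h2
      _ ≤ (n - t) * ((n - t) ^ m * (n + t * m)) + t * (n - t) ^ (m + 1) := by linarith
      _ = _ := by ring

lemma lemB' {n t : ℝ} (ht : 0 < t) (htn : t ≤ n) {ι : Type} [Fintype ι] [DecidableEq ι]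
    (G : Matrix ι ι ℝ) (hG : G.PosDef) (hd : ∀ i, G i i = n) (ho : ∀ i j, i ≠ j → t ≤ |G i j|) :
    (n - t) * G.det ≤ (n - t) ^ Fintype.card ι * (n - t + t * Fintype.card ι) := by
  rcases Nat.eq_zero_or_pos (Fintype.card ι) with h0 | h0
  · have := Fintype.card_eq_zero_iff.mp h0
    rw [det_isEmpty, h0]; simp
  · obtain ⟨m, hm⟩ := Nat.exists_eq_succ_of_ne_zero h0.ne'
    have h1 := lemB ht htn m G hm hG hd ho
    have h2 := mul_le_mul_of_nonneg_left h1 (by linarith : 0 ≤ n - t)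
    refine h2.trans (le_of_eq ?_)
    rw [hm, Nat.succ_eq_add_one, pow_succ]; push_cast; ring

open Helper67.Cube

/-- the `±1` matrix of order `n + 1` attached to a 0/1 matrix of order `n` with the largest
determinant -/
lemma exists_pm (n : ℕ) : ∃ K : Matrix (Fin (n+1)) (Fin (n+1)) ℤ,
    (∀ i j, K i j = 1 ∨ K i j = -1) ∧ ((K.map (Int.cast : ℤ → ℝ)).det) ^ 2
      = 4 ^ n * (maxDet n : ℝ) ^ 2 := by
  classical
  obtain ⟨M, -, hM⟩ := Finset.exists_mem_eq_sup (s := Finset.univ)
    (f := fun M : Matrix (Fin n) (Fin n) Bool =>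
      (Matrix.of fun i j => if M i j then (1 : ℤ) else 0).det.natAbs)
      ⟨fun _ _ => false, Finset.mem_univ _⟩
  change maxDet n = _ at hM
  set D : ℤ := (Matrix.of fun i j => if M i j then (1 : ℤ) else 0).det with hD
  set w : Fin (n+1) → Fin n → ℝ := Fin.cons 0 (fun i j => if M i j then 1 else 0) with hw
  have hDw : (bord w).det = (D : ℝ) := by
    rw [det_bord, hD, Int.cast_det]
    congr 1
    ext i j
    simp [edge, hw]
  set K : Matrix (Fin (n+1)) (Fin (n+1)) ℝ := Matrix.of fun i => Fin.cons 1 (fun j => 2 * w i j - 1)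
    with hK
  have hKdet : K.det = 2 ^ n * (bord w).det := by
    have h1 : K.det = (Matrix.of fun i j =>
        (Fin.cons 1 (fun _ => 2) : Fin (n+1) → ℝ) j * bord w i j).det := by
      rw [← Matrix.det_transpose, ← Matrix.det_transpose (Matrix.of _)]
      refine Matrix.det_eq_of_forall_row_eq_smul_add_const
        (Fin.cons 0 (fun _ => -1)) 0 (by simp) ?_
      intro i j
      refine Fin.cases ?_ (fun i => ?_) i
      · simp [hK, bord]
      · simp [hK, bord]; ring
    rw [h1, Matrix.det_mul_row, Fin.prod_univ_succ]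
    simp
  let wZ : Fin (n+1) → Fin n → ℤ := Fin.cons 0 (fun i j => if M i j then 1 else 0)
  let KZ : Matrix (Fin (n+1)) (Fin (n+1)) ℤ := Matrix.of fun i =>
    Fin.cons 1 (fun j => 2 * wZ i j - 1)
  have hwZ : ∀ i j, wZ i j = 0 ∨ wZ i j = 1 := by
    intro i j
    refine Fin.cases ?_ (fun i => ?_) i
    · simp [wZ]
    · simp only [wZ, Fin.cons_succ]; split_ifs <;> simp
  have hmap : KZ.map (Int.cast : ℤ → ℝ) = K := by
    ext i j
    refine Fin.cases ?_ (fun j => ?_) j
    · simp [KZ, hK]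
    · refine Fin.cases ?_ (fun i => ?_) i
      · simp [KZ, hK, wZ, hw]
      · simp [KZ, hK, wZ, hw]
  refine ⟨KZ, ?_, ?_⟩
  · intro i j
    refine Fin.cases ?_ (fun j => ?_) j
    · simp [KZ]
    · simp only [KZ, Matrix.of_apply, Fin.cons_succ]
      rcases hwZ i j with h | h <;> rw [h] <;> norm_num
  · rw [hmap, hKdet, hDw, hM, mul_pow, ← pow_mul, mul_comm n 2, pow_mul]
    have : ((D.natAbs : ℕ) : ℝ) ^ 2 = (D : ℝ) ^ 2 := by
      rw [Nat.cast_natAbs, Int.cast_abs, sq_abs]
    rw [this]; norm_num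

/-- the Gram matrix of the rows -/
lemma gram_entry {N : ℕ} (K : Matrix (Fin N) (Fin N) ℤ) (i j : Fin N) :
    ((K.map (Int.cast : ℤ → ℝ)) * (K.map (Int.cast : ℤ → ℝ))ᴴ) i j
      = ((∑ k, K i k * K j k : ℤ) : ℝ) := by
  simp [mul_apply]

lemma gram_posDef {N : ℕ} (K : Matrix (Fin N) (Fin N) ℤ)
    (h : (K.map (Int.cast : ℤ → ℝ)).det ≠ 0) :
    ((K.map (Int.cast : ℤ → ℝ)) * (K.map (Int.cast : ℤ → ℝ))ᴴ).PosDef := by
  refine PosDef.mul_conjTranspose_self _ ?_
  exact vecMul_injective_iff_isUnit.mpr ((isUnit_iff_isUnit_det _).mpr (isUnit_iff_ne_zero.mpr h))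

lemma gram_det {N : ℕ} (K : Matrix (Fin N) (Fin N) ℤ) :
    ((K.map (Int.cast : ℤ → ℝ)) * (K.map (Int.cast : ℤ → ℝ))ᴴ).det
      = ((K.map (Int.cast : ℤ → ℝ)).det) ^ 2 := by
  rw [det_mul, det_conjTranspose]; simp [sq]

lemma gram_diag {N : ℕ} {K : Matrix (Fin N) (Fin N) ℤ} (hK : ∀ i j, K i j = 1 ∨ K i j = -1)
    (i : Fin N) : ∑ k, K i k * K i k = N := by
  have : ∀ k, K i k * K i k = 1 := by
    intro k; rcases hK i k with h | h <;> rw [h] <;> norm_num
  simp [this]

/-- `g_ij = s_i + s_j - N` modulo 4 -/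
lemma gram_mod {N : ℕ} {K : Matrix (Fin N) (Fin N) ℤ} (hK : ∀ i j, K i j = 1 ∨ K i j = -1)
    (i j : Fin N) : (4 : ℤ) ∣ ∑ k, K i k * K j k - (∑ k, K i k + ∑ k, K j k - N) := by
  have h : ∀ k, (4 : ℤ) ∣ (K i k - 1) * (K j k - 1) := by
    intro k
    rcases hK i k with h | h <;> rcases hK j k with h' | h' <;> rw [h, h'] <;> norm_num
  have h2 := Finset.dvd_sum (s := Finset.univ) (fun k _ => h k)
  have e : ∑ k, (K i k - 1) * (K j k - 1)
      = ∑ k, K i k * K j k - (∑ k, K i k + ∑ k, K j k - N) := by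
    have : ∀ k, (K i k - 1) * (K j k - 1) = K i k * K j k - (K i k + K j k - 1) := by
      intro k; ring
    simp only [this, Finset.sum_sub_distrib, Finset.sum_add_distrib]
    simp
  rwa [e] at h2

lemma row_mod {N : ℕ} {K : Matrix (Fin N) (Fin N) ℤ} (hK : ∀ i j, K i j = 1 ∨ K i j = -1)
    (i : Fin N) : (2 : ℤ) ∣ ∑ k, K i k - N := by
  have h : ∀ k, (2 : ℤ) ∣ (K i k - 1) := by
    intro k
    rcases hK i k with h | h <;> rw [h] <;> norm_num
  have h2 := Finset.dvd_sum (s := Finset.univ) (fun k _ => h k)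
  have e : ∑ k, (K i k - 1) = ∑ k, K i k - N := by
    simp only [Finset.sum_sub_distrib]
    simp
  rwa [e] at h2

/-- Barba's bound -/
theorem barba {n : ℕ} (hn : Even n) (hn1 : 1 ≤ n) :
    4 ^ n * (maxDet n) ^ 2 ≤ n ^ n * (2 * n + 1) := by
  obtain ⟨K, hK, hdet⟩ := exists_pm n
  rcases Nat.eq_zero_or_pos (maxDet n) with h0 | h0
  · rw [h0]; simp
  have hne : (K.map (Int.cast : ℤ → ℝ)).det ≠ 0 := by
    intro h
    rw [h] at hdet
    have : (0:ℝ) < 4 ^ n * (maxDet n : ℝ) ^ 2 := by positivity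
    rw [← hdet] at this
    norm_num at this
  have h1 := lemB (n := (n : ℝ) + 1) (t := 1) one_pos (by simp) n _ (by simp) (gram_posDef K hne)
    (fun i => by rw [gram_entry, gram_diag hK]; push_cast; ring)
    (fun i j hij => by
      rw [gram_entry]
      have h2 := gram_mod hK i j
      have h3 := row_mod hK i
      have h4 := row_mod hK j
      obtain ⟨c, hc⟩ := hn
      have h5 : (∑ k, K i k * K j k) ≠ 0 := by
        intro h6
        rw [h6] at h2
        push_cast at h2 h3 h4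
        omega
      have h6 : (1 : ℤ) ≤ |∑ k, K i k * K j k| := Int.one_le_abs h5
      exact_mod_cast h6)
  rw [gram_det, hdet] at h1
  have h2 : ((4 ^ n * maxDet n ^ 2 : ℕ) : ℝ) ≤ ((n ^ n * (2 * n + 1) : ℕ) : ℝ) := by
    push_cast
    refine h1.trans (le_of_eq ?_)
    ring
  exact_mod_cast h2

lemma maxDet_le_of_barba (n v : ℕ) (hn : Even n) (hn1 : 1 ≤ n)
    (h : n ^ n * (2 * n + 1) < 4 ^ n * (v+1) ^ 2) : maxDet n ≤ v := by
  by_contra hcon
  push Not at hcon
  have h1 := barba hn hn1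
  have h2 : (v+1) ^ 2 ≤ (maxDet n) ^ 2 := Nat.pow_le_pow_left hcon 2
  have h3 : 4 ^ n * (v+1) ^ 2 ≤ 4 ^ n * (maxDet n) ^ 2 := Nat.mul_le_mul_left _ h2
  omega

theorem maxDet_8_le : maxDet 8 ≤ 65 := maxDet_le_of_barba _ _ (by decide) (by norm_num) (by norm_num)
theorem maxDet_10_le : maxDet 10 ≤ 447 :=
  maxDet_le_of_barba _ _ (by decide) (by norm_num) (by norm_num)
theorem maxDet_12_le : maxDet 12 ≤ 3645 :=
  maxDet_le_of_barba _ _ (by decide) (by norm_num) (by norm_num)

end Helper41.Barba
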