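import Pool.Agent.Helper41.EhlichWojtas

namespace Helper41.Barba

open Helper67.Cube

theorem maxDet_6_le : maxDet 6 ≤ 12 := maxDet_le_of_barba _ _ (by decide) (by norm_num) (by norm_num)
theorem maxDet_5_le : maxDet 5 ≤ 5 :=
  maxDet_le_of_ehlich_wojtas _ _ (by norm_num) (by norm_num) (by norm_num)
theorem maxDet_7_le : maxDet 7 ≤ 32 := maxDet_le_of _ _ (by norm_num)
theorem maxDet_11_le : maxDet 11 ≤ 1458 := maxDet_le_of _ _ (by norm_num)

end Helper41.Barba
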