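import Mathlib

set_option autoImplicit false

namespace Pool.Agent.Helper41.Boot

/-- One round of the `H`-process: every pair `e` of distinct vertices with
`n_H(G + e) > n_H(G)` is added to `G` (`copyCount` counts the subgraphs isomorphic to `H`). -/
noncomputable def step {W V : Type*} [Fintype V] (H : SimpleGraph W) (G : SimpleGraph V) :
    SimpleGraph V :=
  G ⊔ SimpleGraph.fromEdgeSet
    {e | G.copyCount H < (G ⊔ SimpleGraph.fromEdgeSet {e}).copyCount H}

/-- The graph `G_i` of the `H`-process on `G`. -/
noncomputable def proc {W V : Type*} [Fintype V] (H : SimpleGraph W) (G : SimpleGraph V) (i : ℕ) :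
    SimpleGraph V :=
  (step H)^[i] G

/-- The running time of the `H`-process on `G`. -/
noncomputable def runTime {W V : Type*} [Fintype V] (H : SimpleGraph W) (G : SimpleGraph V) : ℕ :=
  sInf {t : ℕ | proc H G t = proc H G (t + 1)}

/-- The maximum running time `M_H(n)` of the `H`-process on `n` vertices. -/
noncomputable def maxRun {W : Type*} (H : SimpleGraph W) (n : ℕ) : ℕ :=
  sSup (Set.range fun G : SimpleGraph (Fin n) => runTime H G)

end Pool.Agent.Helper41.Boot
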