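import Mathlib
import Pool.Agent.Helper41.BootDefs

set_option autoImplicit false

namespace Pool.Agent.Helper41.Boot

variable {W V U : Type*}

/-- `x y` is the only missing edge of some copy of `H` in `G`. -/
def Completes (H : SimpleGraph W) (G : SimpleGraph V) (x y : V) : Prop :=
  ∃ f : W ↪ V, (∀ a b, H.Adj a b → G.Adj (f a) (f b) ∨ s(f a, f b) = s(x, y)) ∧
    ∃ a b, H.Adj a b ∧ s(f a, f b) = s(x, y)

/-- The inclusion of the subgraphs of `G` into those of a larger graph. -/
def subIncl {G G' : SimpleGraph V} (h : G ≤ G') (S : G.Subgraph) : G'.Subgraph where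
  verts := S.verts
  Adj := S.Adj
  adj_sub := fun hS => h (S.adj_sub hS)
  edge_vert := S.edge_vert
  symm := S.symm

theorem subIncl_injective {G G' : SimpleGraph V} (h : G ≤ G') :
    Function.Injective (subIncl h) := by
  intro S T hST
  have h1 : (subIncl h S).verts = (subIncl h T).verts := by rw [hST]
  have h2 : (subIncl h S).Adj = (subIncl h T).Adj := by rw [hST]
  exact SimpleGraph.Subgraph.ext h1 h2

theorem copyCount_eq [Fintype V] (H : SimpleGraph W) (G : SimpleGraph V) :
    G.copyCount H = {S : G.Subgraph | Nonempty (H ≃g S.coe)}.ncard := by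
  classical
  rw [SimpleGraph.copyCount, ← Set.ncard_coe_finset]
  congr 1
  ext S
  simp

theorem copyCount_lt_iff [Fintype V] (H : SimpleGraph W) (G : SimpleGraph V) {x y : V}
    (hxy : x ≠ y) (hG : ¬ G.Adj x y) :
    G.copyCount H < (G ⊔ SimpleGraph.fromEdgeSet {s(x, y)}).copyCount H ↔ Completes H G x y := by
  classical
  obtain ⟨G', hG'⟩ : ∃ G', G' = G ⊔ SimpleGraph.fromEdgeSet {s(x, y)} := ⟨_, rfl⟩
  rw [← hG', copyCount_eq, copyCount_eq]
  have hle : G ≤ G' := hG' ▸ le_sup_left
  have hadj : ∀ a b, G'.Adj a b ↔ G.Adj a b ∨ s(a, b) = s(x, y) := by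
    intro a b
    simp only [hG', SimpleGraph.sup_adj, SimpleGraph.fromEdgeSet_adj, Set.mem_singleton_iff]
    constructor
    · rintro (h | ⟨h, -⟩)
      · exact Or.inl h
      · exact Or.inr h
    · rintro (h | h)
      · exact Or.inl h
      · refine Or.inr ⟨h, ?_⟩
        rintro rfl
        rw [Sym2.eq_iff] at h
        rcases h with ⟨h1, h2⟩ | ⟨h1, h2⟩
        · exact hxy (h1.symm.trans h2)
        · exact hxy (h2.symm.trans h1)
  clear hG'
  have hfin : {S : G'.Subgraph | Nonempty (H ≃g S.coe)}.Finite := Set.toFinite _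
  have himg : subIncl hle '' {S : G.Subgraph | Nonempty (H ≃g S.coe)} ⊆
      {S : G'.Subgraph | Nonempty (H ≃g S.coe)} := by
    rintro _ ⟨T, ⟨e⟩, rfl⟩
    exact ⟨e⟩
  rw [← Set.ncard_image_of_injective _ (subIncl_injective hle)]
  constructor
  · intro hlt
    have : ∃ S : G'.Subgraph, Nonempty (H ≃g S.coe) ∧ ∀ T : G.Subgraph, subIncl hle T ≠ S := by
      by_contra hcon
      push Not at hcon
      refine absurd hlt (not_lt.2 (Set.ncard_le_ncard ?_ (hfin.subset himg)))
      intro S hS
      obtain ⟨T, hT⟩ := hcon S hS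
      refine ⟨T, ?_, hT⟩
      obtain ⟨e⟩ := hS
      subst hT
      exact ⟨e⟩
    obtain ⟨S, ⟨e⟩, hS⟩ := this
    refine ⟨e.toEquiv.toEmbedding.trans (Function.Embedding.subtype _), ?_, ?_⟩
    · intro a b hab
      have : S.Adj (e a) (e b) := by
        have := (e.map_rel_iff (a := a) (b := b)).2 hab
        simpa using this
      exact (hadj _ _).1 (S.adj_sub this)
    · by_contra hcon
      push Not at hcon
      have hsub : ∀ a b, S.Adj a b → G.Adj a b := by
        intro a b hab
        rcases (hadj _ _).1 (S.adj_sub hab) with h | h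
        · exact h
        · exfalso
          have ha : a ∈ S.verts := S.edge_vert hab
          have hb : b ∈ S.verts := S.edge_vert hab.symm
          have hH : H.Adj (e.symm ⟨a, ha⟩) (e.symm ⟨b, hb⟩) := by
            rw [← e.map_rel_iff]
            simpa using hab
          apply hcon _ _ hH
          simpa using h
      exact hS ⟨S.verts, S.Adj, fun h => hsub _ _ h, S.edge_vert, S.symm⟩ rfl
  · rintro ⟨f, hf, a₀, b₀, hab₀, he₀⟩
    refine Set.ncard_lt_ncard ⟨himg, ?_⟩ hfin
    intro hsub
    obtain ⟨S, hSv, hSa⟩ : ∃ S : G'.Subgraph, S.verts = Set.range f ∧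
        ∀ u v, S.Adj u v ↔ ∃ a b, H.Adj a b ∧ f a = u ∧ f b = v :=
      ⟨{ verts := Set.range f
         Adj := fun u v => ∃ a b, H.Adj a b ∧ f a = u ∧ f b = v
         adj_sub := by
          rintro _ _ ⟨a, b, hab, rfl, rfl⟩
          exact (hadj _ _).2 (hf a b hab)
         edge_vert := by
          rintro _ _ ⟨a, b, hab, rfl, rfl⟩
          exact ⟨a, rfl⟩
         symm := by
          constructor
          rintro _ _ ⟨a, b, hab, rfl, rfl⟩
          exact ⟨b, a, hab.symm, rfl, rfl⟩ }, rfl, fun _ _ => Iff.rfl⟩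
    have hS : Nonempty (H ≃g S.coe) := by
      refine ⟨⟨(Equiv.ofInjective f f.injective).trans (Equiv.setCongr hSv.symm), ?_⟩⟩
      intro a b
      rw [SimpleGraph.Subgraph.coe_adj, hSa]
      constructor
      · rintro ⟨a', b', h, h1, h2⟩
        have e1 : a' = a := f.injective h1
        have e2 : b' = b := f.injective h2
        rwa [e1, e2] at h
      · intro h
        exact ⟨a, b, h, rfl, rfl⟩
    obtain ⟨T, -, hT⟩ := hsub hS
    have hadjS : S.Adj (f a₀) (f b₀) := (hSa _ _).2 ⟨a₀, b₀, hab₀, rfl, rfl⟩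
    have hadjT : T.Adj (f a₀) (f b₀) := by
      rw [← hT] at hadjS
      exact hadjS
    have hGadj := T.adj_sub hadjT
    apply hG
    rw [← SimpleGraph.mem_edgeSet, ← he₀, SimpleGraph.mem_edgeSet]
    exact hGadj

theorem step_adj [Fintype V] (H : SimpleGraph W) (G : SimpleGraph V) (x y : V) :
    (step H G).Adj x y ↔ G.Adj x y ∨ (x ≠ y ∧ Completes H G x y) := by
  rw [step, SimpleGraph.sup_adj, SimpleGraph.fromEdgeSet_adj, Set.mem_ofPred_eq]
  by_cases hG : G.Adj x y
  · simp [hG]
  by_cases hxy : x = y
  · simp [hxy]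
  rw [copyCount_lt_iff H G hxy hG]
  simp [hG, hxy]

theorem le_step [Fintype V] (H : SimpleGraph W) (G : SimpleGraph V) : G ≤ step H G :=
  le_sup_left

theorem proc_zero [Fintype V] (H : SimpleGraph W) (G : SimpleGraph V) : proc H G 0 = G := rfl

theorem proc_succ [Fintype V] (H : SimpleGraph W) (G : SimpleGraph V) (i : ℕ) :
    proc H G (i + 1) = step H (proc H G i) := by
  simp only [proc, Function.iterate_succ_apply']

theorem proc_le_succ [Fintype V] (H : SimpleGraph W) (G : SimpleGraph V) (i : ℕ) :
    proc H G i ≤ proc H G (i + 1) := by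
  rw [proc_succ]; exact le_step _ _

theorem proc_mono [Fintype V] (H : SimpleGraph W) (G : SimpleGraph V) {i j : ℕ} (hij : i ≤ j) :
    proc H G i ≤ proc H G j :=
  monotone_nat_of_le_succ (fun i => proc_le_succ H G i) hij

theorem proc_stable [Fintype V] (H : SimpleGraph W) (G : SimpleGraph V) {r : ℕ}
    (hr : proc H G r = proc H G (r + 1)) {t : ℕ} (ht : r ≤ t) : proc H G t = proc H G r := by
  induction t, ht using Nat.le_induction with
  | base => rfl
  | succ t ht ih => rw [proc_succ, ih, ← proc_succ, ← hr]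

theorem exists_stable [Fintype V] (H : SimpleGraph W) (G : SimpleGraph V) :
    ∃ t, proc H G t = proc H G (t + 1) := by
  by_contra hcon
  push Not at hcon
  have hs : StrictMono (fun i => proc H G i) :=
    strictMono_nat_of_lt_succ fun i => lt_of_le_of_ne (proc_le_succ H G i) (hcon i)
  have : Finite (SimpleGraph V) := inferInstance
  exact not_injective_infinite_finite _ hs.injective

theorem runTime_spec [Fintype V] (H : SimpleGraph W) (G : SimpleGraph V) :
    proc H G (runTime H G) = proc H G (runTime H G + 1) :=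
  Nat.sInf_mem (s := {t : ℕ | proc H G t = proc H G (t + 1)}) (exists_stable H G)

/-- An edge which appears exactly in round `T + 1` forces the running time to be at least
`T + 1`. -/
theorem lt_runTime [Fintype V] (H : SimpleGraph W) (G : SimpleGraph V) {T : ℕ} {x y : V}
    (h1 : (proc H G (T + 1)).Adj x y) (h0 : ¬ (proc H G T).Adj x y) : T + 1 ≤ runTime H G := by
  by_contra hcon
  push Not at hcon
  have hT : runTime H G ≤ T := by omega
  have e1 := proc_stable H G (runTime_spec H G) hT
  have e2 := proc_stable H G (runTime_spec H G) (Nat.le_succ_of_le hT)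
  apply h0
  rw [e1, ← e2]
  exact h1

/-- The process on an induced subgraph is contained in the process on the whole graph. -/
theorem proc_comap_le [Fintype V] [Fintype U] (H : SimpleGraph W) (G : SimpleGraph V) (ι : U ↪ V) (T : ℕ) :
    ∀ u v, (proc H (G.comap ι) T).Adj u v → (proc H G T).Adj (ι u) (ι v) := by
  induction T with
  | zero => intro u v h; exact h
  | succ T ih =>
    intro u v h
    rw [proc_succ, step_adj] at h ⊢
    rcases h with h | ⟨huv, f, hf, a, b, hab, he⟩
    · exact Or.inl (ih u v h)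
    · refine Or.inr ⟨fun h => huv (ι.injective h), f.trans ι, ?_, a, b, hab, ?_⟩
      · intro a b hab
        rcases hf a b hab with h | h
        · exact Or.inl (ih _ _ h)
        · right
          have := congrArg (Sym2.map ι) h
          simpa using this
      · have := congrArg (Sym2.map ι) he
        simpa using this

/-- Every edge present after `T` rounds depends on few vertices only. -/
theorem exists_support [Fintype W] [Fintype V] [DecidableEq V] (H : SimpleGraph W) (G : SimpleGraph V)
    (K : ℕ) (hK : Fintype.card W * Fintype.card W + Fintype.card W + 2 = K) (T : ℕ) :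
    ∀ x y, (proc H G T).Adj x y → ∃ S : Finset V, S.card ≤ K ^ T ∧
      ∀ (U : Type) (_ : Fintype U) (ι : U ↪ V), (↑S ⊆ Set.range ι) → ∀ u v, ι u = x → ι v = y →
        (proc H (G.comap ι) T).Adj u v := by
  induction T with
  | zero =>
    intro x y h
    refine ⟨∅, by simp, ?_⟩
    rintro U _ ι - u v rfl rfl
    exact h
  | succ T ih =>
    intro x y h
    rw [proc_succ, step_adj] at h
    rcases h with h | ⟨hxy, f, hf, a₀, b₀, hab₀, he₀⟩
    · obtain ⟨S, hS, hS'⟩ := ih x y h
      refine ⟨S, hS.trans (Nat.pow_le_pow_right (by omega) (by omega)), ?_⟩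
      intro U _ ι hι u v hu hv
      exact proc_le_succ _ _ _ (hS' U _ ι hι u v hu hv)
    · have key : ∀ p : W × W, ∃ S : Finset V, S.card ≤ K ^ T ∧
          ((proc H G T).Adj (f p.1) (f p.2) →
            ∀ (U : Type) (_ : Fintype U) (ι : U ↪ V), (↑S ⊆ Set.range ι) → ∀ u v, ι u = f p.1 → ι v = f p.2 →
              (proc H (G.comap ι) T).Adj u v) := by
        intro p
        by_cases hp : (proc H G T).Adj (f p.1) (f p.2)
        · obtain ⟨S, hS, hS'⟩ := ih _ _ hp
          exact ⟨S, hS, fun _ => hS'⟩
        · exact ⟨∅, by simp, fun h => absurd h hp⟩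
      choose S hS hS' using key
      refine ⟨Finset.univ.map f ∪ Finset.univ.biUnion S, ?_, ?_⟩
      · have h1 : (Finset.univ.biUnion S).card ≤ Fintype.card (W × W) * K ^ T := by
          calc (Finset.univ.biUnion S).card ≤ ∑ p : W × W, (S p).card := Finset.card_biUnion_le
            _ ≤ ∑ p : W × W, K ^ T := Finset.sum_le_sum fun p _ => hS p
            _ = Fintype.card (W × W) * K ^ T := by simp
        have h2 : (Finset.univ.map f ∪ Finset.univ.biUnion S).card ≤
            Fintype.card W + Fintype.card (W × W) * K ^ T := by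
          refine (Finset.card_union_le _ _).trans ?_
          have : (Finset.univ.map f).card = Fintype.card W := by simp
          omega
        have h3 : 1 ≤ K ^ T := Nat.one_le_pow _ _ (by omega)
        rw [Fintype.card_prod] at h2
        calc _ ≤ Fintype.card W + Fintype.card W * Fintype.card W * K ^ T := h2
          _ ≤ Fintype.card W * K ^ T + Fintype.card W * Fintype.card W * K ^ T := by
            gcongr; exact Nat.le_mul_of_pos_right _ h3
          _ = (Fintype.card W * Fintype.card W + Fintype.card W) * K ^ T := by ring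
          _ ≤ K * K ^ T := by gcongr; omega
          _ = K ^ (T + 1) := by ring
      · intro U _ ι hι u v hu hv
        have hf' : ∀ a, ∃ g, ι g = f a := by
          intro a
          exact hι (by simp)
        choose g hg using hf'
        have hginj : Function.Injective g := by
          intro a b hab
          apply f.injective
          rw [← hg a, ← hg b, hab]
        have hsub : ∀ p : W × W, (↑(S p) : Set V) ⊆ Set.range ι := by
          intro p z hz
          apply hι
          simp only [Finset.coe_union, Finset.coe_biUnion, Set.mem_union, Set.mem_iUnion]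
          exact Or.inr ⟨p, by simp, hz⟩
        have pull : ∀ a b, s(f a, f b) = s(x, y) → s(g a, g b) = s(u, v) := by
          intro a b h
          rw [← hg a, ← hg b, ← hu, ← hv] at h
          have : Function.Injective (Sym2.map ι) := Sym2.map.injective ι.injective
          apply this
          simpa using h
        rw [proc_succ, step_adj]
        refine Or.inr ⟨?_, ⟨g, hginj⟩, ?_, a₀, b₀, hab₀, pull _ _ he₀⟩
        · rintro rfl; exact hxy (hu.symm.trans hv)
        · intro a b hab
          rcases hf a b hab with h | h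
          · left
            exact hS' (a, b) h U _ ι (hsub _) _ _ (hg a) (hg b)
          · right
            exact pull _ _ h

theorem runTime_le_maxRun (H : SimpleGraph W) {n : ℕ} (G : SimpleGraph (Fin n)) :
    runTime H G ≤ maxRun H n :=
  le_csSup (Set.finite_range fun G : SimpleGraph (Fin n) => runTime H G).bddAbove ⟨G, rfl⟩

theorem exists_maxRun (H : SimpleGraph W) (n : ℕ) :
    ∃ G : SimpleGraph (Fin n), runTime H G = maxRun H n :=
  Nat.sSup_mem (s := Set.range fun G : SimpleGraph (Fin n) => runTime H G) ⟨_, ⊤, rfl⟩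
    (Set.finite_range fun G : SimpleGraph (Fin n) => runTime H G).bddAbove

/-- Slow processes on many vertices give slow processes on few vertices. -/
theorem transfer [Fintype W] (H : SimpleGraph W) (K : ℕ)
    (hK : Fintype.card W * Fintype.card W + Fintype.card W + 2 = K) {n N T : ℕ} (hnN : n ≤ N)
    (hn : K ^ T + 2 ≤ n) (hT : T ≤ maxRun H N) : T ≤ maxRun H n := by
  rcases T with _ | T
  · exact Nat.zero_le _
  obtain ⟨G, hG⟩ := exists_maxRun H N
  have hne : proc H G T ≠ proc H G (T + 1) := by
    have : T < runTime H G := by omega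
    exact Nat.notMem_of_lt_sInf this
  have hex : ∃ x y, (proc H G (T + 1)).Adj x y ∧ ¬ (proc H G T).Adj x y := by
    by_contra hcon
    push Not at hcon
    exact hne (le_antisymm (proc_le_succ H G T) hcon)
  obtain ⟨x, y, h1, h0⟩ := hex
  obtain ⟨S, hS, hS'⟩ := exists_support H G K hK (T + 1) x y h1
  have hcard : (S ∪ {x, y}).card ≤ n := by
    have h1 := Finset.card_union_le S {x, y}
    have h2 : ({x, y} : Finset (Fin N)).card ≤ 2 := Finset.card_le_two
    omega
  obtain ⟨S', hSS', hS'n⟩ := Finset.exists_superset_card_eq (s := S ∪ {x, y}) (n := n) hcard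
    (by simpa using hnN)
  have eqv : Fin n ≃ S' := (S'.equivFinOfCardEq hS'n).symm
  let ι : Fin n ↪ Fin N := eqv.toEmbedding.trans (Function.Embedding.subtype _)
  have hrange : ∀ z ∈ S', ∃ u, ι u = z := by
    intro z hz
    refine ⟨eqv.symm ⟨z, hz⟩, ?_⟩
    simp [ι]
  obtain ⟨u, hu⟩ := hrange x (hSS' (by simp))
  obtain ⟨v, hv⟩ := hrange y (hSS' (by simp))
  have ht1 := hS' (Fin n) inferInstance ι (fun z hz => hrange z (hSS' (Finset.mem_union_left _ hz))) u v hu hv
  have ht0 : ¬ (proc H (G.comap ι) T).Adj u v := by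
    intro h
    apply h0
    rw [← hu, ← hv]
    exact proc_comap_le H G ι T u v h
  exact (lt_runTime H (G.comap ι) ht1 ht0).trans (runTime_le_maxRun H _)

/-- If the maximum running time is unbounded then it is large for all large `n`. -/
theorem le_maxRun_of_unbounded [Fintype W] (H : SimpleGraph W) (K : ℕ)
    (hK : Fintype.card W * Fintype.card W + Fintype.card W + 2 = K)
    (hub : ¬ ∃ C, ∀ n, maxRun H n ≤ C) {n T : ℕ} (hn : K ^ T + 2 ≤ n) : T ≤ maxRun H n := by
  push Not at hub
  obtain ⟨N, hN⟩ := hub (T + ∑ k ∈ Finset.range n, maxRun H k)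
  have hnN : n ≤ N := by
    by_contra hcon
    push Not at hcon
    have := Finset.single_le_sum (f := fun k => maxRun H k) (fun _ _ => Nat.zero_le _)
      (Finset.mem_range.2 hcon)
    omega
  exact transfer H K hK hnN hn (by omega)

/-- The gap below the logarithm. -/
theorem gap [Fintype W] (H : SimpleGraph W) :
    (∃ C, ∀ n, maxRun H n ≤ C) ∨
      ∃ c : ℝ, 0 < c ∧ ∃ n₀ : ℕ, ∀ n, n₀ ≤ n → c * Real.log n ≤ maxRun H n := by
  by_cases hub : ∃ C, ∀ n, maxRun H n ≤ C
  · exact Or.inl hub
  right
  obtain ⟨K, hK⟩ : ∃ K, Fintype.card W * Fintype.card W + Fintype.card W + 2 = K := ⟨_, rfl⟩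
  have hK2 : 2 ≤ K := by omega
  have hlogK : 0 < Real.log K := Real.log_pos (by exact_mod_cast (by omega : 1 < K))
  refine ⟨1 / (4 * Real.log K), by positivity, K + 4, ?_⟩
  intro n hn
  obtain ⟨m, rfl⟩ : ∃ m, n = m + 2 := ⟨n - 2, by omega⟩
  have hm0 : m ≠ 0 := by omega
  obtain ⟨T, hT⟩ : ∃ T, Nat.log K m = T := ⟨_, rfl⟩
  have hT1 : K ^ T ≤ m := by rw [← hT]; exact Nat.pow_log_le_self K hm0
  have hT2 : m < K ^ (T + 1) := by rw [← hT]; exact Nat.lt_pow_succ_log_self (by omega) m
  have hTpos : 1 ≤ T := by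
    rw [← hT]
    exact Nat.log_pos (by omega) (by omega)
  have hmain := le_maxRun_of_unbounded H K hK hub (n := m + 2) (T := T) (by omega)
  have hmainR : (T : ℝ) ≤ maxRun H (m + 2) := by exact_mod_cast hmain
  refine le_trans ?_ hmainR
  have h1 : Real.log m ≤ (T + 1) * Real.log K := by
    have : (m : ℝ) ≤ (K : ℝ) ^ (T + 1) := by exact_mod_cast hT2.le
    calc Real.log m ≤ Real.log ((K : ℝ) ^ (T + 1)) :=
          Real.log_le_log (by exact_mod_cast Nat.pos_of_ne_zero hm0) this
      _ = (T + 1) * Real.log K := by rw [Real.log_pow]; push_cast; ring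
  have h2 : Real.log ((m + 2 : ℕ) : ℝ) ≤ 2 * Real.log m := by
    have : ((m + 2 : ℕ) : ℝ) ≤ (m : ℝ) ^ 2 := by
      have : m + 2 ≤ m ^ 2 := by nlinarith
      exact_mod_cast this
    calc Real.log ((m + 2 : ℕ) : ℝ) ≤ Real.log ((m : ℝ) ^ 2) :=
          Real.log_le_log (by positivity) this
      _ = 2 * Real.log m := by rw [Real.log_pow]; push_cast; ring
  have h3 : (T : ℝ) + 1 ≤ 2 * T := by
    have : (1 : ℝ) ≤ T := by exact_mod_cast hTpos
    linarith
  rw [div_mul_eq_mul_div, div_le_iff₀ (by positivity), one_mul]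
  nlinarith

theorem one_le_maxRun [Fintype W] (H : SimpleGraph W) (hH : H ≠ ⊥) {n : ℕ}
    (hn : Fintype.card W ≤ n) : 1 ≤ maxRun H n := by
  classical
  obtain ⟨ι⟩ : Nonempty (W ↪ Fin n) :=
    Function.Embedding.nonempty_of_card_le (by simpa using hn)
  obtain ⟨a₀, b₀, hab₀⟩ : ∃ a b, H.Adj a b := by
    by_contra hcon
    push Not at hcon
    exact hH (by ext a b; simp [hcon])
  let G : SimpleGraph (Fin n) := (H.deleteEdges {s(a₀, b₀)}).map ι
  have hG : ∀ a b, G.Adj (ι a) (ι b) ↔ H.Adj a b ∧ s(a, b) ≠ s(a₀, b₀) := by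
    intro a b
    simp [G]
  have h0 : ¬ (proc H G 0).Adj (ι a₀) (ι b₀) := by
    rw [proc_zero, hG]
    simp
  have h1 : (proc H G (0 + 1)).Adj (ι a₀) (ι b₀) := by
    rw [proc_succ, step_adj]
    refine Or.inr ⟨fun h => hab₀.ne (ι.injective h), ι, ?_, a₀, b₀, hab₀, rfl⟩
    intro a b hab
    rw [proc_zero, hG]
    by_cases hs : s(a, b) = s(a₀, b₀)
    · right
      simpa using congrArg (Sym2.map ι) hs
    · exact Or.inl ⟨hab, hs⟩
  exact (lt_runTime H G h1 h0).trans (runTime_le_maxRun H G)

end Pool.Agent.Helper41.Boot
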