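import Pool.Agent.Helper41.Barba

/-!
# The bound of Ehlich and Wojtas for 0/1 matrices
-/

namespace Helper41.Barba

open Matrix
open scoped MatrixOrder ComplexOrder

lemma two_le_abs {g : ℤ} (h : g % 4 = 2) : 2 ≤ |g| := by
  rcases abs_cases g with h' | h' <;> omega

/-- the bound of Ehlich and Wojtas -/
theorem ehlich_wojtas {n : ℕ} (hn : n % 4 = 1) (hn1 : 2 ≤ n) :
    4 ^ n * (Helper67.Cube.maxDet n) ^ 2 ≤ (n - 1) ^ (n - 1) * (2 * n) ^ 2 := by
  classical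
  obtain ⟨K, hK, hdet⟩ := exists_pm n
  rcases Nat.eq_zero_or_pos (Helper67.Cube.maxDet n) with h0 | h0
  · rw [h0]; simp
  have hne : (K.map (Int.cast : ℤ → ℝ)).det ≠ 0 := by
    intro h
    rw [h] at hdet
    have : (0:ℝ) < 4 ^ n * (Helper67.Cube.maxDet n : ℝ) ^ 2 := by positivity
    rw [← hdet] at this
    norm_num at this
  set G := (K.map (Int.cast : ℤ → ℝ)) * (K.map (Int.cast : ℤ → ℝ))ᴴ with hGdef
  have hG : G.PosDef := gram_posDef K hne
  have hd : ∀ i, G i i = (n : ℝ) + 1 := fun i => by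
    rw [hGdef, gram_entry, gram_diag hK]; push_cast; ring
  let p : Fin (n+1) → Prop := fun i => (4 : ℤ) ∣ ∑ k, K i k
  have hoff : ∀ i j, (p i ↔ p j) → (2 : ℝ) ≤ |G i j| := by
    intro i j hij
    rw [hGdef, gram_entry]
    have h2 := gram_mod hK i j
    have h3 := row_mod hK i
    have h4 := row_mod hK j
    have h5 : (∑ k, K i k * K j k) % 4 = 2 := by
      simp only [p] at hij
      push_cast at h2 h3 h4
      generalize ∑ k, K i k * K j k = g at *
      generalize ∑ k, K i k = a at *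
      generalize ∑ k, K j k = b at *
      by_cases ha : (4 : ℤ) ∣ a
      · have hb := hij.mp ha
        omega
      · have hb : ¬ (4 : ℤ) ∣ b := fun h => ha (hij.mpr h)
        omega
    have h6 := two_le_abs h5
    exact_mod_cast h6
  set e := Equiv.sumCompl p with he
  set H := G.submatrix e e with hH
  have hHp : H.PosDef := hG.submatrix e.injective
  have hHdet : H.det = G.det := det_submatrix_equiv_self e G
  have hblk : H = fromBlocks H.toBlocks₁₁ H.toBlocks₁₂ H.toBlocks₁₂ᴴ H.toBlocks₂₂ := by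
    conv_lhs => rw [← fromBlocks_toBlocks H]
    congr 1
    ext i j
    have := hHp.isHermitian.apply (Sum.inr i) (Sum.inl j)
    simpa [toBlocks₂₁, toBlocks₁₂] using this.symm
  have hA : H.toBlocks₁₁.PosDef := hHp.submatrix Sum.inl_injective
  have hD : H.toBlocks₂₂.PosDef := hHp.submatrix Sum.inr_injective
  have hf := fischer (hblk ▸ hHp)
  rw [← hblk, hHdet] at hf
  have hn2 : (2:ℝ) ≤ n := by exact_mod_cast hn1
  have h1 := lemB' (n := (n : ℝ) + 1) (t := 2) two_pos (by linarith) _ hA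
    (fun i => by simp [toBlocks₁₁, hH, hd])
    (fun i j hij => by
      simp only [toBlocks₁₁, hH, submatrix_apply, of_apply]
      exact hoff _ _ (by simp [he, i.2, j.2]))
  have h2 := lemB' (n := (n : ℝ) + 1) (t := 2) two_pos (by linarith) _ hD
    (fun i => by simp [toBlocks₂₂, hH, hd])
    (fun i j hij => by
      simp only [toBlocks₂₂, hH, submatrix_apply, of_apply]
      exact hoff _ _ (by simp [he, i.2, j.2]))
  have hc : Fintype.card {i // p i} + Fintype.card {i // ¬ p i} = n + 1 := by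
    rw [← Fintype.card_sum, Fintype.card_congr e, Fintype.card_fin]
  set a := Fintype.card {i // p i}
  set b := Fintype.card {i // ¬ p i}
  obtain ⟨m, rfl⟩ : ∃ m, n = m + 1 := ⟨n - 1, by omega⟩
  have e1 : ((m + 1 : ℕ) : ℝ) + 1 - 2 = m := by push_cast; ring
  rw [e1] at h1 h2
  have hm : (0:ℝ) < m := by
    have : 0 < m := by omega
    exact_mod_cast this
  have h3 : (m * H.toBlocks₁₁.det) * (m * H.toBlocks₂₂.det)
      ≤ ((m:ℝ) ^ a * (m + 2 * a)) * ((m:ℝ) ^ b * (m + 2 * b)) :=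
    mul_le_mul h1 h2 (mul_nonneg hm.le hD.det_pos.le) (by positivity)
  have h4 : (m:ℝ) ^ 2 * G.det ≤ (m:ℝ) ^ (m + 2) * (2 * (m + 1)) ^ 2 := by
    have hab : ((a:ℝ) + b) = m + 2 := by exact_mod_cast hc
    have h5 : ((m:ℝ) + 2 * a) * (m + 2 * b) ≤ (2 * (m + 1)) ^ 2 := by
      nlinarith [sq_nonneg ((a:ℝ) - b)]
    have h6 : (m:ℝ) ^ a * (m:ℝ) ^ b = (m:ℝ) ^ (m + 2) := by
      rw [← pow_add, hc]
    calc (m:ℝ) ^ 2 * G.det ≤ (m:ℝ) ^ 2 * (H.toBlocks₁₁.det * H.toBlocks₂₂.det) :=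
          mul_le_mul_of_nonneg_left hf (by positivity)
      _ = (m * H.toBlocks₁₁.det) * (m * H.toBlocks₂₂.det) := by ring
      _ ≤ ((m:ℝ) ^ a * (m + 2 * a)) * ((m:ℝ) ^ b * (m + 2 * b)) := h3
      _ = ((m:ℝ) ^ a * (m:ℝ) ^ b) * ((m + 2 * a) * (m + 2 * b)) := by ring
      _ ≤ (m:ℝ) ^ (m + 2) * (2 * (m + 1)) ^ 2 := by
          rw [h6]; exact mul_le_mul_of_nonneg_left h5 (by positivity)
  have h7 : G.det ≤ (m:ℝ) ^ m * (2 * (m + 1)) ^ 2 := by
    have : (m:ℝ) ^ 2 * G.det ≤ (m:ℝ) ^ 2 * ((m:ℝ) ^ m * (2 * (m + 1)) ^ 2) := by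
      refine h4.trans (le_of_eq ?_); ring
    exact le_of_mul_le_mul_left this (by positivity)
  rw [hGdef, gram_det, hdet] at h7
  have h8 : ((4 ^ (m + 1) * Helper67.Cube.maxDet (m + 1) ^ 2 : ℕ) : ℝ)
      ≤ ((m ^ m * (2 * (m + 1)) ^ 2 : ℕ) : ℝ) := by
    push_cast
    exact h7
  simpa using (by exact_mod_cast h8 : 4 ^ (m + 1) * Helper67.Cube.maxDet (m + 1) ^ 2
    ≤ m ^ m * (2 * (m + 1)) ^ 2)

lemma maxDet_le_of_ehlich_wojtas (n v : ℕ) (hn : n % 4 = 1) (hn1 : 2 ≤ n)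
    (h : (n - 1) ^ (n - 1) * (2 * n) ^ 2 < 4 ^ n * (v+1) ^ 2) : Helper67.Cube.maxDet n ≤ v := by
  by_contra hcon
  push Not at hcon
  have h1 := ehlich_wojtas hn hn1
  have h2 : (v+1) ^ 2 ≤ (Helper67.Cube.maxDet n) ^ 2 := Nat.pow_le_pow_left hcon 2
  have h3 : 4 ^ n * (v+1) ^ 2 ≤ 4 ^ n * (Helper67.Cube.maxDet n) ^ 2 := Nat.mul_le_mul_left _ h2
  omega

theorem maxDet_9_le : Helper67.Cube.maxDet 9 ≤ 144 :=
  maxDet_le_of_ehlich_wojtas _ _ (by norm_num) (by norm_num) (by norm_num)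

end Helper41.Barba
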