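import Pool.Agent.Helper41.FatCore

set_option autoImplicit false

open Polynomial

namespace Pool.Agent.Helper41.Fat

variable {K : Type*} [Field K]

theorem algebraMap_eq_CC (a : K) : algebraMap K K[X][X] a = C (C a) := rfl

theorem smul_eq_CC (a : K) (Q : K[X][X]) : a • Q = C (C a) * Q := by
  rw [← Polynomial.smul_eq_C_mul]
  ext : 2
  simp

theorem mono_mem_rows {n : ℕ → ℕ} {c : ℕ} {p : K[X]} (hp : p ∈ degreeLT K (n c)) :
    (C p * X ^ c : K[X][X]) ∈ rows K n := by
  intro j
  rw [coeff_C_mul_X_pow]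
  by_cases h : j = c
  · subst h; rw [if_pos rfl]; exact hp
  · rw [if_neg h]; exact Submodule.zero_mem _

theorem generator [CharZero K] {n : ℕ → ℕ} (lam B M : ℕ) (i k : ℕ) (U : Finset ℕ)
    (hk : k < U.card) (hM : k < M) (hF : ∀ u ∈ U, i < (act lam B n u).card) :
    ∃ w : K[X][X][X], w.coeff 0 = C (X ^ k) * X ^ i ∧ ∀ t : K, t ≠ 0 →
      ∃ z ∈ rows K n, Gt t (t ^ M) ((1 + C t * X) ^ lam) z
        = w.eval (algebraMap K K[X][X] t) := by
  obtain ⟨γ, V, h⟩ := generator_alg (K := K) (S := K[X][X]) (C X) X lam B M i k U hk hM hF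
  refine ⟨C ((C X : K[X][X]) ^ k * X ^ i) + X * V, ?_, ?_⟩
  · rw [coeff_add, coeff_C_zero, mul_coeff_zero, coeff_X_zero, zero_mul, add_zero, C_pow]
  · intro t ht
    refine ⟨(t ^ (M * i + k))⁻¹ • ∑ u ∈ U, ∑ c ∈ act lam B n u,
      γ u c • (C ((1 + X) ^ (u - lam * c)) * X ^ c), ?_, ?_⟩
    · apply Submodule.smul_mem
      apply Submodule.sum_mem
      intro u _
      apply Submodule.sum_mem
      intro c hc
      rw [mem_act] at hc
      apply Submodule.smul_mem
      apply mono_mem_rows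
      rw [mem_degreeLT]
      have h1 : ((1 + X : K[X]) ^ (u - lam * c)).natDegree = u - lam * c := by
        have h2 : (1 + X : K[X]) = X + C 1 := by rw [C_1]; ring
        rw [h2, natDegree_pow, natDegree_X_add_C, mul_one]
      have h3 : ((1 + X : K[X]) ^ (u - lam * c)) ≠ 0 := by
        have h2 : (1 + X : K[X]) = X + C 1 := by rw [C_1]; ring
        rw [h2]
        exact pow_ne_zero _ (X_add_C_ne_zero 1)
      rw [degree_eq_natDegree h3, h1]
      exact_mod_cast (by omega : u - lam * c < n c)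
    · have h1 := congrArg (fun q => eval (algebraMap K K[X][X] t) q) h
      simp only [eval_finsetSum, eval_mul, eval_C, eval_pow, eval_add, eval_one, eval_X] at h1
      have h2 : Gt t (t ^ M) ((1 + C t * X) ^ lam) (∑ u ∈ U, ∑ c ∈ act lam B n u,
          γ u c • (C ((1 + X) ^ (u - lam * c)) * X ^ c))
          = (algebraMap K K[X][X] t) ^ (M * i + k) *
            ((C X : K[X][X]) ^ k * X ^ i + (algebraMap K K[X][X] t) *
              eval (algebraMap K K[X][X] t) V) := by
        rw [← h1, map_sum]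
        refine Finset.sum_congr rfl fun u _ => ?_
        rw [map_sum]
        refine Finset.sum_congr rfl fun c _ => ?_
        have e1 : (C (((1 + X : K[X]) ^ (u - lam * c)).comp (C t * X)) : K[X][X])
            = (1 + C (C t) * C X) ^ (u - lam * c) := by
          rw [pow_comp, add_comp, one_comp, X_comp, C_pow, C_add, C_1, C_mul]
        have e2 : (C ((1 + C t * X) ^ lam) + C (C (t ^ M)) * X : K[X][X])
            = (1 + C (C t) * C X) ^ lam + (C (C t)) ^ M * X := by
          rw [C_pow, C_add, C_1, C_mul, C_pow, C_pow]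
        rw [Gt_smul, map_mul, Gt_C, map_pow, Gt_X, smul_eq_CC, e1, e2]
        rfl
      rw [Gt_smul, h2, smul_eq_CC]
      have h4 : (C (C (t ^ (M * i + k))⁻¹) : K[X][X]) * (algebraMap K K[X][X] t) ^ (M * i + k)
          = 1 := by
        rw [algebraMap_eq_CC, ← C_pow, ← C_pow, ← C_mul, ← C_mul,
          inv_mul_cancel₀ (pow_ne_zero _ ht), C_1, C_1]
      rw [← mul_assoc, h4, one_mul]
      simp

/-- The set of all limits. -/
theorem limit_exists [CharZero K] {n n' : ℕ → ℕ} (lam B M : ℕ)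
    (hM : ∀ i, n' i ≤ M)
    (hU : ∀ i, ∃ U : Finset ℕ, n' i ≤ U.card ∧ ∀ u ∈ U, i < (act lam B n u).card)
    {P : K[X][X]} (hP : P ∈ rows K n') :
    ∃ w : K[X][X][X], w.coeff 0 = P ∧ ∀ t : K, t ≠ 0 →
      ∃ z ∈ rows K n, Gt t (t ^ M) ((1 + C t * X) ^ lam) z
        = w.eval (algebraMap K K[X][X] t) := by
  classical
  -- the set of such `P` is a submodule
  let T : Submodule K K[X][X] :=
    { carrier := {P | ∃ w : K[X][X][X], w.coeff 0 = P ∧ ∀ t : K, t ≠ 0 →
        ∃ z ∈ rows K n, Gt t (t ^ M) ((1 + C t * X) ^ lam) z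
          = w.eval (algebraMap K K[X][X] t)}
      zero_mem' := ⟨0, by simp, fun t _ => ⟨0, Submodule.zero_mem _, by simp⟩⟩
      add_mem' := by
        rintro P Q ⟨w, hw, hw'⟩ ⟨v, hv, hv'⟩
        refine ⟨w + v, by rw [coeff_add, hw, hv], fun t ht => ?_⟩
        obtain ⟨z, hz, hz'⟩ := hw' t ht
        obtain ⟨y, hy, hy'⟩ := hv' t ht
        exact ⟨z + y, Submodule.add_mem _ hz hy, by rw [map_add, hz', hy', eval_add]⟩
      smul_mem' := by
        rintro a P ⟨w, hw, hw'⟩
        refine ⟨C (C (C a)) * w, by rw [coeff_C_mul, hw, smul_eq_CC], fun t ht => ?_⟩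
        obtain ⟨z, hz, hz'⟩ := hw' t ht
        exact ⟨a • z, Submodule.smul_mem _ _ hz, by
          rw [Gt_smul, hz', eval_mul, eval_C, smul_eq_CC]⟩ }
  suffices h : P ∈ T from h
  have hmono : ∀ i k, k < n' i → (C (X ^ k) * X ^ i : K[X][X]) ∈ T := by
    intro i k hk
    obtain ⟨U, hU1, hU2⟩ := hU i
    exact generator lam B M i k U (lt_of_lt_of_le hk hU1) (lt_of_lt_of_le hk (hM i)) hU2
  rw [P.as_sum_support_C_mul_X_pow]
  apply Submodule.sum_mem
  intro i _
  have hc := hP i
  rw [degreeLT_eq_span_X_pow] at hc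
  have hmap : Submodule.map ((LinearMap.mulRight K (X ^ i : K[X][X])) ∘ₗ
      ((Algebra.linearMap K[X] K[X][X]).restrictScalars K))
      (Submodule.span K ↑(Finset.image (fun n => (X : K[X]) ^ n) (Finset.range (n' i)))) ≤ T := by
    rw [Submodule.map_span_le]
    intro q hq
    simp only [Finset.coe_image, Finset.coe_range, Set.mem_image, Set.mem_Iio] at hq
    obtain ⟨k, hk, rfl⟩ := hq
    exact hmono i k hk
  exact hmap (Submodule.mem_map_of_mem hc)

theorem Good.move [CharZero K] {r m : ℕ} {n n' : ℕ → ℕ} {ρ : ℕ} (lam B : ℕ)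
    (hU : ∀ i, ∃ U : Finset ℕ, n' i ≤ U.card ∧ ∀ u ∈ U, i < (act lam B n u).card)
    (hg : Good K r m n' ρ) : Good K r m n ρ := by
  classical
  obtain ⟨η', w', hw', hl⟩ := hg
  have hB : ∀ i, B ≤ i → n' i = 0 := by
    intro i hi
    obtain ⟨U, hU1, hU2⟩ := hU i
    rcases U.eq_empty_or_nonempty with h | ⟨u, hu⟩
    · subst h; simpa using hU1
    · have h1 := hU2 u hu
      have h2 : (act lam B n u).card ≤ B := by
        have := Finset.card_filter_le (Finset.range B) (fun c => lam * c ≤ u ∧ u < lam * c + n c)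
        rw [Finset.card_range] at this
        exact this
      omega
  let M := ∑ i ∈ Finset.range B, n' i
  have hM : ∀ i, n' i ≤ M := by
    intro i
    by_cases hi : i < B
    · exact Finset.single_le_sum (fun _ _ => Nat.zero_le _) (Finset.mem_range.2 hi)
    · rw [hB i (by omega)]; exact Nat.zero_le _
  choose w hw0 hwt using fun a => limit_exists lam B M hM hU (hw' a)
  obtain ⟨t, ht, hlt⟩ := exists_specialization (Phi K r m η') w (by simpa only [hw0] using hl)
  choose z hz hzt using fun a => hwt a t ht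
  refine ⟨(1 + X) ^ lam + C (t ^ M) * η'.comp (C t⁻¹ * X), z, hz, ?_⟩
  have hη : ((1 + X) ^ lam + C (t ^ M) * η'.comp (C t⁻¹ * X) : K[X]).comp (C t * X)
      = (1 + C t * X) ^ lam + C (t ^ M) * η' := by
    rw [add_comp, mul_comp, C_comp, pow_comp, add_comp, one_comp, X_comp, comp_assoc, mul_comp,
      C_comp, X_comp, ← mul_assoc, ← C_mul, inv_mul_cancel₀ ht, C_1, one_mul, comp_X]
  apply transport hη
  simpa only [hzt] using hlt

end Pool.Agent.Helper41.Fat
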