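import Pool.Agent.Helper41.FatMain

set_option autoImplicit false

open Polynomial

namespace Pool.Agent.Helper41.Fat

variable {K : Type*} [Field K]

/-- Merging the row `m + 1` into the row `m`. -/
theorem good_merge [CharZero K] {r ρ : ℕ} (x a q m : ℕ) {n n' : ℕ → ℕ} (haq : a + q ≤ x)
    (h : ∀ c ≤ m, n c = x * (m - c) + a) (h1 : n (m + 1) = q)
    (h' : ∀ c < m, n' c = x * (m - c) + a) (hm' : n' m = a + q)
    (h0' : ∀ c, m < c → n' c = 0) (hg : Good K r m n' ρ) : Good K r m n ρ := by
  apply Good.moveIco a (m + 2) (fun i => a * i) _ hg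
  intro i u h2 h3
  rcases lt_trichotomy i m with hi | hi | hi
  · rw [h' i hi] at h3
    apply lt_card_act_of_range
    intro c hc
    have h4 := h c (by omega)
    obtain ⟨e, rfl⟩ : ∃ e, i = c + e := ⟨i - c, by omega⟩
    obtain ⟨b, rfl⟩ : ∃ b, m = c + e + b := ⟨m - (c + e), by omega⟩
    rw [Nat.add_sub_cancel_left] at h3
    rw [show c + e + b - c = e + b by omega] at h4
    refine ⟨by omega, by nlinarith, ?_⟩
    rw [h4]
    nlinarith
  · subst hi
    rw [hm'] at h3
    by_cases hu : u < a * i + a
    · apply lt_card_act_of_range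
      intro c hc
      have h4 := h c hc
      obtain ⟨e, rfl⟩ : ∃ e, i = c + e := ⟨i - c, by omega⟩
      rw [Nat.add_sub_cancel_left] at h4
      refine ⟨by omega, by nlinarith, ?_⟩
      rw [h4]
      nlinarith
    · push Not at hu
      apply lt_card_act_of_insert (i + 1) (by omega)
      · intro c hc
        have h4 := h c (by omega)
        obtain ⟨e, rfl⟩ : ∃ e, i = c + 1 + e := ⟨i - (c + 1), by omega⟩
        rw [show c + 1 + e - c = e + 1 by omega] at h4
        refine ⟨by omega, by nlinarith, ?_⟩
        rw [h4]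
        nlinarith
      · refine ⟨by omega, by nlinarith, ?_⟩
        rw [h1]
        nlinarith
  · rw [h0' i hi] at h3
    omega

/-- Pouring part of the row `m + 1` into the row `m`. -/
theorem good_merge_part [CharZero K] {r ρ : ℕ} (x lam w q m : ℕ) {n n' : ℕ → ℕ}
    (hwq : w ≤ q) (hx : lam + q ≤ x)
    -- here `a = lam + q - w`
    (h : ∀ c ≤ m, n c + w = x * (m - c) + lam + q) (h1 : n (m + 1) = q)
    (h' : ∀ c < m, n' c + w = x * (m - c) + lam + q) (hm' : n' m = lam + q)
    (h1' : n' (m + 1) + w = q)
    (h0' : ∀ c, m + 1 < c → n' c = 0) (hg : Good K r m n' ρ) : Good K r m n ρ := by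
  obtain ⟨q', rfl⟩ : ∃ q', q = w + q' := ⟨q - w, by omega⟩
  have hn : ∀ c ≤ m, n c = x * (m - c) + lam + q' := by
    intro c hc
    have := h c hc
    omega
  have hn' : ∀ c < m, n' c = x * (m - c) + lam + q' := by
    intro c hc
    have := h' c hc
    omega
  have hn1' : n' (m + 1) = q' := by omega
  clear h h' h1'
  apply Good.moveIco lam (m + 2) (fun i => lam * i) _ hg
  intro i u h2 h3
  rcases lt_trichotomy i m with hi | hi | hi
  · rw [hn' i hi] at h3
    apply lt_card_act_of_range
    intro c hc
    have h4 := hn c (by omega)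
    obtain ⟨e, rfl⟩ : ∃ e, i = c + e := ⟨i - c, by omega⟩
    obtain ⟨b, rfl⟩ : ∃ b, m = c + e + b := ⟨m - (c + e), by omega⟩
    rw [Nat.add_sub_cancel_left] at h3
    rw [show c + e + b - c = e + b by omega] at h4
    refine ⟨by omega, by nlinarith, ?_⟩
    rw [h4]
    nlinarith
  · subst hi
    rw [hm'] at h3
    by_cases hu : u < lam * i + lam + q'
    · apply lt_card_act_of_range
      intro c hc
      have h4 := hn c hc
      obtain ⟨e, rfl⟩ : ∃ e, i = c + e := ⟨i - c, by omega⟩
      rw [Nat.add_sub_cancel_left] at h4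
      refine ⟨by omega, by nlinarith, ?_⟩
      rw [h4]
      nlinarith
    · push Not at hu
      apply lt_card_act_of_insert (i + 1) (by omega)
      · intro c hc
        have h4 := hn c (by omega)
        obtain ⟨e, rfl⟩ : ∃ e, i = c + 1 + e := ⟨i - (c + 1), by omega⟩
        rw [show c + 1 + e - c = e + 1 by omega] at h4
        refine ⟨by omega, by nlinarith, ?_⟩
        rw [h4]
        nlinarith
      · refine ⟨by omega, by nlinarith, ?_⟩
        rw [h1]
        nlinarith
  · by_cases hi1 : i = m + 1
    · subst hi1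
      rw [hn1'] at h3
      apply lt_card_act_of_range
      intro c hc
      by_cases hc1 : c = m + 1
      · subst hc1
        refine ⟨by omega, h2, ?_⟩
        rw [h1]
        omega
      · have h4 := hn c (by omega)
        obtain ⟨e, rfl⟩ : ∃ e, m = c + e := ⟨m - c, by omega⟩
        rw [Nat.add_sub_cancel_left] at h4
        refine ⟨by omega, by nlinarith, ?_⟩
        rw [h4]
        nlinarith
    · rw [h0' i (by omega)] at h3
      omega

/-- The last pour when the block fills the rows `m` and `m + 1`. -/
theorem good_pour [CharZero K] (x f g m : ℕ) {n : ℕ → ℕ} (hgx : g ≤ x) (hg0 : g ≤ f * m)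
    (h : ∀ c < m, n c + g = x * (m - c) + f * m) (hm : n m + g = x)
    (hm1 : n (m + 1) + x = f * m + g * (m + 1)) :
    Good K (x + 2 * f) m n ((x + 2 * f) * (m + 1).choose 2) := by
  obtain ⟨lam, rfl⟩ : ∃ lam, x = lam + g := ⟨x - g, by omega⟩
  obtain ⟨a, ha⟩ : ∃ a, f * m = a + g := ⟨f * m - g, by omega⟩
  have hmm : n m = lam := by omega
  apply Good.moveIco (n' := fun i => if i ≤ m then (lam + g) * (m - i) + f * m else 0) lam
    (m + 2) (fun i => lam * i)
  · intro i u h2 h3
    by_cases hi : i ≤ m
    swap
    · rw [if_neg hi] at h3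
      omega
    rw [if_pos hi] at h3
    obtain ⟨b, rfl⟩ : ∃ b, m = i + b := ⟨m - i, by omega⟩
    rw [Nat.add_sub_cancel_left] at h3
    -- is `u` below the right end of row `i`?
    by_cases hu : b ≠ 0 ∧ u + g < lam * i + (lam + g) * b + f * (i + b)
    · apply lt_card_act_of_range
      intro c hc
      have h4 := h c (by omega)
      obtain ⟨e, rfl⟩ : ∃ e, i = c + e := ⟨i - c, by omega⟩
      rw [show c + e + b - c = e + b by omega] at h4
      refine ⟨by omega, by nlinarith, ?_⟩
      nlinarith
    · have hlow : lam * (i + b) ≤ u := by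
        by_cases hb : b = 0
        · subst hb; simpa using h2
        · have hu' : lam * i + (lam + g) * b + f * (i + b) ≤ u + g := by
            by_contra hcon
            exact hu ⟨hb, by omega⟩
          obtain ⟨b', rfl⟩ : ∃ b', b = b' + 1 := ⟨b - 1, by omega⟩
          nlinarith [Nat.zero_le (g * b'), Nat.zero_le (f * (i + (b' + 1)))]
      have hrows : ∀ c < i, c < i + b + 2 ∧ lam * c ≤ u ∧ u < lam * c + n c := by
        intro c hc
        have h4 := h c (by omega)
        obtain ⟨e, rfl⟩ : ∃ e, i = c + 1 + e := ⟨i - (c + 1), by omega⟩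
        rw [show c + 1 + e + b - c = e + b + 1 by omega] at h4
        refine ⟨by omega, by nlinarith, ?_⟩
        nlinarith
      by_cases hu2 : u < lam * (i + b) + lam
      · apply lt_card_act_of_insert (i + b) (by omega) hrows
        refine ⟨by omega, hlow, ?_⟩
        rw [hmm]
        exact hu2
      · push Not at hu2
        apply lt_card_act_of_insert (i + b + 1) (by omega) hrows
        refine ⟨by omega, by rw [mul_add, mul_one]; exact hu2, ?_⟩
        have h6 : lam * (i + b + 1) + n (i + b + 1) = (lam + g) * (i + b) + f * (i + b) := by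
          nlinarith
        rw [h6]
        nlinarith
  · apply good_last (lam + g) f m
    intro c hc
    rw [if_pos hc]

end Pool.Agent.Helper41.Fat
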