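import Pool.Agent.Helper49.Gr.Defs

/-!
# Under CH there is a first countable space with all finite powers Lindelöf which is not Grothendieck
-/

set_option autoImplicit false

open Cardinal Ordinal Filter Topology Set

namespace Pool.Agent.Helper41.GrCH

/-- from some point on, `a` has at most one element in every interval `[m, h m)` -/
def Sparse (a : Set ℕ) (h : ℕ → ℕ) : Prop :=
  ∃ N, ∀ m ≥ N, ∀ x ∈ a, ∀ y ∈ a, m ≤ x → x < y → h m ≤ y

theorem exists_sparse (h : ℕ → ℕ → ℕ) (Y : Set ℕ) (hY : Y.Infinite) :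
    ∃ a ⊆ Y, a.Infinite ∧ ∀ i, Sparse a (h i) := by
  have h1 : ∀ n, ∃ y ∈ Y,
      n + ∑ i ∈ Finset.range (n + 1), ∑ m ∈ Finset.range (n + 1), h i m < y := fun n =>
    hY.exists_gt _
  choose nxt hn1 hn2 using h1
  let x : ℕ → ℕ := fun j => nxt^[j + 1] 0
  have hx : ∀ j, x (j + 1) = nxt (x j) := fun j => Function.iterate_succ_apply' nxt (j + 1) 0
  have hxY : ∀ j, x j ∈ Y := fun j => by
    have : x j = nxt (nxt^[j] 0) := Function.iterate_succ_apply' nxt j 0
    rw [this]; exact hn1 _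
  have hmono : StrictMono x := strictMono_nat_of_lt_succ fun j => by
    rw [hx]; have := hn2 (x j); omega
  refine ⟨range x, by rintro _ ⟨j, rfl⟩; exact hxY j, infinite_range_of_injective hmono.injective,
    fun i => ⟨i, fun m hm a ha b hb hma hab => ?_⟩⟩
  obtain ⟨j, rfl⟩ := ha
  obtain ⟨k, rfl⟩ := hb
  have hjk : j < k := hmono.lt_iff_lt.1 hab
  have h2 : x (j + 1) ≤ x k := hmono.monotone hjk
  rw [hx] at h2
  have h3 := hn2 (x j)
  have h4 : h i m ≤ ∑ i ∈ Finset.range (x j + 1), ∑ m ∈ Finset.range (x j + 1), h i m := by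
    refine le_trans ?_ (Finset.single_le_sum (f := fun i => ∑ m ∈ Finset.range (x j + 1), h i m)
      (fun _ _ => Nat.zero_le _) (Finset.mem_range.2 (by omega : i < x j + 1)))
    exact Finset.single_le_sum (f := fun m => h i m)
      (fun _ _ => Nat.zero_le _) (Finset.mem_range.2 (by omega : m < x j + 1))
  omega

theorem core (h : 𝔠 = (ℵ₁ : Cardinal.{0})) : ∃ AA : Set (Set ℕ), (∀ a ∈ AA, a.Infinite) ∧
    (∀ a ∈ AA, ∀ b ∈ AA, a ≠ b → (a ∩ b).Finite) ∧
    (∀ Y : Set ℕ, Y.Infinite → ∃ a ∈ AA, (a ∩ Y).Infinite) ∧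
    (∀ f : ℕ → ℕ, {a ∈ AA | ¬ Sparse a f}.Countable) ∧
    (∀ a ∈ AA, ∀ k, Sparse a (fun m => m + k)) := by
  let W : Type := (ℵ₁ : Cardinal.{0}).ord.ToType
  have hW : #W = ℵ₁ := mk_ord_toType _
  have e1 : Nonempty (W ≃ (ℕ → ℕ)) := by
    rw [← Cardinal.eq, hW, ← h]; simp
  have e2 : Nonempty (W ≃ Set ℕ) := by
    rw [← Cardinal.eq, hW, ← h]; simp
  obtain ⟨f⟩ := e1
  obtain ⟨Y⟩ := e2
  have hcount : ∀ α : W, (Iio α).Countable := fun α => by
    rw [← Cardinal.le_aleph0_iff_set_countable, ← Order.lt_succ_iff, Cardinal.succ_aleph0]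
    exact Cardinal.mk_Iio_toType_ord_lt α
  have h1 : ∀ α : W, ∃ a : Set ℕ, ((Y α).Infinite → a ⊆ Y α) ∧ a.Infinite ∧
      (∀ γ < α, Sparse a (f γ)) ∧ ∀ k, Sparse a (fun m => m + k) := by
    intro α
    obtain ⟨g, hg⟩ := (((hcount α).image f).union
      (countable_range (fun k : ℕ => fun m : ℕ => m + k))).exists_eq_range
      ⟨_, Or.inr ⟨0, rfl⟩⟩
    have key : ∀ Z : Set ℕ, Z.Infinite → ∃ a ⊆ Z, a.Infinite ∧
        (∀ γ < α, Sparse a (f γ)) ∧ ∀ k, Sparse a (fun m => m + k) := by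
      intro Z hZ
      obtain ⟨a, ha1, ha2, ha3⟩ := exists_sparse g Z hZ
      refine ⟨a, ha1, ha2, fun γ hγ => ?_, fun k => ?_⟩
      · have : f γ ∈ range g := by rw [← hg]; exact Or.inl ⟨γ, hγ, rfl⟩
        obtain ⟨i, hi⟩ := this
        rw [← hi]; exact ha3 i
      · have : (fun m : ℕ => m + k) ∈ range g := by rw [← hg]; exact Or.inr ⟨k, rfl⟩
        obtain ⟨i, hi⟩ := this
        rw [← hi]; exact ha3 i
    by_cases hY : (Y α).Infinite
    · obtain ⟨a, ha, hb⟩ := key _ hY
      exact ⟨a, fun _ => ha, hb⟩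
    · obtain ⟨a, ha, hb⟩ := key univ infinite_univ
      exact ⟨a, fun h => absurd h hY, hb⟩
  choose Xf hX1 hX2 hX3 hX4 using h1
  obtain ⟨AA, hAA⟩ := zorn_subset {B : Set (Set ℕ) | B ⊆ range Xf ∧
    B.Pairwise (fun a b => (a ∩ b).Finite)} (by
      intro c hc hchain
      refine ⟨⋃₀ c, ⟨sUnion_subset fun s hs => (hc hs).1, ?_⟩, fun s hs => subset_sUnion_of_mem hs⟩
      rw [Set.pairwise_sUnion hchain.directedOn]
      exact fun s hs => (hc hs).2)
  have hsub : AA ⊆ range Xf := hAA.1.1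
  have hpw : AA.Pairwise (fun a b => (a ∩ b).Finite) := hAA.1.2
  refine ⟨AA, fun a ha => ?_, fun a ha b hb hab => hpw ha hb hab, fun Z hZ => ?_, fun g => ?_,
    fun a ha k => ?_⟩
  · obtain ⟨α, rfl⟩ := hsub ha; exact hX2 α
  · obtain ⟨α, rfl⟩ := Y.surjective Z
    by_cases hmem : Xf α ∈ AA
    · refine ⟨Xf α, hmem, ?_⟩
      rw [inter_eq_left.2 (hX1 α hZ)]; exact hX2 α
    · by_contra hcon
      push Not at hcon
      have h2 : insert (Xf α) AA ⊆ AA := by
        refine hAA.2 ⟨insert_subset ⟨α, rfl⟩ hsub, ?_⟩ (subset_insert _ _)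
        have h3 : ∀ b ∈ AA, (Xf α ∩ b).Finite := by
          intro b hb
          have := hcon b hb
          exact this.subset (fun x hx => ⟨hx.2, hX1 α hZ hx.1⟩)
        refine hpw.insert ?_
        intro b hb _
        exact ⟨h3 b hb, by rw [inter_comm]; exact h3 b hb⟩
      exact hmem (h2 (mem_insert _ _))
  · obtain ⟨γ, rfl⟩ := f.surjective g
    refine ((((hcount γ).union (countable_singleton γ)).image Xf)).mono ?_
    rintro a ⟨ha, hb⟩
    obtain ⟨α, rfl⟩ := hsub ha
    refine ⟨α, ?_, rfl⟩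
    by_contra hlt
    simp only [union_singleton, mem_insert_iff, mem_Iio, not_or, not_lt] at hlt
    exact hb (hX3 α γ (lt_of_le_of_ne hlt.2 (Ne.symm hlt.1)))
  · obtain ⟨α, rfl⟩ := hsub ha; exact hX4 α k

/-! ### the space -/

section space

variable (AA : Set (Set ℕ))

/-- points: the members of `AA` and the finite sets -/
def Sp : Type := {x : Set ℕ // x ∈ AA ∨ x.Finite}

/-- the basic set of points agreeing with `s` below `n` -/
def Nb (s : Set ℕ) (n : ℕ) : Set (Sp AA) := {x | ∀ i < n, i ∈ x.1 ↔ i ∈ s}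

instance : TopologicalSpace (Sp AA) where
  IsOpen U := ∀ s ∈ U, s.1.Finite → ∃ n, Nb AA s.1 n ⊆ U
  isOpen_univ := fun _ _ _ => ⟨0, subset_univ _⟩
  isOpen_inter := by
    intro U V hU hV s hs hf
    obtain ⟨n, hn⟩ := hU s hs.1 hf
    obtain ⟨m, hm⟩ := hV s hs.2 hf
    exact ⟨max n m, fun x hx => ⟨hn fun i hi => hx i (lt_max_of_lt_left hi),
      hm fun i hi => hx i (lt_max_of_lt_right hi)⟩⟩
  isOpen_sUnion := by
    intro c hc s hs hf
    obtain ⟨U, hU, hsU⟩ := hs
    obtain ⟨n, hn⟩ := hc U hU s hsU hf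
    exact ⟨n, hn.trans (subset_sUnion_of_mem hU)⟩

variable {AA}

theorem isOpen_iff' {U : Set (Sp AA)} :
    IsOpen U ↔ ∀ s ∈ U, s.1.Finite → ∃ n, Nb AA s.1 n ⊆ U := Iff.rfl

theorem isOpen_Nb (s : Set ℕ) (n : ℕ) : IsOpen (Nb AA s n) := by
  intro t ht _
  exact ⟨n, fun x hx i hi => (hx i hi).trans (ht i hi)⟩

theorem isClosed_Nb (s : Set ℕ) (n : ℕ) : IsClosed (Nb AA s n) := by
  rw [← isOpen_compl_iff]
  intro t ht _
  refine ⟨n, fun x hx hx' => ht fun i hi => ?_⟩
  rw [← hx i hi]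
  exact hx' i hi

theorem mem_Nb (x : Sp AA) (n : ℕ) : x ∈ Nb AA x.1 n := fun _ _ => Iff.rfl

theorem exists_ne {x y : Sp AA} (h : x ≠ y) : ∃ n, x ∉ Nb AA y.1 n := by
  by_contra hcon
  push Not at hcon
  exact h (Subtype.ext (Set.ext fun i => hcon (i + 1) i (Nat.lt_succ_self i)))

instance : T1Space (Sp AA) := ⟨fun x => by
  rw [← isOpen_compl_iff]
  intro y hy _
  obtain ⟨n, hn⟩ := exists_ne (Ne.symm hy)
  refine ⟨n, fun z hz hzx => hn ?_⟩
  rw [mem_singleton_iff] at hzx
  rw [← hzx]; exact hz⟩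

theorem isOpen_singleton' (hinf : ∀ a ∈ AA, a.Infinite) {x : Sp AA} (hx : x.1 ∈ AA) :
    IsOpen ({x} : Set (Sp AA)) := by
  intro y hy hf
  rw [mem_singleton_iff] at hy
  rw [hy] at hf
  exact absurd hf (hinf _ hx)

/-- every open neighbourhood contains a clopen neighbourhood -/
theorem exists_clopen (hinf : ∀ a ∈ AA, a.Infinite) {x : Sp AA} {U : Set (Sp AA)}
    (hU : IsOpen U) (hx : x ∈ U) : ∃ V ⊆ U, x ∈ V ∧ IsOpen V ∧ IsClosed V := by
  rcases x.2 with h | h
  · exact ⟨{x}, by simpa using hx, rfl, isOpen_singleton' hinf h, isClosed_singleton⟩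
  · obtain ⟨n, hn⟩ := hU x hx h
    exact ⟨_, hn, mem_Nb x n, isOpen_Nb _ _, isClosed_Nb _ _⟩

theorem t35 (hinf : ∀ a ∈ AA, a.Infinite) : T35Space (Sp AA) := by
  have : CompletelyRegularSpace (Sp AA) := ⟨fun x K hK hx => by
    obtain ⟨V, hV, hxV, hVo, hVc⟩ := exists_clopen hinf hK.isOpen_compl hx
    classical
    refine ⟨fun y => if y ∈ V then 0 else 1, ?_, by simp [hxV], fun y hy => ?_⟩
    · refine continuous_def.2 fun s _ => ?_
      by_cases h0 : (0 : unitInterval) ∈ s <;> by_cases h1 : (1 : unitInterval) ∈ s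
      · convert isOpen_univ
        ext y; by_cases hy : y ∈ V <;> simp [hy, h0, h1]
      · convert hVo
        ext y; by_cases hy : y ∈ V <;> simp [hy, h0, h1]
      · convert hVc.isOpen_compl
        ext y; by_cases hy : y ∈ V <;> simp [hy, h0, h1]
      · convert isOpen_empty
        ext y; by_cases hy : y ∈ V <;> simp [hy, h0, h1]
    · have : y ∉ V := fun h => hV h hy
      simp [this]⟩
  exact {}

theorem nhds_fin {x : Sp AA} (h : x.1.Finite) :
    (𝓝 x).HasBasis (fun _ : ℕ => True) (fun n => Nb AA x.1 n) := by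
  refine ⟨fun U => ?_⟩
  constructor
  · intro hU
    obtain ⟨V, hV, hVo, hxV⟩ := mem_nhds_iff.1 hU
    obtain ⟨n, hn⟩ := hVo x hxV h
    exact ⟨n, trivial, hn.trans hV⟩
  · rintro ⟨n, -, hn⟩
    exact mem_of_superset ((isOpen_Nb _ n).mem_nhds (mem_Nb x n)) hn

theorem firstCountable (hinf : ∀ a ∈ AA, a.Infinite) : FirstCountableTopology (Sp AA) := by
  refine ⟨fun x => ?_⟩
  rcases x.2 with h | h
  · have : 𝓝 x = pure x := (isOpen_singleton_iff_nhds_eq_pure x).1 (isOpen_singleton' hinf h)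
    rw [this]; infer_instance
  · exact (nhds_fin h).isCountablyGenerated

/-! ### finite powers are Lindelöf -/

/-- pigeonhole: among `k + 1` consecutive disjoint intervals one is missed by `k` sparse sets -/
theorem exists_gap {ι : Type*} [Fintype ι] (x : ι → Set ℕ) (f : ℕ → ℕ) (hf : ∀ m, m < f m)
    (hs : ∀ i, Sparse (x i) (f^[Fintype.card ι + 1])) :
    ∃ m, ∃ j ≤ Fintype.card ι, ∀ i, ∀ y ∈ x i, f^[j] m ≤ y → f^[j + 1] m ≤ y := by
  choose N hN using hs
  let m := ∑ i, N i
  have hm : ∀ i, N i ≤ m := fun i => Finset.single_le_sum (fun _ _ => Nat.zero_le _)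
    (Finset.mem_univ i)
  refine ⟨m, ?_⟩
  by_contra hcon
  push Not at hcon
  have hmono : Monotone (fun j => f^[j] m) := monotone_nat_of_le_succ fun j => by
    rw [Function.iterate_succ_apply']; exact (hf _).le
  have h1 : ∀ j : Fin (Fintype.card ι + 1), ∃ i, ∃ y ∈ x i, f^[j] m ≤ y ∧ y < f^[j + 1] m :=
    fun j => hcon j (Nat.lt_succ_iff.1 j.2)
  choose i y hy1 hy2 hy3 using h1
  obtain ⟨j, k, hjk, hik⟩ := Fintype.exists_ne_map_eq_of_card_lt i (by simp)
  have h2 : ∀ j k : Fin (Fintype.card ι + 1), j < k → i j = i k → False := by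
    intro j k hjk hik
    have h3 : y j < y k := lt_of_lt_of_le (hy3 j) (le_trans (hmono (Nat.succ_le_of_lt hjk)) (hy2 k))
    have h4 := hN (i j) m (hm _) (y j) (hy1 j) (y k) (by rw [hik]; exact hy1 k)
      (le_trans (hmono (Nat.zero_le j.1)) (hy2 j)) h3
    have h5 : f^[k.1 + 1] m ≤ f^[Fintype.card ι + 1] m := hmono (Nat.succ_le_of_lt k.2)
    have := hy3 k
    omega
  rcases lt_or_gt_of_ne hjk with h | h
  · exact h2 j k h hik
  · exact h2 k j h hik.symm

theorem sparse_of_finite {a : Set ℕ} (h : a.Finite) (f : ℕ → ℕ) : Sparse a f := by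
  obtain ⟨b, hb⟩ := h.bddAbove
  exact ⟨b + 1, fun m hm x hx _ _ hmx _ => by have := hb hx; omega⟩

theorem lindelof (hcount : ∀ f : ℕ → ℕ, {a ∈ AA | ¬ Sparse a f}.Countable) (k : ℕ) :
    LindelofSpace (Fin k → Sp AA) := by
  induction k with
  | zero => infer_instance
  | succ k ih =>
    refine ⟨isLindelof_of_countable_subcover fun {ι} U hUo hU => ?_⟩
    -- finite tuples
    let pt : Finset ℕ → Sp AA := fun s => ⟨(s : Set ℕ), Or.inr s.finite_toSet⟩
    have h1 : ∀ s : Fin (k + 1) → Finset ℕ, ∃ i : ι, ∃ n : ℕ,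
        {x : Fin (k + 1) → Sp AA | ∀ j, x j ∈ Nb AA (s j) n} ⊆ U i := by
      intro s
      obtain ⟨i, hi⟩ := mem_iUnion.1 (hU (mem_univ (fun j => pt (s j))))
      obtain ⟨V, hV, hVU⟩ := isOpen_pi_iff'.1 (hUo i) _ hi
      have h2 : ∀ j, ∃ n, Nb AA (s j) n ⊆ V j := fun j =>
        (hV j).1 (pt (s j)) (hV j).2 (s j).finite_toSet
      choose n hn using h2
      refine ⟨i, ∑ j, n j, fun x hx => hVU fun j _ => hn j fun l hl => hx j l (lt_of_lt_of_le hl ?_)⟩
      exact Finset.single_le_sum (fun _ _ => Nat.zero_le _) (Finset.mem_univ j)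
    choose i n hn using h1
    let f : ℕ → ℕ := fun m =>
      m + 1 + ∑ s ∈ Fintype.piFinset (fun _ : Fin (k + 1) => (Finset.range m).powerset), n s
    have hf : ∀ m, m < f m := fun m => by simp only [f]; omega
    let g : ℕ → ℕ := f^[Fintype.card (Fin (k + 1)) + 1]
    have hB := hcount g
    set B := {a ∈ AA | ¬ Sparse a g} with hBdef
    have : Countable B := hB.to_subtype
    -- the exceptional points
    have hE : IsLindelof (⋃ p : Fin (k + 1) × B,
        range (fun x : Fin k → Sp AA =>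
          (p.1.insertNth (⟨p.2.1, Or.inl p.2.2.1⟩ : Sp AA) x : Fin (k + 1) → Sp AA))) := by
      refine isLindelof_iUnion fun p => ?_
      rw [← image_univ]
      exact (isLindelof_univ).image (Continuous.finInsertNth p.1 continuous_const continuous_id)
    obtain ⟨r, hr, hr2⟩ := hE.elim_countable_subcover U hUo (subset_trans (subset_univ _) hU)
    refine ⟨r ∪ range i, hr.union (countable_range i), fun x _ => ?_⟩
    by_cases hx : ∃ j, (x j).1 ∈ B
    · obtain ⟨j, hj⟩ := hx
      have hx2 : x ∈ ⋃ p : Fin (k + 1) × B,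
        range (fun x : Fin k → Sp AA =>
          (p.1.insertNth (⟨p.2.1, Or.inl p.2.2.1⟩ : Sp AA) x : Fin (k + 1) → Sp AA)) := by
        refine mem_iUnion.2 ⟨(j, ⟨(x j).1, hj⟩), fun l => x (j.succAbove l), ?_⟩
        exact Fin.insertNth_self_removeNth j x
      have := hr2 hx2
      simp only [mem_iUnion] at this ⊢
      obtain ⟨l, hl, hxl⟩ := this
      exact ⟨l, Or.inl hl, hxl⟩
    · push Not at hx
      have hsp : ∀ j, Sparse (x j).1 g := by
        intro j
        rcases (x j).2 with h | h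
        · by_contra hcon
          exact hx j ⟨h, hcon⟩
        · exact sparse_of_finite h g
      obtain ⟨m, j, -, hj⟩ := exists_gap (fun j => (x j).1) f hf hsp
      classical
      let s : Fin (k + 1) → Finset ℕ := fun l => (Finset.range (f^[j] m)).filter (· ∈ (x l).1)
      have hns : n s ≤ f^[j + 1] m := by
        rw [Function.iterate_succ_apply']
        have : n s ≤ ∑ s ∈ Fintype.piFinset
            (fun _ : Fin (k + 1) => (Finset.range (f^[j] m)).powerset), n s := by
          refine Finset.single_le_sum (fun _ _ => Nat.zero_le _) ?_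
          rw [Fintype.mem_piFinset]
          intro l
          rw [Finset.mem_powerset]
          exact Finset.filter_subset _ _
        simp only [f] at *
        omega
      have hxs : x ∈ U (i s) := by
        apply hn s
        intro l e he
        constructor
        · intro hel
          have h3 : e < f^[j] m := by
            by_contra hcon
            have := hj l e hel (not_lt.1 hcon)
            omega
          simp only [s, Finset.coe_filter, Finset.mem_range, mem_ofPred_eq]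
          exact ⟨h3, hel⟩
        · intro hel
          simp only [s, Finset.coe_filter, Finset.mem_range, mem_ofPred_eq] at hel
          exact hel.2
      simp only [mem_iUnion]
      exact ⟨i s, Or.inr ⟨s, rfl⟩, hxs⟩

/-! ### the space is not Grothendieck -/

open Classical in
/-- the function `x ↦ [n ∈ x]` -/
noncomputable def bf (AA : Set (Set ℕ)) (n : ℕ) : Sp AA → ℝ := fun x => if n ∈ x.1 then 1 else 0

/-- the point given by a finite set -/
def pt (s : Set ℕ) (h : s.Finite) : Sp AA := ⟨s, Or.inr h⟩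

open Classical in
/-- characteristic function of a singleton -/
noncomputable def ch (a : Sp AA) : Sp AA → ℝ := fun x => if x = a then 1 else 0

theorem continuous_of_fin (hinf : ∀ a ∈ AA, a.Infinite) {φ : Sp AA → ℝ}
    (h : ∀ s : Sp AA, s.1.Finite → ∃ n, ∀ x ∈ Nb AA s.1 n, φ x = φ s) : Continuous φ := by
  rw [continuous_iff_continuousAt]
  intro x
  rcases x.2 with hx | hx
  · have : 𝓝 x = pure x := (isOpen_singleton_iff_nhds_eq_pure x).1 (isOpen_singleton' hinf hx)
    rw [ContinuousAt, this]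
    exact tendsto_pure_nhds _ _
  · obtain ⟨n, hn⟩ := h x hx
    refine (tendsto_const_nhds (x := φ x)).congr' ?_
    filter_upwards [(isOpen_Nb x.1 n).mem_nhds (mem_Nb x n)] with y hy
    exact (hn y hy).symm

theorem continuous_bf (hinf : ∀ a ∈ AA, a.Infinite) (n : ℕ) : Continuous (bf AA n) := by
  refine continuous_of_fin hinf fun s _ => ⟨n + 1, fun x hx => ?_⟩
  have := hx n (Nat.lt_succ_self n)
  by_cases h : n ∈ s.1
  · simp [bf, h, this.2 h]
  · have h2 : n ∉ x.1 := fun h' => h (this.1 h')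
    simp [bf, h, h2]

theorem continuous_ch (hinf : ∀ a ∈ AA, a.Infinite) {a : Sp AA} (ha : a.1 ∈ AA) :
    Continuous (ch a) := by
  refine continuous_of_fin hinf fun s hs => ?_
  have hne : a ≠ s := by
    rintro rfl
    exact (hinf _ ha) hs
  obtain ⟨n, hn⟩ := exists_ne hne
  refine ⟨n, fun x hx => ?_⟩
  have : x ≠ a := by
    rintro rfl
    exact hn hx
  simp [ch, this, Ne.symm hne]

theorem closure_cases (hdis : ∀ a ∈ AA, ∀ b ∈ AA, a ≠ b → (a ∩ b).Finite) {φ : Sp AA → ℝ}
    (hφ : φ ∈ closure (range (bf AA))) :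
    (∃ n, φ = bf AA n) ∨ φ = 0 ∨ ∃ a : Sp AA, a.1 ∈ AA ∧ φ = ch a := by
  have hne : (comap (bf AA) (𝓝 φ)).NeBot := by
    rw [comap_neBot_iff]
    intro t ht
    obtain ⟨_, h1, ⟨n, rfl⟩⟩ := mem_closure_iff_nhds.1 hφ t ht
    exact ⟨n, h1⟩
  let u : Ultrafilter ℕ := Ultrafilter.of (comap (bf AA) (𝓝 φ))
  have hu : Tendsto (bf AA) u (𝓝 φ) := tendsto_iff_comap.2 (Ultrafilter.of_le _)
  rw [tendsto_pi_nhds] at hu
  have h1 : ∀ x : Sp AA, x.1 ∈ u → φ x = 1 := by
    intro x hx
    refine tendsto_nhds_unique (hu x) ?_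
    refine (tendsto_const_nhds (x := (1 : ℝ))).congr' ?_
    filter_upwards [hx] with n hn
    simp [bf, hn]
  have h0 : ∀ x : Sp AA, x.1 ∉ u → φ x = 0 := by
    intro x hx
    refine tendsto_nhds_unique (hu x) ?_
    refine (tendsto_const_nhds (x := (0 : ℝ))).congr' ?_
    filter_upwards [Ultrafilter.compl_mem_iff_notMem.2 hx] with n hn
    have : n ∉ x.1 := hn
    simp [bf, this]
  by_cases hp : ∃ s : Set ℕ, s.Finite ∧ s ∈ u
  · obtain ⟨s, hs, hsu⟩ := hp
    obtain ⟨n, -, hn⟩ := Ultrafilter.eq_pure_of_finite_mem hs hsu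
    left
    refine ⟨n, funext fun x => ?_⟩
    by_cases hx : n ∈ x.1
    · rw [h1 x (by rw [hn]; exact hx)]; simp [bf, hx]
    · rw [h0 x (by rw [hn]; exact hx)]; simp [bf, hx]
  · push Not at hp
    right
    by_cases ha : ∃ a : Sp AA, a.1 ∈ AA ∧ a.1 ∈ u
    · obtain ⟨a, ha, hau⟩ := ha
      right
      refine ⟨a, ha, funext fun x => ?_⟩
      by_cases hx : x = a
      · rw [hx, h1 a hau]; simp [ch]
      · rw [h0 x]
        · simp [ch, hx]
        · intro hxu
          rcases x.2 with h | h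
          · have : x.1 ≠ a.1 := fun h => hx (Subtype.ext h)
            exact hp _ (hdis _ h _ ha this) (inter_mem hxu hau)
          · exact hp _ h hxu
    · push Not at ha
      left
      funext x
      rw [h0 x]
      · rfl
      · intro hxu
        rcases x.2 with h | h
        · exact ha x h hxu
        · exact hp _ h hxu

theorem zero_mem_closure (hsp : ∀ a ∈ AA, ∀ k, Sparse a (fun m => m + k)) :
    (0 : Sp AA → ℝ) ∈ closure (range (bf AA)) := by
  rw [mem_closure_iff]
  intro o ho h0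
  obtain ⟨I, u, hu, hI⟩ := isOpen_pi_iff.1 ho _ h0
  have hs : ∀ i : I, Sparse i.1.1 ((fun m => m + 1)^[Fintype.card I + 1]) := by
    intro i
    rcases i.1.2 with h | h
    · have := hsp _ h (Fintype.card I + 1)
      convert this using 1
      funext m
      simp
      omega
    · exact sparse_of_finite h _
  obtain ⟨m, j, -, hj⟩ := exists_gap (fun i : I => i.1.1) (fun m => m + 1)
    (fun m => Nat.lt_succ_self m) hs
  refine ⟨bf AA ((fun m => m + 1)^[j] m), hI fun x hx => ?_, ⟨_, rfl⟩⟩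
  have h1 : (fun m => m + 1)^[j] m ∉ x.1 := by
    intro hmem
    have := hj ⟨x, hx⟩ _ hmem le_rfl
    rw [Function.iterate_succ_apply'] at this
    omega
  have h2 : bf AA ((fun m => m + 1)^[j] m) x = 0 := by simp only [bf, h1, if_false]
  rw [h2]
  exact (hu x hx).2

theorem bf_ne_zero (n : ℕ) : bf AA n ≠ 0 := by
  intro h
  have := congrFun h (pt {n} (finite_singleton n))
  simp [bf, pt] at this

theorem bf_injective : Function.Injective (bf AA) := by
  intro n m h
  have := congrFun h (pt {n} (finite_singleton n))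
  by_contra hne
  have h2 : m ≠ n := fun h => hne h.symm
  simp [bf, pt, h2] at this

theorem not_grothendieck (hinf : ∀ a ∈ AA, a.Infinite)
    (hdis : ∀ a ∈ AA, ∀ b ∈ AA, a ≠ b → (a ∩ b).Finite)
    (hmad : ∀ Y : Set ℕ, Y.Infinite → ∃ a ∈ AA, (a ∩ Y).Infinite)
    (hsp : ∀ a ∈ AA, ∀ k, Sparse a (fun m => m + k)) :
    ¬ Pool.Agent.Helper49.Gr.Grothendieck (Sp AA) := by
  intro hG
  have hAS : range (bf AA) ⊆ closure (range (bf AA)) \ {0} := by
    rintro _ ⟨n, rfl⟩
    exact ⟨subset_closure ⟨n, rfl⟩, bf_ne_zero n⟩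
  have hcpt := hG (closure (range (bf AA)) \ {0}) (range (bf AA)) ?_ hAS ?_
  · have h1 : closure (range (bf AA)) ∩ (closure (range (bf AA)) \ {0}) =
        closure (range (bf AA)) \ {0} := by
      rw [inter_eq_right]; exact sdiff_subset
    rw [h1] at hcpt
    have h2 := closure_mono hAS (zero_mem_closure hsp)
    rw [hcpt.isClosed.closure_eq] at h2
    exact h2.2 rfl
  · rintro φ ⟨hφ, -⟩
    rcases closure_cases hdis hφ with ⟨n, rfl⟩ | rfl | ⟨a, ha, rfl⟩
    · exact continuous_bf hinf n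
    · exact continuous_zero
    · exact continuous_ch hinf ha
  · intro B hB hBinf
    have hI : (bf AA ⁻¹' B).Infinite := hBinf.preimage hB
    obtain ⟨a, ha, haI⟩ := hmad _ hI
    let a' : Sp AA := ⟨a, Or.inl ha⟩
    have hNe : (cofinite ⊓ 𝓟 (a ∩ bf AA ⁻¹' B)).NeBot := by
      rw [cofinite_inf_principal_neBot_iff]; exact haI
    have ht : Tendsto (bf AA) (cofinite ⊓ 𝓟 (a ∩ bf AA ⁻¹' B)) (𝓝 (ch a')) := by
      rw [tendsto_pi_nhds]
      intro x
      by_cases hx : x = a'
      · refine (tendsto_const_nhds (x := ch a' x)).congr' ?_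
        have : a ∩ bf AA ⁻¹' B ∈ cofinite ⊓ 𝓟 (a ∩ bf AA ⁻¹' B) :=
          mem_inf_of_right (mem_principal_self _)
        filter_upwards [this] with n hn
        have : n ∈ x.1 := by rw [hx]; exact hn.1
        simp [ch, bf, hx]
        exact hn.1
      · have hfin : (x.1 ∩ a).Finite := by
          rcases x.2 with h | h
          · exact hdis _ h _ ha fun h => hx (Subtype.ext h)
          · exact h.subset inter_subset_left
        refine (tendsto_const_nhds (x := ch a' x)).congr' ?_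
        have h1 : a ∩ bf AA ⁻¹' B ∈ cofinite ⊓ 𝓟 (a ∩ bf AA ⁻¹' B) :=
          mem_inf_of_right (mem_principal_self _)
        have h2 : (x.1 ∩ a)ᶜ ∈ cofinite ⊓ 𝓟 (a ∩ bf AA ⁻¹' B) :=
          mem_inf_of_left hfin.compl_mem_cofinite
        filter_upwards [h1, h2] with n hn hn2
        have : n ∉ x.1 := fun h => hn2 ⟨h, hn.1⟩
        simp [ch, bf, this, hx]
    have hmem : ch a' ∈ closure (range (bf AA)) :=
      mem_closure_of_tendsto ht (Eventually.of_forall fun n => ⟨n, rfl⟩)
    refine ⟨ch a', ⟨hmem, fun h => ?_⟩, ?_⟩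
    · have := congrFun h a'
      simp [ch] at this
    · rw [accPt_iff_frequently]
      have h3 : ∃ᶠ n in cofinite ⊓ 𝓟 (a ∩ bf AA ⁻¹' B), bf AA n ≠ ch a' ∧ bf AA n ∈ B := by
        refine Eventually.frequently ?_
        have : a ∩ bf AA ⁻¹' B ∈ cofinite ⊓ 𝓟 (a ∩ bf AA ⁻¹' B) :=
          mem_inf_of_right (mem_principal_self _)
        filter_upwards [this] with n hn
        refine ⟨fun h => ?_, hn.2⟩
        have := congrFun h (pt {n} (finite_singleton n))
        have hne : (pt {n} (finite_singleton n) : Sp AA) ≠ a' := by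
          intro h
          have h2 : ({n} : Set ℕ) = a := congrArg Subtype.val h
          exact hinf _ ha (h2 ▸ finite_singleton n)
        simp [bf, ch, hne] at this
        exact this rfl
      exact ht.frequently h3

end space

/-- **Under CH there is a first countable (completely regular) space all of whose finite powers
are Lindelöf and which is not Grothendieck.** -/
theorem ch_example (h : 𝔠 = ℵ₁) : ∃ (X : Type) (_ : TopologicalSpace X), T35Space X ∧
    FirstCountableTopology X ∧ Pool.Agent.Helper49.Gr.LindelofPowers X ∧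
    ¬ Pool.Agent.Helper49.Gr.Grothendieck X := by
  have h0 : 𝔠 = (ℵ₁ : Cardinal.{0}) := by
    have h1 : Cardinal.lift.{_, 0} 𝔠 = Cardinal.lift.{_, 0} (ℵ₁ : Cardinal.{0}) := by
      simpa using h
    exact Cardinal.lift_injective h1
  obtain ⟨AA, hinf, hdis, hmad, hcount, hsp⟩ := core h0
  exact ⟨Sp AA, inferInstance, t35 hinf, firstCountable hinf, fun n => lindelof hcount n,
    not_grothendieck hinf hdis hmad hsp⟩

end Pool.Agent.Helper41.GrCH
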