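import Pool.Agent.Helper63.Cube7.NF
import Pool.Agent.Helper67.Cube8.Defs

/-!
# Normal form of a vertex simplex of the 7-cube with an exterior facet in a given class
-/

set_option autoImplicit false

namespace Helper41.NF

open Helper67.Cube Helper67.Cube6 Helper67.BS Helper67.Cube8 Helper67.Cube18 Helper63.Cube7

lemma inv_phi {Φ : (Fin 7 → Fin 6 → ℝ) → ℝ} (h : Inv6 Φ) : InvPhi Φ :=
  fun g σ w => h w (fun q => gmap g (w (σ q))) g σ fun _ => rfl

/-- the simplex `sv c v` up to symmetry and order of the vertices -/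
theorem nf0 {w : Fin 8 → Fin 7 → ℝ} (hw : AffineIndependent ℝ w)
    (hv : ∀ i j, w i j = 0 ∨ w i j = 1) {i : Fin 8} {j : Fin 7} {a : ℝ} (ha : a = 0 ∨ a = 1)
    (h : ∀ i', i' ≠ i → w i' j = a) {c : ℕ}
    (hc : ∃ g : Sym 6, ∀ q, ∃ q' < 7, gmap g (rem w i j q) = vtx 6 (vc c q')) :
    ∃ v < 64, ∃ (G : Sym 7) (σ : Equiv.Perm (Fin 8)), (fun q => gmap G (w (σ q))) = sv c v := by
  obtain ⟨g, hg⟩ := hc
  obtain ⟨σ0, hσ0⟩ := exists_order (aff_rem hw h) hg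
  obtain ⟨v, hv1, hv2⟩ := exists_code (gmap g (fun k' => w i (j.succAbove k')))
    (gmap_bool g fun k => hv _ _)
  obtain ⟨G, σ, h1, h2, h3, h4⟩ := nf_core hw hv ha h g σ0 0 0
  refine ⟨v, hv1, G, σ, ?_⟩
  funext q
  refine Fin.cases ?_ (fun q => ?_) q
  · funext l
    refine Fin.cases ?_ (fun k => ?_) l
    · exact h1
    · have h5 := h2 k
      rw [Fin.zero_succAbove] at h5
      rw [h5, ← hv2]
      rfl
  · funext l
    refine Fin.cases ?_ (fun k => ?_) l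
    · have h5 := h3 q
      rw [Fin.zero_succAbove] at h5
      exact h5
    · have h5 := h4 q k
      rw [Fin.zero_succAbove, Fin.zero_succAbove] at h5
      rw [h5, hσ0 q]
      rfl

/-- **normal form** -/
theorem nf {w : Fin 8 → Fin 7 → ℝ} (hw : AffineIndependent ℝ w)
    (hv : ∀ i j, w i j = 0 ∨ w i j = 1) {i : Fin 8} {j : Fin 7} {a : ℝ} (ha : a = 0 ∨ a = 1)
    (h : ∀ i', i' ≠ i → w i' j = a) {c : ℕ}
    (hc : ∃ g : Sym 6, ∀ q, ∃ q' < 7, gmap g (rem w i j q) = vtx 6 (vc c q')) :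
    ∃ v < 64, AffineIndependent ℝ (sv c v) ∧ vdet w = vdet (sv c v) ∧ kk w = kk (sv c v) ∧
      ∀ Φ, Inv6 Φ → ∑ j, (fphi Φ w j 0 + fphi Φ w j 1) =
        ∑ j, (fphi Φ (sv c v) j 0 + fphi Φ (sv c v) j 1) := by
  obtain ⟨v, hv1, G, σ, hG⟩ := nf0 hw hv ha h hc
  refine ⟨v, hv1, ?_, ?_, ?_, fun Φ hΦ => ?_⟩
  · rw [← hG]
    exact aff_sym G σ hw
  · rw [← hG]
    exact ((vdet_gmap G (fun q => w (σ q))).trans (vdet_comp σ w)).symm
  · rw [← hG]
    exact ((kk_gmap G (fun q => w (σ q))).trans (kk_comp σ w)).symm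
  · rw [← hG]
    exact (sum_fphi_inv (by norm_num) (inv_phi hΦ) G σ hw).symm

end Helper41.NF
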