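import Pool.Agent.Helper41.BarbaSmall

/-!
# The largest determinant of a 0/1 matrix of order 8 is at most 56
-/

namespace Helper41.Barba

open Matrix
open scoped MatrixOrder ComplexOrder

lemma fischer' {m k : Type} [Fintype m] [Fintype k] [DecidableEq m] [DecidableEq k]
    {A : Matrix m m ℝ} {B : Matrix m k ℝ} {D : Matrix k k ℝ}
    (h : (fromBlocks A B Bᴴ D).PosSemidef) : (fromBlocks A B Bᴴ D).det ≤ A.det * D.det := by
  by_cases h0 : (fromBlocks A B Bᴴ D).det = 0
  · rw [h0]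
    have hA : A.PosSemidef := h.submatrix Sum.inl
    have hD : D.PosSemidef := h.submatrix Sum.inr
    exact mul_nonneg hA.det_nonneg hD.det_nonneg
  · exact fischer (h.posDef_iff_det_ne_zero.mpr h0)

lemma blk {m k : Type} {H : Matrix (m ⊕ k) (m ⊕ k) ℝ} (hH : H.IsHermitian) :
    H = fromBlocks H.toBlocks₁₁ H.toBlocks₁₂ H.toBlocks₁₂ᴴ H.toBlocks₂₂ := by
  conv_lhs => rw [← fromBlocks_toBlocks H]
  congr 1
  ext i j
  have := hH.apply (Sum.inr i) (Sum.inl j)
  simpa [toBlocks₂₁, toBlocks₁₂] using this.symm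

lemma peel2 {n t : ℝ} (ht : 0 < t) {α κ : Type} [Unique α] [Fintype α]
    [DecidableEq α] [Fintype κ] [DecidableEq κ]
    {A : Matrix α α ℝ} {B : Matrix α κ ℝ} {D : Matrix κ κ ℝ}
    (hD : D.PosDef) (hA : A default default = n) :
    (fromBlocks A B Bᴴ D).det ≤ (n - t) * D.det ∨
      ((D - t⁻¹ • (Bᴴ * B)).PosSemidef ∧
        (fromBlocks A B Bᴴ D).det = (n - t) * D.det + t * (D - t⁻¹ • (Bᴴ * B)).det) := by
  let _ : Invertible D := hD.isUnit.invertible
  have hdet := hD.det_pos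
  rw [det_fromBlocks₂₂, det_unique (A - _), invOf_eq_nonsing_inv, Matrix.sub_apply, hA]
  set q := (B * D⁻¹ * Bᴴ) default default with hq
  by_cases hqt : t - q ≤ 0
  · left; nlinarith
  · right
    push Not at hqt
    have hA0 : (t • (1 : Matrix α α ℝ)).PosDef := PosDef.one.smul ht
    let _ : Invertible (t • (1 : Matrix α α ℝ)) := hA0.isUnit.invertible
    have hinv : (t • (1 : Matrix α α ℝ))⁻¹ = t⁻¹ • (1 : Matrix α α ℝ) := by
      refine inv_eq_right_inv ?_
      rw [smul_mul_smul_comm, mul_one, mul_inv_cancel₀ ht.ne', one_smul]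
    have h0 : ((t • (1 : Matrix α α ℝ)) - B * D⁻¹ * Bᴴ).PosSemidef := by
      have : (t • (1 : Matrix α α ℝ)) - B * D⁻¹ * Bᴴ = diagonal fun _ => t - q := by
        ext i j
        obtain rfl := Subsingleton.elim i default
        obtain rfl := Subsingleton.elim j default
        simp [hq]
      rw [this]
      exact PosSemidef.diagonal (fun _ => hqt.le)
    have h1 := (PosDef.fromBlocks₂₂ (t • (1 : Matrix α α ℝ)) B hD).mpr h0
    have h2 := (PosDef.fromBlocks₁₁ B D hA0).mp h1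
    have h3 : D.det * (t - q) = t * (D - Bᴴ * (t • (1 : Matrix α α ℝ))⁻¹ * B).det := by
      have e1 := det_fromBlocks₂₂ (t • (1 : Matrix α α ℝ)) B Bᴴ D
      have e2 := det_fromBlocks₁₁ (t • (1 : Matrix α α ℝ)) B Bᴴ D
      rw [e1, det_unique (t • (1 : Matrix α α ℝ) - _), det_unique (t • (1 : Matrix α α ℝ)),
        invOf_eq_nonsing_inv, invOf_eq_nonsing_inv] at e2
      simpa [hq] using e2
    have h4 : Bᴴ * (t • (1 : Matrix α α ℝ))⁻¹ * B = t⁻¹ • (Bᴴ * B) := by
      rw [hinv, Matrix.mul_smul, Matrix.mul_one, Matrix.smul_mul]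
    rw [h4] at h2 h3
    refine ⟨h2, ?_⟩
    rw [← h3]; ring

/-- the index `0` of `Fin (m+1)` is moved to the front -/
def eqv (α : Type) (m : ℕ) : Unit ⊕ (α ⊕ Fin m) ≃ α ⊕ Fin (m+1) where
  toFun := Sum.elim (fun _ => Sum.inr 0) (Sum.map id Fin.succ)
  invFun := Sum.elim (fun a => Sum.inr (Sum.inl a))
    (Fin.cases (Sum.inl ()) (fun j => Sum.inr (Sum.inr j)))
  left_inv := by rintro (_ | a | j) <;> simp
  right_inv := by
    rintro (a | j)
    · simp
    · refine Fin.cases ?_ (fun j => ?_) j <;> simp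

theorem lemC {n t β : ℝ} (ht : 0 < t) (htn : t ≤ n) (hβ : 0 ≤ β) {α : Type} [Fintype α]
    [DecidableEq α] (m : ℕ) :
    ∀ (H : Matrix (α ⊕ Fin m) (α ⊕ Fin m) ℝ), H.PosDef → (∀ j, H (Sum.inr j) (Sum.inr j) = n) →
      (∀ i j, i ≠ j → t ≤ |H (Sum.inr i) (Sum.inr j)|) →
      (∀ j, t * (H.toBlocks₁₁ - t⁻¹ • vecMulVec (fun a => H (Sum.inr j) (Sum.inl a))
        (fun a => H (Sum.inr j) (Sum.inl a))).det ≤ β) →
      (n - t) * H.det ≤ (n - t) ^ m * ((n - t) * H.toBlocks₁₁.det + m * β) := by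
  induction m with
  | zero =>
    intro H _ _ _ _
    have h := det_submatrix_equiv_self (Equiv.sumEmpty α (Fin 0)).symm H
    have e : H.submatrix (Equiv.sumEmpty α (Fin 0)).symm (Equiv.sumEmpty α (Fin 0)).symm
        = H.toBlocks₁₁ := by ext i j; rfl
    rw [e] at h
    rw [h]; simp
  | succ m ih =>
    intro H hH hd ho hγ
    have hnt : 0 ≤ n - t := by linarith
    set e := eqv α m with he
    set H2 := H.submatrix e e with hH2
    have hp2 : H2.PosDef := hH.submatrix e.injective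
    have hdet : H2.det = H.det := det_submatrix_equiv_self e H
    have hb2 := blk hp2.isHermitian
    have hD2 : H2.toBlocks₂₂.PosDef := hp2.submatrix Sum.inr_injective
    have hA2 : H2.toBlocks₂₂.toBlocks₁₁ = H.toBlocks₁₁ := by ext i j; rfl
    have h1 := ih H2.toBlocks₂₂ hD2 (fun j => hd j.succ)
      (fun i j hij => ho i.succ j.succ (fun h => hij (Fin.succ_injective _ h)))
      (fun j => hγ j.succ)
    rw [hA2] at h1
    have h2 := mul_le_mul_of_nonneg_left h1 hnt
    rcases peel2 (n := n) ht (A := H2.toBlocks₁₁) (B := H2.toBlocks₁₂) hD2 (hd 0) with h3 | ⟨h3, h4⟩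
    · rw [← hb2, hdet] at h3
      have h5 := mul_le_mul_of_nonneg_left h3 hnt
      have h6 : 0 ≤ (n - t) ^ (m + 1) * β := by positivity
      push_cast
      rw [pow_succ] at h6 ⊢
      nlinarith
    · rw [← hb2, hdet] at h4
      set S := H2.toBlocks₂₂ - t⁻¹ • (H2.toBlocks₁₂ᴴ * H2.toBlocks₁₂) with hS
      have hSb := blk h3.isHermitian
      have h5 : S.det ≤ S.toBlocks₁₁.det * S.toBlocks₂₂.det := by
        conv_lhs => rw [hSb]
        exact fischer' (hSb ▸ h3)
      have hS1 : S.toBlocks₁₁.PosSemidef := h3.submatrix Sum.inl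
      have hS2 : S.toBlocks₂₂.PosSemidef := h3.submatrix Sum.inr
      have h6 : S.toBlocks₂₂.det ≤ (n - t) ^ m := by
        refine (had_psd' hS2).trans ?_
        conv_rhs => rw [← Fintype.card_fin m, Fintype.card, ← Finset.prod_const]
        refine Finset.prod_le_prod (fun j _ => hS2.diag_nonneg) fun j _ => ?_
        have e1 : S.toBlocks₂₂ j j = n - t⁻¹ * (H (Sum.inr 0) (Sum.inr j.succ)) ^ 2 := by
          have : S.toBlocks₂₂ j j = H (Sum.inr j.succ) (Sum.inr j.succ)
              - t⁻¹ * (H (Sum.inr 0) (Sum.inr j.succ) * H (Sum.inr 0) (Sum.inr j.succ)) := by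
            simp [hS, toBlocks₂₂, toBlocks₁₂, mul_apply, hH2, he, eqv]
          rw [this, hd]; ring
        rw [e1]
        have h7 : t ^ 2 ≤ (H (Sum.inr 0) (Sum.inr j.succ)) ^ 2 := by
          rw [← sq_abs (H (Sum.inr 0) (Sum.inr j.succ))]
          exact pow_le_pow_left₀ ht.le (ho _ _ (Fin.succ_ne_zero j).symm) 2
        have h8 : t ≤ t⁻¹ * (H (Sum.inr 0) (Sum.inr j.succ)) ^ 2 := by
          rw [inv_mul_eq_div, le_div_iff₀ ht]; nlinarith
        linarith
      have e2 : S.toBlocks₁₁ = H.toBlocks₁₁ - t⁻¹ • vecMulVec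
          (fun a => H (Sum.inr 0) (Sum.inl a)) (fun a => H (Sum.inr 0) (Sum.inl a)) := by
        ext i j
        simp [hS, toBlocks₂₂, toBlocks₁₂, toBlocks₁₁, mul_apply, hH2, he, eqv, vecMulVec]
      have h7 : t * S.toBlocks₁₁.det ≤ β := by rw [e2]; exact hγ 0
      have h8 : t * S.det ≤ β * (n - t) ^ m := by
        calc t * S.det ≤ t * (S.toBlocks₁₁.det * S.toBlocks₂₂.det) :=
              mul_le_mul_of_nonneg_left h5 ht.le
          _ = (t * S.toBlocks₁₁.det) * S.toBlocks₂₂.det := by ring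
          _ ≤ β * S.toBlocks₂₂.det := mul_le_mul_of_nonneg_right h7 hS2.det_nonneg
          _ ≤ β * (n - t) ^ m := mul_le_mul_of_nonneg_left h6 hβ
      have h9 := mul_le_mul_of_nonneg_left h8 hnt
      rw [h4]
      push_cast
      rw [pow_succ]
      nlinarith

lemma exists_equiv {r m N : ℕ} (f : Fin r → Fin N) (hf : Function.Injective f) (hm : r + m = N) :
    ∃ e : Fin r ⊕ Fin m ≃ Fin N, ∀ a, e (Sum.inl a) = f a := by
  classical
  have hc : Fintype.card ↥(Set.range f)ᶜ = m := by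
    rw [Fintype.card_compl_set, Set.card_range_of_injective hf, Fintype.card_fin, Fintype.card_fin]
    omega
  refine ⟨(Equiv.sumCongr (Equiv.ofInjective f hf) (Fintype.equivFinOfCardEq hc).symm).trans
    (Equiv.Set.sumCompl (Set.range f)), fun a => ?_⟩
  simp

lemma ap {r m N : ℕ} {n β : ℝ} (hn : 1 ≤ n) (f : Fin r → Fin N) (hf : Function.Injective f)
    (hm : r + m = N) {G : Matrix (Fin N) (Fin N) ℝ} (hG : G.PosDef) (hd : ∀ i, G i i = n)
    (ho : ∀ i j, i ≠ j → 1 ≤ |G i j|) (hβ : 0 ≤ β)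
    (hγ : ∀ j, (∀ a, j ≠ f a) → (G.submatrix f f - vecMulVec (fun a => G j (f a))
      (fun a => G j (f a))).det ≤ β) :
    (n - 1) * G.det ≤ (n - 1) ^ m * ((n - 1) * (G.submatrix f f).det + m * β) := by
  obtain ⟨e, he⟩ := exists_equiv f hf hm
  have hp : (G.submatrix e e).PosDef := hG.submatrix e.injective
  have hA : (G.submatrix e e).toBlocks₁₁ = G.submatrix f f := by
    ext i j; simp [toBlocks₁₁, he]
  have h := lemC (n := n) (t := 1) (β := β) one_pos hn hβ m (G.submatrix e e) hp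
    (fun j => hd _) (fun i j hij => ho _ _ (fun h => hij (Sum.inr_injective (e.injective h)))) ?_
  · rw [hA, det_submatrix_equiv_self] at h
    exact h
  · intro j
    rw [hA, one_mul, inv_one, one_smul]
    have h1 := hγ (e (Sum.inr j)) (fun a h => by
      rw [← he a] at h
      have := e.injective h
      simp at this)
    simpa [he] using h1

/-- an integer Gram matrix of order 9 with off-diagonal entries `1` modulo 4 -/
structure G9 (g : Fin 9 → Fin 9 → ℤ) : Prop where
  diag : ∀ i, g i i = 9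
  symm : ∀ i j, g i j = g j i
  mod4 : ∀ i j, i ≠ j → g i j % 4 = 1
  pos : (Matrix.of fun i j => (g i j : ℝ)).PosDef

/-- the real matrix -/
def rm (g : Fin 9 → Fin 9 → ℤ) : Matrix (Fin 9) (Fin 9) ℝ := Matrix.of fun i j => (g i j : ℝ)

lemma G9.one_le {g : Fin 9 → Fin 9 → ℤ} (h : G9 g) {i j : Fin 9} (hij : i ≠ j) :
    1 ≤ |rm g i j| := by
  have h1 := h.mod4 i j hij
  have h2 : g i j ≠ 0 := by intro h3; rw [h3] at h1; norm_num at h1
  have h3 := Int.one_le_abs h2
  simp only [rm, of_apply]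
  exact_mod_cast h3

lemma G9.ap {g : Fin 9 → Fin 9 → ℤ} (h : G9 g) {r m : ℕ} {β : ℝ} (f : Fin r → Fin 9)
    (hf : Function.Injective f) (hm : r + m = 9) (hβ : 0 ≤ β)
    (hγ : ∀ j, (∀ a, j ≠ f a) → ((rm g).submatrix f f - vecMulVec (fun a => rm g j (f a))
      (fun a => rm g j (f a))).det ≤ β) :
    8 * (rm g).det ≤ 8 ^ m * (8 * ((rm g).submatrix f f).det + m * β) := by
  have h1 := Barba.ap (n := 9) (by norm_num) f hf hm (G := rm g) h.pos
    (fun i => by simp [rm, h.diag]) (fun i j hij => h.one_le hij) hβ hγ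
  norm_num at h1
  exact h1

lemma le_of_sq_le_sq {x y : ℝ} (h : x ^ 2 ≤ y ^ 2) (hy : 0 ≤ y) : x ≤ y := by
  by_contra hc
  push Not at hc
  nlinarith

/-- an entry of absolute value at least 5 -/
lemma case5 {g : Fin 9 → Fin 9 → ℤ} (h : G9 g) {i j : Fin 9} (hij : i ≠ j) (h5 : 5 ≤ |g i j|) :
    (rm g).det ≤ 3136 * 65536 := by
  have hf : Function.Injective ![i, j] := by
    intro a b hab
    fin_cases a <;> fin_cases b <;> simp_all [hij.symm]
  set a : ℝ := rm g i j with ha
  have haj : rm g j i = a := by simp [rm, ha, h.symm j i]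
  have h5' : 5 ≤ |a| := by simp only [ha, rm, of_apply]; exact_mod_cast h5
  have hii : ∀ i, rm g i i = 9 := fun i => by simp [rm, h.diag]
  have hsub : ((rm g).submatrix ![i, j] ![i, j]).det = 81 - a ^ 2 := by
    rw [det_fin_two]
    simp [hii, haj, ← ha]; ring
  have hpos : 0 < 81 - a ^ 2 := by
    rw [← hsub]
    exact (PosDef.submatrix h.pos hf).det_pos
  have ha9 : |a| ≤ 9 := by
    have h1 : |a| ^ 2 ≤ 9 ^ 2 := by rw [sq_abs]; linarith
    exact le_of_sq_le_sq h1 (by norm_num)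
  have h1 := h.ap (β := max 0 (63 - a ^ 2 + 2 * |a|)) (m := 7) ![i, j] hf (by norm_num)
    (le_max_left _ _) (fun k hk => by
      refine le_trans ?_ (le_max_right _ _)
      have h0 := h.one_le (hk 0)
      have h1 := h.one_le (hk 1)
      rw [det_fin_two]
      simp only [Matrix.sub_apply, submatrix_apply, cons_val_zero, cons_val_one,
        vecMulVec_apply, hii, haj, ← ha] at h0 h1 ⊢
      set u := rm g k i
      set v := rm g k j
      have h2 : a * (u * v) ≤ |a| * (|u| * |v|) := by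
        rw [← abs_mul, ← abs_mul]; exact le_abs_self _
      have h3 : 1 ≤ |u| * |v| := by nlinarith
      have h4 : (9 - |a|) * 1 ≤ (9 - |a|) * (|u| * |v|) :=
        mul_le_mul_of_nonneg_left h3 (by linarith)
      have h6 := sq_abs u
      have h7 := sq_abs v
      nlinarith [sq_nonneg (|u| - |v|)])
  rw [hsub] at h1
  have h2 : 8 * (81 - a ^ 2) + (7 : ℕ) * max 0 (63 - a ^ 2 + 2 * |a|) ≤ 784 := by
    have h6 := sq_abs a
    rcases max_cases 0 (63 - a ^ 2 + 2 * |a|) with h3 | h3 <;> rw [h3.1] <;> push_cast <;>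
      nlinarith
  have h3 : 8 * (rm g).det ≤ 8 ^ 7 * 784 := h1.trans (mul_le_mul_of_nonneg_left h2 (by norm_num))
  linarith

/-- two entries `-3` in one row -/
lemma case3 {g : Fin 9 → Fin 9 → ℤ} (h : G9 g) (ha : ∀ i j, i ≠ j → g i j = 1 ∨ g i j = -3)
    {a b c : Fin 9} (hab : a ≠ b) (hac : a ≠ c) (hbc : b ≠ c) (h1 : g a b = -3)
    (h2 : g a c = -3) : (rm g).det ≤ 3072 * 65536 := by
  have hf : Function.Injective ![a, b, c] := by
    intro x y hxy
    fin_cases x <;> fin_cases y <;> simp_all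
  have hii : ∀ i, rm g i i = 9 := fun i => by simp [rm, h.diag]
  have hab' : rm g a b = -3 := by simp [rm, h1]
  have hac' : rm g a c = -3 := by simp [rm, h2]
  have hba' : rm g b a = -3 := by simp [rm, h.symm b a, h1]
  have hca' : rm g c a = -3 := by simp [rm, h.symm c a, h2]
  have hcb' : rm g c b = rm g b c := by simp [rm, h.symm c b]
  have hx : ∀ i j, i ≠ j → rm g i j = 1 ∨ rm g i j = -3 := by
    intro i j hij
    rcases ha i j hij with h | h <;> simp [rm, h]
  have hsub : ((rm g).submatrix ![a, b, c] ![a, b, c]).det ≤ 576 := by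
    rw [det_fin_three]
    simp only [submatrix_apply, cons_val_zero, cons_val_one, cons_val, hii, hab', hac', hba',
      hca', hcb']
    rcases hx b c hbc with h | h <;> rw [h] <;> norm_num
  have h3 := h.ap (β := 256) (m := 6) ![a, b, c] hf (by norm_num) (by norm_num)
    (fun k hk => by
      have h0 := hx k a (hk 0)
      have h1 := hx k b (hk 1)
      have h2 := hx k c (hk 2)
      rw [det_fin_three]
      simp only [Matrix.sub_apply, submatrix_apply, cons_val_zero, cons_val_one, cons_val,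
        vecMulVec_apply, hii, hab', hac', hba', hca', hcb']
      rcases hx b c hbc with h | h <;> rcases h0 with h0 | h0 <;> rcases h1 with h1 | h1 <;>
        rcases h2 with h2 | h2 <;> rw [h, h0, h1, h2] <;> norm_num)
  generalize ((rm g).submatrix ![a, b, c] ![a, b, c]).det = x at *
  push_cast at h3
  linarith

lemma det4 (A : Matrix (Fin 4) (Fin 4) ℝ) : A.det =
    A 0 0 * (A 1 1 * A 2 2 * A 3 3 - A 1 1 * A 2 3 * A 3 2 - A 1 2 * A 2 1 * A 3 3
      + A 1 2 * A 2 3 * A 3 1 + A 1 3 * A 2 1 * A 3 2 - A 1 3 * A 2 2 * A 3 1)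
    - A 0 1 * (A 1 0 * A 2 2 * A 3 3 - A 1 0 * A 2 3 * A 3 2 - A 1 2 * A 2 0 * A 3 3
      + A 1 2 * A 2 3 * A 3 0 + A 1 3 * A 2 0 * A 3 2 - A 1 3 * A 2 2 * A 3 0)
    + A 0 2 * (A 1 0 * A 2 1 * A 3 3 - A 1 0 * A 2 3 * A 3 1 - A 1 1 * A 2 0 * A 3 3
      + A 1 1 * A 2 3 * A 3 0 + A 1 3 * A 2 0 * A 3 1 - A 1 3 * A 2 1 * A 3 0)
    - A 0 3 * (A 1 0 * A 2 1 * A 3 2 - A 1 0 * A 2 2 * A 3 1 - A 1 1 * A 2 0 * A 3 2
      + A 1 1 * A 2 2 * A 3 0 + A 1 2 * A 2 0 * A 3 1 - A 1 2 * A 2 1 * A 3 0) := by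
  rw [det_succ_row_zero]
  simp only [Fin.sum_univ_succ, det_fin_three, submatrix_apply, Fin.sum_univ_zero]
  simp [Fin.succAbove]
  ring

/-- two disjoint pairs with entry `-3` -/
lemma case4 {g : Fin 9 → Fin 9 → ℤ} (h : G9 g) (ha : ∀ i j, i ≠ j → g i j = 1 ∨ g i j = -3)
    {a b c d : Fin 9} (hab : a ≠ b) (hac : a ≠ c) (had : a ≠ d) (hbc : b ≠ c) (hbd : b ≠ d)
    (hcd : c ≠ d) (h1 : g a b = -3) (h2 : g c d = -3) : (rm g).det ≤ 3072 * 65536 := by
  rcases ha a c hac with e1 | e1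
  swap
  · exact case3 h ha hab hac hbc h1 e1
  rcases ha a d had with e2 | e2
  swap
  · exact case3 h ha hab had hbd h1 e2
  rcases ha b c hbc with e3 | e3
  swap
  · exact case3 h ha hab.symm hbc hac (by rw [h.symm]; exact h1) e3
  rcases ha b d hbd with e4 | e4
  swap
  · exact case3 h ha hab.symm hbd had (by rw [h.symm]; exact h1) e4
  have hf : Function.Injective ![a, b, c, d] := by
    intro x y hxy
    fin_cases x <;> fin_cases y <;> simp_all
  have hii : ∀ i, rm g i i = 9 := fun i => by simp [rm, h.diag]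
  have hab' : rm g a b = -3 := by simp [rm, h1]
  have hba' : rm g b a = -3 := by simp [rm, h.symm b a, h1]
  have hcd' : rm g c d = -3 := by simp [rm, h2]
  have hdc' : rm g d c = -3 := by simp [rm, h.symm d c, h2]
  have f1 : rm g a c = 1 := by simp [rm, e1]
  have f2 : rm g a d = 1 := by simp [rm, e2]
  have f3 : rm g b c = 1 := by simp [rm, e3]
  have f4 : rm g b d = 1 := by simp [rm, e4]
  have f5 : rm g c a = 1 := by simp [rm, h.symm c a, e1]
  have f6 : rm g d a = 1 := by simp [rm, h.symm d a, e2]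
  have f7 : rm g c b = 1 := by simp [rm, h.symm c b, e3]
  have f8 : rm g d b = 1 := by simp [rm, h.symm d b, e4]
  have hx : ∀ i j, i ≠ j → rm g i j = 1 ∨ rm g i j = -3 := by
    intro i j hij
    rcases ha i j hij with h | h <;> simp [rm, h]
  have hsub : ((rm g).submatrix ![a, b, c, d] ![a, b, c, d]).det = 4608 := by
    rw [det4]
    simp only [submatrix_apply, cons_val_zero, cons_val_one, cons_val, hii, hab', hba', hcd',
      hdc', f1, f2, f3, f4, f5, f6, f7, f8]
    norm_num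
  have h3 := h.ap (β := 2304) (m := 5) ![a, b, c, d] hf (by norm_num) (by norm_num)
    (fun k hk => by
      have h0 := hx k a (hk 0)
      have h1 := hx k b (hk 1)
      have h2 := hx k c (hk 2)
      have h3 := hx k d (hk 3)
      rw [det4]
      simp only [Matrix.sub_apply, submatrix_apply, cons_val_zero, cons_val_one, cons_val,
        vecMulVec_apply, hii, hab', hba', hcd', hdc', f1, f2, f3, f4, f5, f6, f7, f8]
      rcases h0 with h0 | h0 <;> rcases h1 with h1 | h1 <;>
        rcases h2 with h2 | h2 <;> rcases h3 with h3 | h3 <;> rw [h0, h1, h2, h3] <;> norm_num)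
  rw [hsub] at h3
  norm_num at h3
  linarith

lemma det_J (m : ℕ) (hm : 1 ≤ m) :
    ((8 : ℝ) • (1 : Matrix (Fin m) (Fin m) ℝ) + (Matrix.of fun _ _ => (1 : ℝ))).det
      = (8 : ℝ) ^ (m - 1) * (8 + (m : ℝ)) := by
  have e : (8 : ℝ) • (1 : Matrix (Fin m) (Fin m) ℝ) + (Matrix.of fun _ _ => (1 : ℝ))
      = (8 : ℝ) • (1 + replicateCol Unit (fun _ : Fin m => (1 / 8 : ℝ))
        * replicateRow Unit (fun _ : Fin m => (1 : ℝ))) := by
    ext i j
    simp [mul_apply, mul_add]
  rw [e, det_smul, det_one_add_replicateCol_mul_replicateRow, Fintype.card_fin]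
  obtain ⟨k, rfl⟩ : ∃ k, m = k + 1 := ⟨m - 1, by omega⟩
  simp [dotProduct, pow_succ]
  ring

/-- all entries `1` -/
lemma case0 {g : Fin 9 → Fin 9 → ℤ} (h : G9 g) (ha : ∀ i j, i ≠ j → g i j = 1) :
    (rm g).det = 4352 * 65536 := by
  have e : rm g = (8 : ℝ) • (1 : Matrix (Fin 9) (Fin 9) ℝ) + (Matrix.of fun _ _ => (1 : ℝ)) := by
    ext i j
    by_cases hij : i = j
    · subst hij; simp [rm, h.diag]; norm_num
    · simp [rm, ha i j hij, Matrix.one_apply_ne hij]
  rw [e, det_J 9 (by norm_num)]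
  norm_num

/-- exactly one pair of entries `-3` -/
lemma case1 {g : Fin 9 → Fin 9 → ℤ} (h : G9 g) {a b : Fin 9} (hab : a ≠ b) (h1 : g a b = -3)
    (ha : ∀ i j, i ≠ j → ¬ (i = a ∧ j = b) → ¬ (i = b ∧ j = a) → g i j = 1) :
    (rm g).det = 3648 * 65536 := by
  have hf : Function.Injective ![a, b] := by
    intro x y hxy
    fin_cases x <;> fin_cases y <;> simp_all [hab.symm]
  obtain ⟨e, he⟩ := exists_equiv (r := 2) (m := 7) (N := 9) ![a, b] hf (by norm_num)
  have hna : ∀ j, e (Sum.inr j) ≠ a := fun j hj => by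
    have h2 : e (Sum.inl 0) = a := he 0
    rw [← h2] at hj
    have := e.injective hj
    simp at this
  have hnb : ∀ j, e (Sum.inr j) ≠ b := fun j hj => by
    have h2 : e (Sum.inl 1) = b := he 1
    rw [← h2] at hj
    have := e.injective hj
    simp at this
  set H := (rm g).submatrix e e with hH
  have hp : H.PosDef := PosDef.submatrix h.pos e.injective
  have hb := blk hp.isHermitian
  have hdet : H.det = (rm g).det := det_submatrix_equiv_self e (rm g)
  have hD : H.toBlocks₂₂ = (8 : ℝ) • (1 : Matrix (Fin 7) (Fin 7) ℝ) +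
      (Matrix.of fun _ _ => (1 : ℝ)) := by
    ext i j
    by_cases hij : i = j
    · subst hij; simp [toBlocks₂₂, hH, rm, h.diag]; norm_num
    · have h2 : e (Sum.inr i) ≠ e (Sum.inr j) := fun h3 => hij (Sum.inr_injective (e.injective h3))
      have h3 := ha _ _ h2 (fun h4 => hna i h4.1) (fun h4 => hnb i h4.1)
      simp [toBlocks₂₂, hH, rm, h3, Matrix.one_apply_ne hij]
  have hB : H.toBlocks₁₂ = Matrix.of fun _ _ => (1 : ℝ) := by
    ext i j
    have h2 : e (Sum.inl i) ≠ e (Sum.inr j) := fun h3 => by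
      have := e.injective h3
      simp at this
    have h3 := ha _ _ h2 (fun h4 => hnb j h4.2) (fun h4 => hna j h4.2)
    simp [toBlocks₁₂, hH, rm, h3]
  have hA : H.toBlocks₁₁ = !![9, -3; -3, 9] := by
    ext i j
    fin_cases i <;> fin_cases j <;>
      simp [toBlocks₁₁, hH, he, rm, h.diag, h1, h.symm b a]
  have hpD : H.toBlocks₂₂.PosDef := hp.submatrix Sum.inr_injective
  let _ : Invertible H.toBlocks₂₂ := hpD.isUnit.invertible
  have h2 := det_fromBlocks₂₂ H.toBlocks₁₁ H.toBlocks₁₂ H.toBlocks₁₂ᴴ H.toBlocks₂₂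
  rw [← hb, hdet] at h2
  have h3 : ⅟(H.toBlocks₂₂) * H.toBlocks₁₂ᴴ = (1 / 15 : ℝ) • H.toBlocks₁₂ᴴ := by
    have h4 : H.toBlocks₂₂ * H.toBlocks₁₂ᴴ = (15 : ℝ) • H.toBlocks₁₂ᴴ := by
      rw [hD, hB]
      ext i j
      simp [mul_apply, Matrix.one_apply, Finset.sum_add_distrib]
      norm_num
    have h5 : ⅟(H.toBlocks₂₂) * (H.toBlocks₂₂ * H.toBlocks₁₂ᴴ) = H.toBlocks₁₂ᴴ := by
      rw [← Matrix.mul_assoc, invOf_mul_self, Matrix.one_mul]
    rw [h4, Matrix.mul_smul] at h5
    rw [← h5, smul_smul]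
    conv_lhs => rw [h5]
    norm_num
  rw [Matrix.mul_assoc, h3, hA, hD, det_J 7 (by norm_num), hB, det_fin_two] at h2
  rw [h2]
  simp [mul_apply]
  norm_num

/-- the determinant of a normalised Gram matrix of order 9 -/
theorem G9.main {g : Fin 9 → Fin 9 → ℤ} (h : G9 g) :
    (rm g).det ≤ 3136 * 65536 ∨ (rm g).det = 4352 * 65536 ∨ (rm g).det = 3648 * 65536 := by
  by_cases h5 : ∃ i j, i ≠ j ∧ 5 ≤ |g i j|
  · obtain ⟨i, j, hij, h5⟩ := h5
    exact Or.inl (case5 h hij h5)
  push Not at h5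
  have ha : ∀ i j, i ≠ j → g i j = 1 ∨ g i j = -3 := by
    intro i j hij
    have h1 := h5 i j hij
    have h2 := h.mod4 i j hij
    rw [abs_lt] at h1
    omega
  by_cases h3 : ∀ i j, i ≠ j → g i j = 1
  · exact Or.inr (Or.inl (case0 h h3))
  push Not at h3
  obtain ⟨a, b, hab, h3⟩ := h3
  have h1 : g a b = -3 := (ha a b hab).resolve_left h3
  by_cases h4 : ∀ i j, i ≠ j → ¬ (i = a ∧ j = b) → ¬ (i = b ∧ j = a) → g i j = 1
  · exact Or.inr (Or.inr (case1 h hab h1 h4))
  push Not at h4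
  obtain ⟨c, d, hcd, n1, n2, h4⟩ := h4
  have h2 : g c d = -3 := (ha c d hcd).resolve_left h4
  have h1' : g b a = -3 := by rw [h.symm]; exact h1
  have h2' : g d c = -3 := by rw [h.symm]; exact h2
  left
  have hle : (rm g).det ≤ 3072 * 65536 := by
    by_cases hac : a = c
    · subst hac
      exact case3 h ha hab hcd (fun h' => n1 rfl h'.symm) h1 h2
    by_cases had : a = d
    · subst had
      exact case3 h ha hab hcd.symm (fun h' => n2 h'.symm rfl) h1 h2'
    by_cases hbc : b = c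
    · subst hbc
      exact case3 h ha hab.symm hcd had h1' h2
    by_cases hbd : b = d
    · subst hbd
      exact case3 h ha hab.symm hcd.symm hac h1' h2'
    exact case4 h ha hab hac had hbc hbd hcd h1 h2
  linarith

lemma exists_G9 (h0 : Helper67.Cube.maxDet 8 ≠ 0) : ∃ g : Fin 9 → Fin 9 → ℤ, G9 g ∧
    (rm g).det = 65536 * (Helper67.Cube.maxDet 8 : ℝ) ^ 2 := by
  obtain ⟨K, hK, hdet⟩ := exists_pm 8
  let ε : Fin 9 → ℤ := fun i => if (∑ k, K i k) % 4 = 1 then 1 else -1
  have hε : ∀ i, ε i = 1 ∨ ε i = -1 := by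
    intro i; simp only [ε]; split_ifs <;> simp
  let K' : Matrix (Fin 9) (Fin 9) ℤ := Matrix.of fun i k => ε i * K i k
  have hK' : ∀ i j, K' i j = 1 ∨ K' i j = -1 := by
    intro i j
    simp only [K', of_apply]
    rcases hε i with h | h <;> rcases hK i j with h' | h' <;> rw [h, h'] <;> norm_num
  have hs : ∀ i, (∑ k, K' i k) % 4 = 1 := by
    intro i
    have h1 := row_mod hK i
    have e : ∑ k, K' i k = ε i * ∑ k, K i k := by
      rw [Finset.mul_sum]; rfl
    rw [e]
    simp only [ε]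
    push_cast at h1
    generalize ∑ k, K i k = y at *
    split_ifs with h
    · rw [one_mul]; exact h
    · omega
  have hdet' : ((K'.map (Int.cast : ℤ → ℝ)).det) ^ 2 = 4 ^ 8 * (Helper67.Cube.maxDet 8 : ℝ) ^ 2 := by
    have e : K'.map (Int.cast : ℤ → ℝ)
        = Matrix.of fun i j => (ε i : ℝ) * (K.map (Int.cast : ℤ → ℝ)) i j := by
      ext i j; simp [K']
    rw [e, det_mul_column, mul_pow, hdet, ← Finset.prod_pow]
    have : ∀ i, ((ε i : ℝ)) ^ 2 = 1 := by
      intro i; rcases hε i with h | h <;> rw [h] <;> norm_num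
    rw [Finset.prod_congr rfl (fun i _ => this i), Finset.prod_const_one, one_mul]
  have hne : (K'.map (Int.cast : ℤ → ℝ)).det ≠ 0 := by
    intro h
    rw [h] at hdet'
    have h1 : (0:ℝ) < (Helper67.Cube.maxDet 8 : ℝ) ^ 2 := by
      have : (0:ℝ) < Helper67.Cube.maxDet 8 := by exact_mod_cast Nat.pos_of_ne_zero h0
      positivity
    have h2 : (0:ℝ) < 4 ^ 8 * (Helper67.Cube.maxDet 8 : ℝ) ^ 2 := by positivity
    rw [← hdet'] at h2
    norm_num at h2
  have hrm : (K'.map (Int.cast : ℤ → ℝ)) * (K'.map (Int.cast : ℤ → ℝ))ᴴ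
      = rm (fun i j => ∑ k, K' i k * K' j k) := by
    ext i j
    rw [gram_entry]; rfl
  refine ⟨fun i j => ∑ k, K' i k * K' j k, ⟨?_, ?_, ?_, ?_⟩, ?_⟩
  · intro i
    have := gram_diag hK' i
    push_cast at this
    exact this
  · intro i j
    exact Finset.sum_congr rfl fun k _ => mul_comm _ _
  · intro i j _
    have h1 := gram_mod hK' i j
    have h2 := hs i
    have h3 := hs j
    push_cast at h1
    generalize ∑ k, K' i k * K' j k = x at *
    generalize ∑ k, K' i k = y at *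
    generalize ∑ k, K' j k = z at *
    omega
  · have h1 := gram_posDef K' hne
    rw [hrm] at h1
    exact h1
  · rw [← hrm, gram_det, hdet']
    generalize (Helper67.Cube.maxDet 8 : ℝ) = x
    norm_num

/-- a 0/1 matrix of order 8 has determinant at most 56 -/
theorem maxDet_8_le' : Helper67.Cube.maxDet 8 ≤ 56 := by
  by_cases h0 : Helper67.Cube.maxDet 8 = 0
  · omega
  obtain ⟨g, hg, hdet⟩ := exists_G9 h0
  have hle := maxDet_8_le
  rcases hg.main with h | h | h
  · rw [hdet] at h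
    have h1 : ((Helper67.Cube.maxDet 8 : ℕ) : ℝ) ^ 2 ≤ 56 ^ 2 := by linarith
    have h2 := le_of_sq_le_sq h1 (by norm_num)
    exact_mod_cast h2
  · rw [hdet] at h
    have h1 : ((Helper67.Cube.maxDet 8 : ℕ) : ℝ) ^ 2 = 4352 := by linarith
    have h2 : (Helper67.Cube.maxDet 8) ^ 2 = 4352 := by exact_mod_cast h1
    generalize Helper67.Cube.maxDet 8 = D at *
    exfalso
    have : D ≤ 65 := hle
    nlinarith
  · rw [hdet] at h
    have h1 : ((Helper67.Cube.maxDet 8 : ℕ) : ℝ) ^ 2 = 3648 := by linarith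
    have h2 : (Helper67.Cube.maxDet 8) ^ 2 = 3648 := by exact_mod_cast h1
    generalize Helper67.Cube.maxDet 8 = D at *
    exfalso
    rcases Nat.lt_or_ge D 61 with h3 | h3
    · have : D ≤ 60 := by omega
      nlinarith
    · nlinarith

end Helper41.Barba
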