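import Pool.Agent.Helper67.Cube6.Cert9
import Pool.Agent.Helper41.Order9
import Pool.Agent.Helper51.BS.Main

/-!
# From level 6 to the dimensions 7, ..., 12
-/

set_option autoImplicit false

namespace Helper41.Target

open Helper67.Cube Helper67.BS Helper67.Cube18
open Helper67.Cube6 (Ent)

/-- upper bounds for the largest determinants of 0/1 matrices -/
def VV : ℕ → ℕ
  | 0 => 1
  | 1 => 1
  | 2 => 1
  | 3 => 2
  | 4 => 3
  | 5 => 5
  | 6 => 12
  | 7 => 32
  | 8 => 56
  | 9 => 144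
  | 10 => 447
  | 11 => 1458
  | _ => 3645

theorem VV_le : ∀ i ≤ 12, maxDet i ≤ VV i := by
  intro i hi
  interval_cases i
  · exact maxDet_zero
  · exact maxDet_one
  · exact maxDet_two
  · exact maxDet_three
  · exact maxDet_four
  · exact Helper41.Barba.maxDet_5_le
  · exact Helper41.Barba.maxDet_6_le
  · exact Helper41.Barba.maxDet_7_le
  · exact Helper41.Barba.maxDet_8_le'
  · exact Helper41.Barba.maxDet_9_le
  · exact Helper41.Barba.maxDet_10_le
  · exact Helper41.Barba.maxDet_11_le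
  · exact Helper41.Barba.maxDet_12_le

theorem VV_mono : ∀ i < 12, VV i ≤ VV (i+1) := by decide

/-- the value at index `0` of a chain with value `Om` at index `j` (level `6 + t - j`) -/
def omA (c : ℕ → ℚ) (t : ℕ) : ℕ → ℚ → ℚ
  | 0, Om => Om
  | j+1, Om => omA c t j (c j * ((6 + t - j).factorial : ℚ) + 2 * ((6 + t - j : ℕ) : ℚ) * Om)

/-- the value at level `6 + t` of the chain with value `Om` at level `6` -/
def omF (c : ℕ → ℚ) (t : ℕ) (Om : ℚ) : ℚ := omA c t t Om

theorem chain {dis : Bool} {c : ℕ → ℚ} {t : ℕ} (ht : t ≤ 6)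
    (hs : ∀ i < t, stepQ VV c i (5+t-i)) (j : ℕ) (hj : j ≤ t) :
    ∀ (Om : ℚ) (m : ℕ), m = 6 + t - j → LevP dis c m j Om → LevP dis c (6+t) 0 (omA c t j Om) := by
  induction j with
  | zero =>
    intro Om m hm h
    obtain rfl : m = 6 + t := hm
    exact h
  | succ j ih =>
    intro Om m hm h
    have h1 := hs j (by omega)
    obtain rfl : m = 5 + t - j := by omega
    have h2 := h.step (V := VV) (by omega) (fun i hi => VV_le i (by omega))
      (fun i hi => VV_mono i (by omega)) h1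
    have h3 := ih (by omega) _ (5 + t - j + 1) (by omega) h2
    have e : 6 + t - j = 5 + t - j + 1 := by omega
    rw [omA, e]
    push_cast at h3 ⊢
    exact h3

section
variable {Q g G : ℕ} {x : ℕ → Fin 6 → ℕ} {ev : ℕ → ℕ → ℕ} {D : List Ent}
  {M : ℕ → ℕ → ℕ} {lp ln : List ℕ} {c : ℕ → ℚ} {lam mu : ℚ}

theorem boundC (h : Base6 Q g G x ev D) (hM : LO M lp [] D)
    (hlp : kindB (G * g) 0 (fun o => ev (o / g) (o % g)) lp = true)
    {t : ℕ} (ht : t ≤ 6) (hb : baseQ VV c M lam mu 6 t) (hs : ∀ i < t, stepQ VV c i (5+t-i))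
    {B : ℕ} (hB : (B : ℚ) - 1 < omF c t (lam * ((46080 * totL lp : ℕ) : ℚ) + mu * 720)) {N : ℕ}
    {W : Fin N → Fin (6+t+1) → Fin (6+t) → ℝ} (hW : IsCover W) (hv : IsVertexFamily W) :
    B ≤ N := by
  have h1 := h.cover hM hlp (V := VV) (c := c) (lam := lam) (mu := mu) (i := t)
    (fun i hi => VV_le i (by omega)) (fun i hi => VV_mono i (by omega)) hb
  have e : ((6).factorial : ℚ) = 720 := by norm_num [Nat.factorial]
  rw [e] at h1
  have h2 := chain ht hs t le_rfl _ 6 (by omega) h1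
  have h3 := h2.target hW hv (by simp)
  have h4 : omF c t (lam * ((46080 * totL lp : ℕ) : ℚ) + mu * 720) ≤ (N : ℚ) := by
    exact_mod_cast h3
  have h5 : (B : ℚ) < (N : ℚ) + 1 := by linarith
  have h6 : B < N + 1 := by exact_mod_cast h5
  omega

theorem boundD (h : Base6 Q g G x ev D) (hM : LO M lp ln D)
    (hlp : kindB (G * g) 0 (fun o => ev (o / g) (o % g)) lp = true)
    (hln : kindB (G * g) 1 (fun o => ev (o / g) (o % g)) ln = true)
    {t : ℕ} (ht : t ≤ 6) (hb : baseQ VV c M lam mu 6 t) (hs : ∀ i < t, stepQ VV c i (5+t-i))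
    {B : ℕ} (hB : (B : ℚ) - 1 < omF c t
      (lam * (((46080 * totL lp : ℕ) : ℚ) - ((46080 * totL ln : ℕ) : ℚ)) + mu * 720)) {N : ℕ}
    {W : Fin N → Fin (6+t+1) → Fin (6+t) → ℝ} (hW : IsDissection W) (hv : IsVertexFamily W) :
    B ≤ N := by
  have h1 := h.dissection hM hlp hln (V := VV) (c := c) (lam := lam) (mu := mu) (i := t)
    (fun i hi => VV_le i (by omega)) (fun i hi => VV_mono i (by omega)) hb
  have e : ((6).factorial : ℚ) = 720 := by norm_num [Nat.factorial]
  rw [e] at h1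
  have h2 := chain ht hs t le_rfl _ 6 (by omega) h1
  have h3 := h2.target hW.1 hv (fun _ => hW)
  have h4 : omF c t (lam * (((46080 * totL lp : ℕ) : ℚ) - ((46080 * totL ln : ℕ) : ℚ)) +
      mu * 720) ≤ (N : ℚ) := by
    exact_mod_cast h3
  have h5 : (B : ℚ) < (N : ℚ) + 1 := by linarith
  have h6 : B < N + 1 := by exact_mod_cast h5
  omega

theorem boundT (h : Base6 Q g G x ev D) (hM : LO M lp [] D)
    (hlp : kindB (G * g) 0 (fun o => ev (o / g) (o % g)) lp = true)
    {t : ℕ} (ht : t ≤ 6) (hb : baseQ VV c M lam mu 6 t) (hs : ∀ i < t, stepQ VV c i (5+t-i))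
    {B : ℕ} (hB : (B : ℚ) - 1 < omF c t (lam * ((46080 * totL lp : ℕ) : ℚ) + mu * 720)) {N : ℕ}
    {W : Fin N → Fin (6+t+1) → Fin (6+t) → ℝ} (hW : IsTriangulation W) : B ≤ N := by
  obtain ⟨N', hN, W', hW', hv⟩ := Helper51.BS.vertex_cover_of_triangulation hW
  exact (boundC h hM hlp ht hb hs hB hW' hv).trans hN

end

end Helper41.Target
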